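import Mathlib

/-!
# Growth of graded inverse systems (small values)

`W` is a vector space with commuting endomorphisms `X j` (`j : Fin n`), `D i` is the part of degree `i`;
the `X j` lower the degree by one and a vector of positive degree killed by all `X j` is zero.
-/

set_option autoImplicit false

namespace Pool.Agent.CB

open Module

variable {K W : Type*} [Field K] [AddCommGroup W] [Module K W] {n : ℕ}

/-- The action of the linear form with coefficient vector `c`. -/
def L (X : Fin n → Module.End K W) (c : Fin n → K) : Module.End K W := ∑ j, c j • X j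

lemma L_apply (X : Fin n → Module.End K W) (c : Fin n → K) (w : W) :
    L X c w = ∑ j, c j • X j w := by
  simp [L]

lemma L_add (X : Fin n → Module.End K W) (c c' : Fin n → K) : L X (c + c') = L X c + L X c' := by
  simp [L, add_smul, Finset.sum_add_distrib]

lemma L_smul (X : Fin n → Module.End K W) (t : K) (c : Fin n → K) : L X (t • c) = t • L X c := by
  simp [L, mul_smul, Finset.smul_sum]

lemma L_single (X : Fin n → Module.End K W) (j : Fin n) : L X (Pi.single j 1) = X j := by
  classical
  simp [L, Pi.single_apply, ite_smul]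

lemma L_comm {X : Fin n → Module.End K W} (hX : ∀ i j, Commute (X i) (X j)) (c : Fin n → K)
    (j : Fin n) (w : W) : L X c (X j w) = X j (L X c w) := by
  simp only [L_apply, map_sum, map_smul]
  refine Finset.sum_congr rfl fun i _ => ?_
  congr 1
  exact LinearMap.congr_fun (hX i j).eq w

/-- `c` is good for `E` if the corresponding linear form acts injectively on `E`. -/
def Good (X : Fin n → Module.End K W) (c : Fin n → K) (E : Submodule K W) : Prop :=
  ∀ w ∈ E, L X c w = 0 → w = 0

section line

variable {V W' : Type*} [AddCommGroup V] [Module K V] [AddCommGroup W'] [Module K W']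
  [FiniteDimensional K V]

/-- On a line of linear maps, injectivity at one point means injectivity at all but finitely many. -/
lemma line_finite (P Q : V →ₗ[K] W') (s0 : K) (h : Function.Injective (P + s0 • Q)) :
    {s : K | ¬ Function.Injective (P + s • Q)}.Finite := by
  obtain ⟨g, hg⟩ := (P + s0 • Q).exists_leftInverse_of_injective (LinearMap.ker_eq_bot.2 h)
  have hfin : Set.Finite {μ : K | Module.End.HasEigenvalue (g ∘ₗ Q) μ} :=
    Module.End.finite_hasEigenvalue _
  refine (hfin.image fun μ => s0 - μ⁻¹).subset ?_
  intro s hs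
  have hs' : ¬ Function.Injective (P + s • Q) := hs
  rw [← LinearMap.ker_eq_bot, Submodule.eq_bot_iff] at hs'
  push Not at hs'
  obtain ⟨v, hv, hv0⟩ := hs'
  rw [LinearMap.mem_ker] at hv
  have hne : s ≠ s0 := by
    rintro rfl
    exact hv0 (h (by rw [hv, map_zero]))
  have h1 : (P + s0 • Q) v = -((s - s0) • Q v) := by
    have : (P + s • Q) v = (P + s0 • Q) v + (s - s0) • Q v := by
      simp only [LinearMap.add_apply, LinearMap.smul_apply, sub_smul]
      abel
    rw [hv] at this
    exact (eq_neg_of_add_eq_zero_left this.symm)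
  have h2 : v = -((s - s0) • (g ∘ₗ Q) v) := by
    have := congrArg g h1
    have h3 : g ((P + s0 • Q) v) = v := LinearMap.congr_fun hg v
    rw [h3] at this
    simpa using this
  have h4 : (g ∘ₗ Q) v = (-(s - s0)⁻¹) • v := by
    have hss : s - s0 ≠ 0 := sub_ne_zero.2 hne
    calc (g ∘ₗ Q) v = (-(s - s0)⁻¹) • (-((s - s0) • (g ∘ₗ Q) v)) := by
          rw [neg_smul, smul_neg, neg_neg, smul_smul, inv_mul_cancel₀ hss, one_smul]
      _ = (-(s - s0)⁻¹) • v := by rw [← h2]
  refine ⟨-(s - s0)⁻¹, ?_, ?_⟩
  · exact Module.End.hasEigenvalue_of_hasEigenvector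
      ⟨Module.End.mem_eigenspace_iff.2 h4, hv0⟩
  · simp

end line

/-- Finitely many injectivity-on-a-finite-dimensional-space conditions on a linear form can be met
simultaneously as soon as each of them can. -/
lemma exists_good [Infinite K] (X : Fin n → Module.End K W) {ι : Type*} (s : Finset ι)
    (E : ι → Submodule K W) (hE : ∀ k ∈ s, FiniteDimensional K (E k))
    (h : ∀ k ∈ s, ∃ c, Good X c (E k)) : ∃ c, ∀ k ∈ s, Good X c (E k) := by
  classical
  induction s using Finset.induction_on with
  | empty => exact ⟨0, by simp⟩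
  | insert k1 s hk ih =>
    obtain ⟨c0, hc0⟩ := ih (fun k hk => hE k (Finset.mem_insert_of_mem hk))
      (fun k hk => h k (Finset.mem_insert_of_mem hk))
    obtain ⟨c1, hc1⟩ := h k1 (Finset.mem_insert_self _ _)
    -- the bad set for `k` along the line
    have key : ∀ k, FiniteDimensional K (E k) → (∃ s0 : K, Good X (c0 + s0 • (c1 - c0)) (E k)) →
        {t : K | ¬ Good X (c0 + t • (c1 - c0)) (E k)}.Finite := by
      intro k hfk ⟨s0, hs0⟩
      have hinj : ∀ t : K, Function.Injective (((L X c0).domRestrict (E k)) +
          t • ((L X (c1 - c0)).domRestrict (E k))) ↔ Good X (c0 + t • (c1 - c0)) (E k) := by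
        intro t
        rw [← LinearMap.ker_eq_bot, Submodule.eq_bot_iff]
        constructor
        · intro hh w hw hw0
          have := hh ⟨w, hw⟩ (by
            rw [LinearMap.mem_ker]
            simpa [L_add, L_smul] using hw0)
          simpa using this
        · intro hh w hw0
          rw [LinearMap.mem_ker] at hw0
          have := hh w.1 w.2 (by simpa [L_add, L_smul] using hw0)
          exact Subtype.ext this
      have := line_finite ((L X c0).domRestrict (E k)) ((L X (c1 - c0)).domRestrict (E k)) s0
        ((hinj s0).2 hs0)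
      refine this.subset ?_
      intro t ht
      intro hi
      exact ht ((hinj t).1 hi)
    have hfin : (⋃ k ∈ insert k1 s, {t : K | ¬ Good X (c0 + t • (c1 - c0)) (E k)}).Finite := by
      refine Set.Finite.biUnion (Finset.finite_toSet _) ?_
      intro k hk'
      have hk'' : k ∈ insert k1 s := hk'
      refine key k (hE k hk'') ?_
      rcases Finset.mem_insert.1 hk'' with rfl | hks
      · exact ⟨1, by simpa using hc1⟩
      · exact ⟨0, by simpa using hc0 k hks⟩
    obtain ⟨t, ht⟩ := hfin.exists_notMem
    refine ⟨c0 + t • (c1 - c0), fun k hk' => ?_⟩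
    by_contra hcon
    exact ht (Set.mem_biUnion hk' hcon)

/-- Hypotheses on the ambient graded inverse system. -/
structure Sys (X : Fin n → Module.End K W) (D : ℕ → Submodule K W) : Prop where
  comm : ∀ i j, Commute (X i) (X j)
  lower : ∀ i j w, w ∈ D (i + 1) → X j w ∈ D i
  soc : ∀ i w, w ∈ D (i + 1) → (∀ j, X j w = 0) → w = 0

variable {X : Fin n → Module.End K W} {D : ℕ → Submodule K W}

lemma finrank_map_add_ker (f : Module.End K W) (E : Submodule K W) [FiniteDimensional K E] :
    finrank K (E.map f) + finrank K (E ⊓ LinearMap.ker f : Submodule K W) = finrank K E := by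
  have h := LinearMap.finrank_range_add_finrank_ker (f.domRestrict E)
  have h1 : LinearMap.range (f.domRestrict E) = E.map f := by
    rw [LinearMap.range_domRestrict]
  rw [h1] at h
  rw [← h]
  congr 1
  have h2 : LinearMap.ker (f.domRestrict E) = Submodule.comap E.subtype (E ⊓ LinearMap.ker f) := by
    ext w
    simp [LinearMap.mem_ker]
  rw [h2]
  exact ((Submodule.comapSubtypeEquivOfLe (p := E ⊓ LinearMap.ker f) (q := E)
    inf_le_left).finrank_eq).symm

/-- Step of the induction: if no linear form is injective on `E` (degree `i+1`) then the same holds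
for one of the spaces `X j E`. -/
lemma exists_bad_map [Infinite K] (S : Sys X D) (i : ℕ) (E : Submodule K W)
    [FiniteDimensional K E] (hE : E ≤ D (i + 1)) (h : ∀ c, ¬ Good X c E) :
    ∃ j, ∀ c, ¬ Good X c (E.map (X j)) := by
  by_contra hcon
  push Not at hcon
  obtain ⟨c, hc⟩ := exists_good X Finset.univ (fun j => E.map (X j))
    (fun j _ => inferInstance) (fun j _ => hcon j)
  apply h c
  intro w hw hw0
  refine S.soc i w (hE hw) fun j => ?_
  refine hc j (Finset.mem_univ _) _ (Submodule.mem_map_of_mem hw) ?_
  rw [L_comm S.comm, hw0, map_zero]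

lemma exists_ker_of_not_good {c : Fin n → K} {E : Submodule K W} (h : ¬ Good X c E) :
    ∃ w ∈ E, w ≠ 0 ∧ L X c w = 0 := by
  unfold Good at h
  push Not at h
  obtain ⟨w, hw, hw0, hne⟩ := h
  exact ⟨w, hw, hne, hw0⟩

/-- If no linear form acts injectively on `E ⊆ D i` then `dim E ≥ i + 1`. -/
lemma green [Infinite K] (S : Sys X D) (i : ℕ) (E : Submodule K W)
    [FiniteDimensional K E] (hE : E ≤ D i) (h : ∀ c, ¬ Good X c E) :
    i + 1 ≤ finrank K E := by
  induction i generalizing E with
  | zero =>
    obtain ⟨w, hw, hne, -⟩ := exists_ker_of_not_good (h 0)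
    have : E ≠ ⊥ := by
      rintro rfl
      exact hne (by simpa using hw)
    have := Submodule.one_le_finrank_iff.2 this
    omega
  | succ i ih =>
    obtain ⟨j, hj⟩ := exists_bad_map S i E hE h
    have h1 : i + 1 ≤ finrank K (E.map (X j)) := by
      refine ih (E.map (X j)) ?_ hj
      rintro _ ⟨w, hw, rfl⟩
      exact S.lower i j w (hE hw)
    have h2 := finrank_map_add_ker (X j) E
    have h3 : 1 ≤ finrank K (E ⊓ LinearMap.ker (X j) : Submodule K W) := by
      obtain ⟨w, hw, hne, hw0⟩ := exists_ker_of_not_good (h (Pi.single j 1))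
      rw [L_single] at hw0
      have : (E ⊓ LinearMap.ker (X j) : Submodule K W) ≠ ⊥ := by
        intro hb
        have : w ∈ (E ⊓ LinearMap.ker (X j) : Submodule K W) := ⟨hw, hw0⟩
        rw [hb] at this
        exact hne (by simpa using this)
      exact Submodule.one_le_finrank_iff.2 this
    omega

/-- Consequence: if `dim E ≤ i`, some linear form is injective on `E ⊆ D i`. -/
lemma exists_good_of_finrank_le [Infinite K] (S : Sys X D) (i : ℕ) (E : Submodule K W)
    [FiniteDimensional K E] (hE : E ≤ D i) (h : finrank K E ≤ i) : ∃ c, Good X c E := by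
  by_contra hcon
  push Not at hcon
  have := green S i E hE hcon
  omega

/-- Injectivity of a linear form propagates to higher degree. -/
lemma good_succ (S : Sys X D) (i : ℕ) {c : Fin n → K} {A B : Submodule K W}
    (hA : A ≤ D (i + 1)) (hAB : ∀ j, ∀ w ∈ A, X j w ∈ B) (hB : Good X c B) : Good X c A := by
  intro w hw hw0
  refine S.soc i w (hA hw) fun j => ?_
  refine hB _ (hAB j w hw) ?_
  rw [L_comm S.comm, hw0, map_zero]

lemma L_mem {c : Fin n → K} {A B : Submodule K W} (hAB : ∀ j, ∀ w ∈ A, X j w ∈ B) {w : W}
    (hw : w ∈ A) : L X c w ∈ B := by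
  rw [L_apply]
  exact Submodule.sum_mem _ fun j _ => Submodule.smul_mem _ _ (hAB j w hw)

lemma finrank_le_of_good {c : Fin n → K} {A B : Submodule K W} [FiniteDimensional K B]
    (hAB : ∀ j, ∀ w ∈ A, X j w ∈ B) (hA : Good X c A) : finrank K A ≤ finrank K B := by
  let f : A →ₗ[K] B := (L X c).restrict (fun w hw => L_mem hAB hw)
  have hf : Function.Injective f := by
    rw [← LinearMap.ker_eq_bot, Submodule.eq_bot_iff]
    intro w hw
    rw [LinearMap.mem_ker] at hw
    have : L X c w.1 = 0 := by
      have := congrArg Subtype.val hw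
      simpa [f] using this
    exact Subtype.ext (hA w.1 w.2 this)
  exact LinearMap.finrank_le_finrank_of_injective hf

/-- A finite commuting family of endomorphisms of a nonzero finite-dimensional space over an
algebraically closed field has a common eigenvector. -/
lemma exists_common_eigenvector [IsAlgClosed K] {V : Type*} [AddCommGroup V] [Module K V]
    [FiniteDimensional K V] [Nontrivial V] {m : ℕ} (T : Fin m → Module.End K V)
    (hT : ∀ i j, Commute (T i) (T j)) : ∃ v : V, v ≠ 0 ∧ ∃ χ : Fin m → K, ∀ j, T j v = χ j • v := by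
  classical
  have key : ∀ s : Finset (Fin m), ∃ U : Submodule K V, U ≠ ⊥ ∧ (∀ j, ∀ u ∈ U, T j u ∈ U) ∧
      ∃ χ : Fin m → K, ∀ j ∈ s, ∀ u ∈ U, T j u = χ j • u := by
    intro s
    induction s using Finset.induction_on with
    | empty => exact ⟨⊤, top_ne_bot, fun _ _ _ => trivial, 0, by simp⟩
    | insert k s hk ih =>
      obtain ⟨U, hU, hinv, χ, hχ⟩ := ih
      have : Nontrivial U := Submodule.nontrivial_iff_ne_bot.2 hU
      obtain ⟨μ, hμ⟩ := Module.End.exists_eigenvalue ((T k).restrict (hinv k))
      obtain ⟨u0, hu0⟩ := hμ.exists_hasEigenvector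
      refine ⟨U ⊓ Module.End.eigenspace (T k) μ, ?_, ?_, Function.update χ k μ, ?_⟩
      · intro hb
        have h1 : (u0 : V) ∈ U ⊓ Module.End.eigenspace (T k) μ := by
          refine ⟨u0.2, ?_⟩
          have := congrArg Subtype.val hu0.apply_eq_smul
          exact Module.End.mem_eigenspace_iff.2 (by simpa using this)
        rw [hb] at h1
        exact hu0.2 (Subtype.ext (by simpa using h1))
      · rintro j u ⟨hu, hue⟩
        refine ⟨hinv j u hu, ?_⟩
        have hue' : T k u = μ • u := Module.End.mem_eigenspace_iff.1 hue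
        have h1 : T k (T j u) = T j (T k u) := LinearMap.congr_fun (hT k j).eq u
        refine Module.End.mem_eigenspace_iff.2 ?_
        rw [h1, hue', map_smul]
      · intro j hj u hu
        rcases Finset.mem_insert.1 hj with rfl | hjs
        · simpa using Module.End.mem_eigenspace_iff.1 hu.2
        · have hne : j ≠ k := by
            rintro rfl
            exact hk hjs
          rw [Function.update_of_ne hne]
          exact hχ j hjs u hu.1
  obtain ⟨U, hU, -, χ, hχ⟩ := key Finset.univ
  obtain ⟨u, hu, hu0⟩ := Submodule.exists_mem_ne_zero_of_ne_bot hU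
  exact ⟨u, hu0, χ, fun j => hχ j (Finset.mem_univ _) u hu⟩

/-- **Flatness lemma.** If a linear form `c` is injective on `B` (degree `i`), `A` (degree `i+1`) is
mapped to `B` by all variables, and `dim A = dim B > 0`, then the operators `X j ∘ c⁻¹` on `B`
commute, so there is `ψ ∈ A` nonzero and a point `p` with `X j ψ = p j • (c ψ)`. -/
lemma flat [IsAlgClosed K] (S : Sys X D) (i : ℕ) {c : Fin n → K} {A B : Submodule K W}
    [FiniteDimensional K A] [FiniteDimensional K B]
    (hA : A ≤ D (i + 1)) (hAB : ∀ j, ∀ w ∈ A, X j w ∈ B) (hB : Good X c B)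
    (hdim : finrank K A = finrank K B) (hne : B ≠ ⊥) :
    ∃ p : Fin n → K, ∃ ψ ∈ A, ψ ≠ 0 ∧ (∀ j, X j ψ = p j • L X c ψ) ∧ L X c ψ ≠ 0 := by
  have hgA : Good X c A := good_succ S i hA hAB hB
  let f : A →ₗ[K] B := (L X c).restrict (fun w hw => L_mem hAB hw)
  have hf : Function.Injective f := by
    rw [← LinearMap.ker_eq_bot, Submodule.eq_bot_iff]
    intro w hw
    rw [LinearMap.mem_ker] at hw
    have : L X c w.1 = 0 := by
      have := congrArg Subtype.val hw
      simpa [f] using this
    exact Subtype.ext (hgA w.1 w.2 this)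
  let e : A ≃ₗ[K] B := LinearEquiv.ofInjectiveOfFinrankEq f hf hdim
  have he : ∀ a : A, ((e a : B) : W) = L X c a := by
    intro a
    have : e a = f a := rfl
    rw [this]; rfl
  have hes : ∀ b : B, L X c ((e.symm b : A) : W) = b := by
    intro b
    rw [← he, e.apply_symm_apply]
  let T : Fin n → Module.End K B := fun j =>
    ((X j).restrict (fun w hw => hAB j w hw) : A →ₗ[K] B) ∘ₗ e.symm.toLinearMap
  have hTv : ∀ j (b : B), ((T j b : B) : W) = X j ((e.symm b : A) : W) := fun j b => rfl
  have hT : ∀ i j, Commute (T i) (T j) := by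
    intro i j
    apply LinearMap.ext
    intro b
    apply Subtype.ext
    have hLT : ∀ j (b : B), L X c ((T j b : B) : W) = X j (b : W) := by
      intro j b
      rw [hTv, L_comm S.comm, hes]
    -- both sides have the same image under the injective `L X c`
    have hsub : ((T i * T j) b : W) - ((T j * T i) b : W) = 0 := by
      refine hB _ (B.sub_mem ((T i * T j) b).2 ((T j * T i) b).2) ?_
      rw [map_sub]
      have h1 : L X c (((T i * T j) b : B) : W) = X i ((T j b : B) : W) := hLT i (T j b)
      have h2 : L X c (((T j * T i) b : B) : W) = X j ((T i b : B) : W) := hLT j (T i b)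
      rw [h1, h2, hTv, hTv, sub_eq_zero]
      exact LinearMap.congr_fun (S.comm i j).eq _
    exact sub_eq_zero.1 hsub
  have : Nontrivial B := Submodule.nontrivial_iff_ne_bot.2 hne
  obtain ⟨b, hb, p, hp⟩ := exists_common_eigenvector T hT
  refine ⟨p, (e.symm b : A), (e.symm b).2, ?_, ?_, ?_⟩
  · intro h0
    have : e.symm b = 0 := Subtype.ext h0
    exact hb ((LinearEquiv.map_eq_zero_iff e.symm).1 this)
  · intro j
    have := congrArg Subtype.val (hp j)
    rw [hTv] at this
    rw [this, hes]
    simp
  · rw [hes]
    intro h0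
    exact hb (Subtype.ext h0)

end Pool.Agent.CB
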