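import Mathlib
import Pool.Agent.CB.Abs

/-!
# Macaulay inverse systems for polynomial rings: the Gorenstein case
-/

set_option autoImplicit false

noncomputable section

namespace Pool.Agent.CB

open Module MvPolynomial

variable {K : Type*} [Field K] {N : ℕ}

/-- Action of a polynomial on functionals: `(act g ψ) f = ψ (g * f)`. -/
def act (g : MvPolynomial (Fin N) K) : Module.End K (MvPolynomial (Fin N) K →ₗ[K] K) :=
  (LinearMap.mulLeft K g).dualMap

@[simp] lemma act_apply (g : MvPolynomial (Fin N) K) (ψ : MvPolynomial (Fin N) K →ₗ[K] K)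
    (f : MvPolynomial (Fin N) K) : act g ψ f = ψ (g * f) := rfl

lemma act_mul (g g' : MvPolynomial (Fin N) K) (ψ : MvPolynomial (Fin N) K →ₗ[K] K) :
    act (g * g') ψ = act g' (act g ψ) := by
  ext1 f
  apply LinearMap.ext
  intro x
  simp only [LinearMap.comp_apply, act_apply, mul_assoc]

lemma act_comm (g g' : MvPolynomial (Fin N) K) (ψ : MvPolynomial (Fin N) K →ₗ[K] K) :
    act g (act g' ψ) = act g' (act g ψ) := by
  rw [← act_mul, ← act_mul, mul_comm]

lemma act_add (g g' : MvPolynomial (Fin N) K) (ψ : MvPolynomial (Fin N) K →ₗ[K] K) :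
    act (g + g') ψ = act g ψ + act g' ψ := by
  apply LinearMap.ext
  intro x
  simp [add_mul]

lemma act_smul (a : K) (g : MvPolynomial (Fin N) K) (ψ : MvPolynomial (Fin N) K →ₗ[K] K) :
    act (a • g) ψ = a • act g ψ := by
  apply LinearMap.ext
  intro x
  simp

/-- The map `g ↦ g · φ`. -/
def actφ (φ : MvPolynomial (Fin N) K →ₗ[K] K) :
    MvPolynomial (Fin N) K →ₗ[K] (MvPolynomial (Fin N) K →ₗ[K] K) where
  toFun g := act g φ
  map_add' g g' := act_add g g' φ
  map_smul' a g := act_smul a g φ

@[simp] lemma actφ_apply (φ : MvPolynomial (Fin N) K →ₗ[K] K) (g : MvPolynomial (Fin N) K) :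
    actφ φ g = act g φ := rfl

/-- The variables acting on functionals. -/
def XX (K : Type*) [Field K] (N : ℕ) :
    Fin N → Module.End K (MvPolynomial (Fin N) K →ₗ[K] K) := fun j => act (X j)

lemma L_XX (c : Fin N → K) : L (XX K N) c = act (∑ j, c j • (X j : MvPolynomial (Fin N) K)) := by
  apply LinearMap.ext
  intro ψ
  rw [L_apply]
  apply LinearMap.ext
  intro f
  simp [XX, LinearMap.sum_apply, Finset.sum_mul]

/-- Functionals of degree `i`. -/
def DD (K : Type*) [Field K] (N : ℕ) (i : ℕ) : Submodule K (MvPolynomial (Fin N) K →ₗ[K] K) where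
  carrier := {ψ | ∀ f m, f.IsHomogeneous m → m ≠ i → ψ f = 0}
  add_mem' := by
    intro a b ha hb f m hf hm
    simp [ha f m hf hm, hb f m hf hm]
  zero_mem' := by
    intro f m _ _
    simp
  smul_mem' := by
    intro c a ha f m hf hm
    simp [ha f m hf hm]

lemma mem_DD {i : ℕ} {ψ : MvPolynomial (Fin N) K →ₗ[K] K} :
    ψ ∈ DD K N i ↔ ∀ f m, f.IsHomogeneous m → m ≠ i → ψ f = 0 := Iff.rfl

lemma act_mem_DD {i s : ℕ} {g : MvPolynomial (Fin N) K} (hg : g.IsHomogeneous s)
    {ψ : MvPolynomial (Fin N) K →ₗ[K] K} (hψ : ψ ∈ DD K N (i + s)) : act g ψ ∈ DD K N i := by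
  intro f m hf hm
  rw [act_apply]
  exact hψ _ _ (hg.mul hf) (by omega)

lemma sysXX : Sys (XX K N) (DD K N) where
  comm := by
    intro i j
    apply LinearMap.ext
    intro ψ
    exact act_comm _ _ _
  lower := by
    intro i j w hw
    exact act_mem_DD (isHomogeneous_X K j) hw
  soc := by
    intro i w hw h0
    apply LinearMap.ext
    intro f
    rw [LinearMap.zero_apply]
    induction f using MvPolynomial.induction_on with
    | C a => exact hw _ 0 (isHomogeneous_C _ a) (by omega)
    | add p q hp hq => rw [map_add, hp, hq, add_zero]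
    | mul_X p j _ =>
      have := LinearMap.congr_fun (h0 j) p
      rw [mul_comm]
      simpa [XX] using this

/-- A functional of degree `i` vanishing on forms of degree `i` is zero. -/
lemma eq_zero_of_DD {i : ℕ} {ψ : MvPolynomial (Fin N) K →ₗ[K] K} (hψ : ψ ∈ DD K N i)
    (h : ∀ f, f.IsHomogeneous i → ψ f = 0) : ψ = 0 := by
  apply LinearMap.ext
  intro f
  rw [LinearMap.zero_apply, ← sum_homogeneousComponent f, map_sum]
  refine Finset.sum_eq_zero fun m _ => ?_
  by_cases hm : m = i
  · subst hm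
    exact h _ (homogeneousComponent_isHomogeneous _ _)
  · exact hψ _ m (homogeneousComponent_isHomogeneous _ _) hm

instance finH (s : ℕ) : FiniteDimensional K (homogeneousSubmodule (Fin N) K s) :=
  Module.Finite.iff_fg.2 (homogeneousSubmodule_fg _ K s)

/-- `P φ s = S_s · φ`. -/
def P (φ : MvPolynomial (Fin N) K →ₗ[K] K) (s : ℕ) : Submodule K (MvPolynomial (Fin N) K →ₗ[K] K) :=
  (homogeneousSubmodule (Fin N) K s).map (actφ φ)

instance finP (φ : MvPolynomial (Fin N) K →ₗ[K] K) (s : ℕ) : FiniteDimensional K (P φ s) := by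
  unfold P
  infer_instance

lemma mem_P {φ : MvPolynomial (Fin N) K →ₗ[K] K} {s : ℕ} {ψ : MvPolynomial (Fin N) K →ₗ[K] K} :
    ψ ∈ P φ s ↔ ∃ g, g.IsHomogeneous s ∧ act g φ = ψ := Iff.rfl

lemma P_le_DD {φ : MvPolynomial (Fin N) K →ₗ[K] K} {t s i : ℕ} (hφ : φ ∈ DD K N t)
    (h : i + s = t) : P φ s ≤ DD K N i := by
  rintro _ ⟨g, hg, rfl⟩
  exact act_mem_DD hg (by rw [h]; exact hφ)

lemma XX_P {φ : MvPolynomial (Fin N) K →ₗ[K] K} {s : ℕ} (j : Fin N)
    (w : MvPolynomial (Fin N) K →ₗ[K] K) (hw : w ∈ P φ s) : XX K N j w ∈ P φ (s + 1) := by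
  obtain ⟨g, hg, rfl⟩ := hw
  refine ⟨X j * g, ?_, ?_⟩
  · have := (isHomogeneous_X K j).mul hg
    rw [add_comm] at this
    exact this
  · rw [actφ_apply, actφ_apply, act_mul, act_comm]
    rfl

/-- The pairing `S_s × S_s' → K`. -/
def BB (φ : MvPolynomial (Fin N) K →ₗ[K] K) (s s' : ℕ) :
    homogeneousSubmodule (Fin N) K s →ₗ[K] homogeneousSubmodule (Fin N) K s' →ₗ[K] K :=
  ((LinearMap.mul K (MvPolynomial (Fin N) K)).compr₂ φ).domRestrict₁₂
    (homogeneousSubmodule (Fin N) K s) (homogeneousSubmodule (Fin N) K s')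

lemma BB_apply (φ : MvPolynomial (Fin N) K →ₗ[K] K) (s s' : ℕ)
    (g : homogeneousSubmodule (Fin N) K s) (f : homogeneousSubmodule (Fin N) K s') :
    BB φ s s' g f = φ (g.1 * f.1) := rfl

lemma BB_flip (φ : MvPolynomial (Fin N) K →ₗ[K] K) (s s' : ℕ) :
    (BB φ s s').flip = BB φ s' s := by
  apply LinearMap.ext
  intro g
  apply LinearMap.ext
  intro f
  rw [LinearMap.flip_apply, BB_apply, BB_apply, mul_comm]

lemma finrank_range_BB {φ : MvPolynomial (Fin N) K →ₗ[K] K} {t s s' : ℕ} (hφ : φ ∈ DD K N t)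
    (h : s + s' = t) : finrank K (LinearMap.range (BB φ s s')) = finrank K (P φ s) := by
  -- `P φ s` restricted to `S_s'`
  let res : P φ s →ₗ[K] Module.Dual K (homogeneousSubmodule (Fin N) K s') :=
    ((homogeneousSubmodule (Fin N) K s').subtype.dualMap).domRestrict (P φ s)
  have hres : ∀ (w : P φ s) f, res w f = w.1 f.1 := fun _ _ => rfl
  have hinj : Function.Injective res := by
    intro a b hab
    apply Subtype.ext
    have h0 : a.1 - b.1 = 0 := by
      refine eq_zero_of_DD ((DD K N s').sub_mem (P_le_DD (i := s') hφ (by omega) a.2)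
        (P_le_DD (i := s') hφ (by omega) b.2)) fun f hf => ?_
      have := LinearMap.congr_fun hab ⟨f, hf⟩
      rw [hres, hres] at this
      rw [LinearMap.sub_apply, this, sub_self]
    exact sub_eq_zero.1 h0
  have hrange : LinearMap.range (BB φ s s') = LinearMap.range res := by
    apply le_antisymm
    · rintro _ ⟨g, rfl⟩
      refine ⟨⟨act g.1 φ, ⟨g.1, g.2, rfl⟩⟩, ?_⟩
      apply LinearMap.ext
      intro f
      rw [hres, BB_apply, act_apply]
    · rintro _ ⟨⟨w, g, hg, rfl⟩, rfl⟩
      refine ⟨⟨g, hg⟩, ?_⟩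
      apply LinearMap.ext
      intro f
      exact (hres ⟨actφ φ g, ⟨g, hg, rfl⟩⟩ f).symm ▸ rfl
  rw [hrange]
  exact (LinearEquiv.ofInjective res hinj).finrank_eq.symm

lemma finrank_range_flip {V₁ V₂ : Type*} [AddCommGroup V₁] [Module K V₁] [AddCommGroup V₂]
    [Module K V₂] [FiniteDimensional K V₁] [FiniteDimensional K V₂] (B : V₁ →ₗ[K] V₂ →ₗ[K] K) :
    finrank K (LinearMap.range B.flip) = finrank K (LinearMap.range B) := by
  have h1 : (LinearMap.ker B).dualAnnihilator = LinearMap.range B.flip :=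
    LinearMap.dualAnnihilator_ker_eq_range_flip
  rw [← h1]
  have h2 := Subspace.finrank_add_finrank_dualAnnihilator_eq (LinearMap.ker B)
  have h3 := LinearMap.finrank_range_add_finrank_ker B
  refine Nat.add_left_cancel (n := finrank K (LinearMap.ker B)) ?_
  rw [h2, ← h3, add_comm]

/-- Gorenstein symmetry. -/
lemma finrank_P_symm {φ : MvPolynomial (Fin N) K →ₗ[K] K} {t s s' : ℕ} (hφ : φ ∈ DD K N t)
    (h : s + s' = t) : finrank K (P φ s) = finrank K (P φ s') := by
  rw [← finrank_range_BB hφ h, ← finrank_range_BB (s := s') (s' := s) hφ (by omega),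
    ← BB_flip φ s s', finrank_range_flip]

/-- Forms of degree `s` killing the pairing: dimension count. -/
lemma finrank_add_le {φ : MvPolynomial (Fin N) K →ₗ[K] K} {t s s' : ℕ} (hφ : φ ∈ DD K N t)
    (h : s + s' = t) (A : Submodule K (MvPolynomial (Fin N) K))
    (hA : A ≤ homogeneousSubmodule (Fin N) K s) (hA0 : ∀ a ∈ A, ∀ f, φ (a * f) = 0) :
    finrank K A + finrank K (P φ s) ≤ finrank K (homogeneousSubmodule (Fin N) K s) := by
  have h3 := LinearMap.finrank_range_add_finrank_ker (BB φ s s')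
  rw [finrank_range_BB hφ h] at h3
  have h4 : finrank K A ≤ finrank K (LinearMap.ker (BB φ s s')) := by
    let i : A →ₗ[K] LinearMap.ker (BB φ s s') :=
      LinearMap.codRestrict _ (Submodule.inclusion hA) (by
        intro a
        rw [LinearMap.mem_ker]
        apply LinearMap.ext
        intro f
        rw [BB_apply]
        exact hA0 a.1 a.2 f.1)
    refine LinearMap.finrank_le_finrank_of_injective (f := i) ?_
    intro a b hab
    have := congrArg (fun x : LinearMap.ker (BB φ s s') => (x.1.1 : MvPolynomial (Fin N) K)) hab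
    exact Subtype.ext this
  omega

lemma aeval_smul_const {R : Type*} [CommRing R] [Algebra K R] (p : Fin N → K) (y : R) {k : ℕ}
    {f : MvPolynomial (Fin N) K} (hf : f.IsHomogeneous k) :
    aeval (fun j => algebraMap K R (p j) * y) f = algebraMap K R (eval p f) * y ^ k := by
  rw [aeval_def, eval₂_eq', eval_eq', map_sum, Finset.sum_mul]
  refine Finset.sum_congr rfl fun m hm => ?_
  have hk : ∑ i, m i = k := by
    have := hf.degree_eq_sum_deg_support hm
    rw [this, Finset.sum_subset (Finset.subset_univ m.support)]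
    intro i _ hi
    simpa using hi
  simp only [mul_pow, Finset.prod_mul_distrib, map_mul, map_prod, map_pow]
  rw [Finset.prod_pow_eq_pow_sum, hk]
  ring

/-- If `X j ψ = p j • λ ψ` for all `j` then `f ψ = f(p) • λ^k ψ` for forms `f` of degree `k`. -/
lemma act_of_eigen {p : Fin N → K} {lam : MvPolynomial (Fin N) K}
    {ψ : MvPolynomial (Fin N) K →ₗ[K] K} (h : ∀ j, act (X j) ψ = p j • act lam ψ) {k : ℕ}
    {f : MvPolynomial (Fin N) K} (hf : f.IsHomogeneous k) :
    act f ψ = eval p f • act (lam ^ k) ψ := by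
  let A : Ideal (MvPolynomial (Fin N) K) :=
    { carrier := {g | act g ψ = 0}
      add_mem' := by
        intro a b ha hb
        simp only [Set.mem_ofPred_eq] at ha hb ⊢
        rw [act_add, ha, hb, add_zero]
      zero_mem' := by
        apply LinearMap.ext
        intro x
        simp
      smul_mem' := by
        intro c a ha
        simp only [Set.mem_ofPred_eq] at ha ⊢
        rw [smul_eq_mul, mul_comm, act_mul, ha, map_zero] }
  have hmem : ∀ g, g ∈ A ↔ act g ψ = 0 := fun _ => Iff.rfl
  have hX : ∀ j, (Ideal.Quotient.mk A) (X j) = algebraMap K _ (p j) * Ideal.Quotient.mk A lam := by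
    intro j
    have h1 : X j - C (p j) * lam ∈ A := by
      rw [hmem]
      have : (X j - C (p j) * lam : MvPolynomial (Fin N) K) = X j + (-(p j)) • lam := by
        rw [smul_eq_C_mul, map_neg]
        ring
      rw [this, act_add, act_smul, h, ← add_smul, add_neg_cancel, zero_smul]
    have h2 := Ideal.Quotient.eq.2 h1
    rw [h2, map_mul]
    rfl
  have h3 : Ideal.Quotient.mkₐ K A = aeval (fun j => algebraMap K (MvPolynomial (Fin N) K ⧸ A) (p j)
      * Ideal.Quotient.mk A lam) := by
    apply MvPolynomial.algHom_ext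
    intro j
    rw [aeval_X]
    exact hX j
  have h4 : Ideal.Quotient.mk A f = Ideal.Quotient.mk A (C (eval p f) * lam ^ k) := by
    have := AlgHom.congr_fun h3 f
    rw [aeval_smul_const p _ hf] at this
    rw [map_mul, map_pow]
    exact this
  have h5 := Ideal.Quotient.eq.1 h4
  rw [hmem] at h5
  have h6 : act f ψ = act (f - C (eval p f) * lam ^ k) ψ + act (eval p f • lam ^ k) ψ := by
    rw [← act_add, smul_eq_C_mul, sub_add_cancel]
  rw [h6, h5, zero_add, act_smul]

/-- **Base point from flatness**. -/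
lemma flat_base [IsAlgClosed K] {φ : MvPolynomial (Fin N) K →ₗ[K] K} {t i s : ℕ}
    (hφ : φ ∈ DD K N t) (hs : i + (s + 1) = t) {c : Fin N → K}
    (hc : Good (XX K N) c (P φ (s + 1)))
    (hdim : finrank K (P φ s) = finrank K (P φ (s + 1))) (hne : P φ (s + 1) ≠ ⊥) :
    ∃ p : Fin N → K, p ≠ 0 ∧ ∀ (f : MvPolynomial (Fin N) K) (k : ℕ), f.IsHomogeneous k →
      k ≤ i + 1 → act f φ = 0 → eval p f = 0 := by
  obtain ⟨p, ψ, hψ, hψ0, hX, hL⟩ := flat (sysXX (K := K) (N := N)) i
    (A := P φ s) (B := P φ (s + 1)) (P_le_DD hφ (by omega)) (fun j w hw => XX_P j w hw) hc hdim hne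
  set lam : MvPolynomial (Fin N) K := ∑ j, c j • (X j : MvPolynomial (Fin N) K) with hlam
  rw [L_XX] at hL
  have hX' : ∀ j, act (X j) ψ = p j • act lam ψ := by
    intro j
    have := hX j
    rw [L_XX] at this
    exact this
  have hψD : ψ ∈ DD K N (i + 1) := P_le_DD hφ (by omega) hψ
  obtain ⟨f0, hf0, hne0⟩ : ∃ f0 : MvPolynomial (Fin N) K, f0.IsHomogeneous (i + 1) ∧ ψ f0 ≠ 0 := by
    by_contra hcon
    push Not at hcon
    exact hψ0 (eq_zero_of_DD hψD hcon)
  have h1 : ψ (lam ^ (i + 1)) ≠ 0 := by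
    intro h0
    have := LinearMap.congr_fun (act_of_eigen hX' hf0) 1
    simp only [act_apply, LinearMap.smul_apply, mul_one, h0, smul_zero] at this
    exact hne0 this
  refine ⟨p, ?_, ?_⟩
  · rintro rfl
    apply h1
    have h2 : act lam ψ = 0 := by
      have : act lam ψ = ∑ j, c j • act (X j) ψ := by
        have := LinearMap.congr_fun (L_XX (K := K) (N := N) c) ψ
        rw [L_apply] at this
        rw [hlam, ← this]
        rfl
      rw [this]
      refine Finset.sum_eq_zero fun j _ => ?_
      rw [hX' j]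
      simp
    have := LinearMap.congr_fun h2 (lam ^ i)
    rw [act_apply, ← pow_succ'] at this
    simpa using this
  · intro f k hf hk hfφ
    obtain ⟨g, hg, rfl⟩ := hψ
    have h3 : act f (actφ φ g) = 0 := by
      rw [actφ_apply, act_comm, hfφ, map_zero]
    have h4 := act_of_eigen hX' hf
    rw [h3] at h4
    have := LinearMap.congr_fun h4 (lam ^ (i + 1 - k))
    rw [LinearMap.zero_apply, LinearMap.smul_apply, act_apply, ← pow_add,
      Nat.add_sub_cancel' hk, smul_eq_mul] at this
    rcases mul_eq_zero.1 this.symm with h5 | h5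
    · exact h5
    · exact absurd h5 h1

/-- The forms of degree at most `δ` annihilating `φ` have no common zero in projective space. -/
def BaseFree (φ : MvPolynomial (Fin N) K →ₗ[K] K) (δ : ℕ) : Prop :=
  ∀ p : Fin N → K, p ≠ 0 → ∃ (f : MvPolynomial (Fin N) K) (k : ℕ), f.IsHomogeneous k ∧ k ≤ δ ∧
    act f φ = 0 ∧ eval p f ≠ 0

/-- Lower bound for the Hilbert function of a Gorenstein quotient of socle degree `t` whose ideal is
base point free in degrees `≤ δ`. -/
theorem gor_bound [IsAlgClosed K] {φ : MvPolynomial (Fin N) K →ₗ[K] K} {t δ e : ℕ}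
    (hφ : φ ∈ DD K N t) (hφ0 : φ ≠ 0) (hb : BaseFree φ δ) (he : e + δ ≤ t + 1) (j : ℕ)
    (hj : 2 * j ≤ t) : min (j + 1) (e + 1) ≤ finrank K (P φ j) := by
  have hinf : Infinite K := IsAlgClosed.instInfinite
  by_contra hcon
  push Not at hcon
  have hex : ∃ i, finrank K (P φ i) ≤ i := ⟨j, by omega⟩
  classical
  let i0 := Nat.find hex
  have hi0 : finrank K (P φ i0) ≤ i0 := Nat.find_spec hex
  have hmin : ∀ i < i0, i + 1 ≤ finrank K (P φ i) := by
    intro i hi
    have := Nat.find_min hex hi
    omega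
  have hi0j : i0 ≤ j := Nat.find_min' hex (by omega)
  have hP0 : 1 ≤ finrank K (P φ 0) := by
    rw [Submodule.one_le_finrank_iff]
    intro hb
    have : act 1 φ ∈ P φ 0 := ⟨1, isHomogeneous_one _ _, rfl⟩
    rw [hb] at this
    apply hφ0
    have h1 : act 1 φ = 0 := by simpa using this
    apply LinearMap.ext
    intro f
    have := LinearMap.congr_fun h1 f
    simpa using this
  have hi0pos : 1 ≤ i0 := by
    by_contra h0
    have : i0 = 0 := by omega
    rw [this] at hi0
    omega
  -- a good linear form in degree `i0`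
  have hsymm : ∀ s s', s + s' = t → finrank K (P φ s) = finrank K (P φ s') :=
    fun s s' h => finrank_P_symm hφ h
  obtain ⟨c, hc⟩ := exists_good_of_finrank_le (sysXX (K := K) (N := N)) i0 (P φ (t - i0))
    (P_le_DD hφ (by omega)) (by rw [hsymm (t - i0) i0 (by omega)]; exact hi0)
  -- good in all higher degrees
  have hgood : ∀ i, i0 ≤ i → i ≤ t → Good (XX K N) c (P φ (t - i)) := by
    intro i hi
    induction i, hi using Nat.le_induction with
    | base => exact fun _ => hc
    | succ i hi ih =>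
      intro hit
      refine good_succ (sysXX (K := K) (N := N)) i (P_le_DD hφ (by omega)) ?_ (ih (by omega))
      intro k w hw
      have := XX_P k w hw
      rwa [show t - (i + 1) + 1 = t - i by omega] at this
  have hmono : ∀ i, i0 ≤ i → i + 1 ≤ t →
      finrank K (P φ (t - (i + 1))) ≤ finrank K (P φ (t - i)) := by
    intro i hi hit
    refine finrank_le_of_good (c := c) (fun k w hw => ?_) (hgood (i + 1) (by omega) hit)
    have := XX_P k w hw
    rwa [show t - (i + 1) + 1 = t - i by omega] at this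
  have hmono' : ∀ i, i0 ≤ i → ∀ i', i ≤ i' → i' ≤ t → finrank K (P φ i') ≤ finrank K (P φ i) := by
    intro i hi i' hi'
    induction i', hi' using Nat.le_induction with
    | base => exact fun _ => le_rfl
    | succ i' hi' ih =>
      intro hit
      have h1 := hmono i' (by omega) hit
      rw [hsymm (t - (i' + 1)) (i' + 1) (by omega), hsymm (t - i') i' (by omega)] at h1
      exact h1.trans (ih (by omega))
  have h1 : finrank K (P φ (t - i0 + 1)) = finrank K (P φ (i0 - 1)) := hsymm _ _ (by omega)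
  have h2 : finrank K (P φ (t - i0)) = finrank K (P φ i0) := hsymm _ _ (by omega)
  have h3 := hmin (i0 - 1) (by omega)
  have h4 : finrank K (P φ (t - i0 + 1)) ≤ finrank K (P φ (t - i0)) :=
    hmono' (t - i0) (by omega) _ (by omega) (by omega)
  have h5 : finrank K (P φ (t - i0)) ≤ finrank K (P φ j) := hmono' j hi0j _ (by omega) (by omega)
  have hi0e : i0 ≤ e := by omega
  -- flatness at degree `t - i0`
  have h6 : finrank K (P φ (i0 - 1)) = finrank K (P φ (i0 - 1 + 1)) := by
    rw [show i0 - 1 + 1 = i0 by omega]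
    omega
  have hgood' : Good (XX K N) c (P φ (i0 - 1 + 1)) := by
    have := hgood (t - i0) (by omega) (by omega)
    rwa [show t - (t - i0) = i0 - 1 + 1 by omega] at this
  have hne : P φ (i0 - 1 + 1) ≠ ⊥ := by
    rw [← Submodule.one_le_finrank_iff]
    omega
  obtain ⟨p, hp0, hp⟩ := flat_base (i := t - i0) (s := i0 - 1) hφ (by omega) hgood' h6 hne
  obtain ⟨f, k, hf, hk, hfφ, hpf⟩ := hb p hp0
  exact hpf (hp f k hf (by omega) hfφ)

end Pool.Agent.CB
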