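import Mathlib
import Pool.Agent.CB.Inv

/-!
# From subschemes of complete intersections to functionals
-/

set_option autoImplicit false

noncomputable section

namespace Pool.Agent.CB

open Module MvPolynomial

variable {K : Type*} [Field K] {N : ℕ}

/-- The linear form with coefficient vector `a`. -/
def lf (a : Fin N → K) : MvPolynomial (Fin N) K := ∑ j, a j • (X j : MvPolynomial (Fin N) K)

lemma lf_hom (a : Fin N → K) : (lf a).IsHomogeneous 1 := by
  refine IsHomogeneous.sum _ _ _ fun j _ => ?_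
  rw [smul_eq_C_mul]
  exact (isHomogeneous_X K j).C_mul (a j)

lemma eval_lf (a x : Fin N → K) : eval x (lf a) = ∑ j, a j * x j := by
  simp [lf, smul_eval]

/-- A linear form avoiding finitely many nonzero vectors. -/
lemma exists_lf [Infinite K] (Z : Set (Fin N → K)) (hZ : Z.Finite) (h0 : ∀ x ∈ Z, x ≠ 0) :
    ∃ a : Fin N → K, ∀ x ∈ Z, eval x (lf a) ≠ 0 := by
  classical
  let U : (Fin N → K) → Submodule K (Fin N → K) := fun x =>
    LinearMap.ker (∑ j, x j • (LinearMap.proj j : (Fin N → K) →ₗ[K] K))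
  have hU : ∀ x a, a ∈ U x ↔ eval x (lf a) = 0 := by
    intro x a
    rw [eval_lf, LinearMap.mem_ker]
    simp [mul_comm]
  have htop : ∀ x ∈ Z, U x ≠ ⊤ := by
    intro x hx ht
    apply h0 x hx
    funext j
    have : (Pi.single j 1 : Fin N → K) ∈ U x := by rw [ht]; trivial
    rw [hU, eval_lf] at this
    simpa [Pi.single_apply] using this
  have h1 : (⊤ : Submodule K (Fin N → K)) ∉ hZ.toFinset.image U := by
    intro h
    obtain ⟨x, hx, hxt⟩ := Finset.mem_image.1 h
    exact htop x (hZ.mem_toFinset.1 hx) hxt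
  have h2 := Subspace.biUnion_ne_univ_of_top_notMem h1
  obtain ⟨a, ha⟩ := (Set.ne_univ_iff_exists_notMem _).1 h2
  refine ⟨a, fun x hx hxa => ha ?_⟩
  have : a ∈ U x := (hU x a).2 hxa
  exact Set.mem_biUnion (Finset.mem_coe.2 (Finset.mem_image_of_mem U (hZ.mem_toFinset.2 hx))) this

lemma aeval_eval_eq (x : Fin N → K) (g : MvPolynomial (Fin N) K) : aeval x g = eval x g := by
  rw [← coe_aeval_eq_eval]
  rfl

lemma eval_smul_hom {f : MvPolynomial (Fin N) K} {k : ℕ} (hf : f.IsHomogeneous k) (b : K)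
    (x : Fin N → K) : eval (fun j => b * x j) f = b ^ k * eval x f := by
  have := aeval_smul_const (R := K) x b hf
  simp only [Algebra.algebraMap_self, RingHom.id_apply] at this
  rw [mul_comm (b ^ k), ← this, aeval_eval_eq]
  congr 2
  funext j
  rw [mul_comm]

/-- Part of degree `n` of an ideal. -/
def Jn (J : Ideal (MvPolynomial (Fin N) K)) (n : ℕ) : Submodule K (MvPolynomial (Fin N) K) :=
  Submodule.restrictScalars K J ⊓ homogeneousSubmodule (Fin N) K n

lemma Jn_le (J : Ideal (MvPolynomial (Fin N) K)) (n : ℕ) :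
    Jn J n ≤ homogeneousSubmodule (Fin N) K n := inf_le_right

instance finJn (J : Ideal (MvPolynomial (Fin N) K)) (n : ℕ) : FiniteDimensional K (Jn J n) :=
  Submodule.finiteDimensional_of_le (Jn_le J n)

lemma finrank_Jn_le (J : Ideal (MvPolynomial (Fin N) K)) (n : ℕ) :
    finrank K (Jn J n) ≤ finrank K (homogeneousSubmodule (Fin N) K n) :=
  Submodule.finrank_mono (Jn_le J n)

/-- `A' J ℓ n = J_{n+1} + ℓ S_n`. -/
def A' (J : Ideal (MvPolynomial (Fin N) K)) (l : MvPolynomial (Fin N) K) (n : ℕ) :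
    Submodule K (MvPolynomial (Fin N) K) :=
  Jn J (n + 1) ⊔ (homogeneousSubmodule (Fin N) K n).map (LinearMap.mulLeft K l)

lemma A'_le (J : Ideal (MvPolynomial (Fin N) K)) {l : MvPolynomial (Fin N) K}
    (hl : l.IsHomogeneous 1) (n : ℕ) : A' J l n ≤ homogeneousSubmodule (Fin N) K (n + 1) := by
  refine sup_le (Jn_le _ _) ?_
  rintro _ ⟨g, hg, rfl⟩
  have := hl.mul hg
  rw [add_comm] at this
  exact this

lemma finrank_map_mul {l : MvPolynomial (Fin N) K} (hl : l ≠ 0)
    (E : Submodule K (MvPolynomial (Fin N) K)) :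
    finrank K (E.map (LinearMap.mulLeft K l)) = finrank K E := by
  have hinj : Function.Injective (LinearMap.mulLeft K l) := by
    intro a b hab
    exact mul_left_cancel₀ hl hab
  exact (LinearEquiv.finrank_eq (Submodule.equivMapOfInjective _ hinj E)).symm

lemma finrank_A' (J : Ideal (MvPolynomial (Fin N) K)) {l : MvPolynomial (Fin N) K}
    (hl : l.IsHomogeneous 1) (hl0 : l ≠ 0) (hreg : ∀ f, l * f ∈ J → f ∈ J) (n : ℕ) :
    finrank K (A' J l n) + finrank K (Jn J n) =
      finrank K (Jn J (n + 1)) + finrank K (homogeneousSubmodule (Fin N) K n) := by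
  have h1 := Submodule.finrank_sup_add_finrank_inf_eq (Jn J (n + 1))
    ((homogeneousSubmodule (Fin N) K n).map (LinearMap.mulLeft K l))
  have h2 : (Jn J (n + 1) ⊓ (homogeneousSubmodule (Fin N) K n).map (LinearMap.mulLeft K l) :
      Submodule K (MvPolynomial (Fin N) K)) = (Jn J n).map (LinearMap.mulLeft K l) := by
    apply le_antisymm
    · rintro _ ⟨⟨hJ, -⟩, g, hg, rfl⟩
      exact ⟨g, ⟨hreg g hJ, hg⟩, rfl⟩
    · rintro _ ⟨g, ⟨hgJ, hg⟩, rfl⟩
      refine ⟨⟨J.mul_mem_left l hgJ, ?_⟩, g, hg, rfl⟩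
      have := hl.mul hg
      rw [add_comm] at this
      exact this
  rw [h2, finrank_map_mul hl0, finrank_map_mul hl0] at h1
  exact h1

/-- If `S_{n+1} = J_{n+1} + ℓ S_n` then the same holds one degree higher. -/
lemma A'_succ (J : Ideal (MvPolynomial (Fin N) K)) {l : MvPolynomial (Fin N) K} (n : ℕ)
    (h : homogeneousSubmodule (Fin N) K (n + 1) ≤ A' J l n) :
    homogeneousSubmodule (Fin N) K (n + 2) ≤ A' J l (n + 1) := by
  rw [← homogeneousSubmodule_one_pow (σ := Fin N) (R := K) (n := n + 2), pow_succ',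
    homogeneousSubmodule_one_pow]
  rw [Submodule.mul_le]
  intro u hu v hv
  obtain ⟨a, ha, b, hb, rfl⟩ := Submodule.mem_sup.1 (h hv)
  obtain ⟨g, hg, rfl⟩ := hb
  rw [mul_add]
  refine Submodule.add_mem_sup ?_ ?_
  · refine ⟨J.mul_mem_left u ha.1, ?_⟩
    have := (show u.IsHomogeneous 1 from hu).mul (show a.IsHomogeneous (n + 1) from ha.2)
    rw [show 1 + (n + 1) = n + 1 + 1 by ring] at this
    exact this
  · refine ⟨u * g, ?_, ?_⟩
    · have := (show u.IsHomogeneous 1 from hu).mul (show g.IsHomogeneous n from hg)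
      rw [add_comm] at this
      exact this
    · simp only [LinearMap.mulLeft_apply]
      ring

lemma homComp_mul_linear {l : MvPolynomial (Fin N) K} (hl : l.IsHomogeneous 1) (n : ℕ)
    (g : MvPolynomial (Fin N) K) :
    homogeneousComponent (n + 1) (l * g) = l * homogeneousComponent n g := by
  conv_lhs => rw [← sum_homogeneousComponent g, Finset.mul_sum, map_sum]
  by_cases hn : n ∈ Finset.range (g.totalDegree + 1)
  · rw [Finset.sum_eq_single_of_mem n hn]
    · have := hl.mul (homogeneousComponent_isHomogeneous n g)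
      rw [add_comm] at this
      exact homogeneousComponent_eq_self this
    · intro m _ hm
      have := hl.mul (homogeneousComponent_isHomogeneous m g)
      rw [homogeneousComponent_of_mem ((mem_homogeneousSubmodule _ _).2 this), if_neg (by omega)]
  · have h0 : homogeneousComponent n g = 0 := by
      apply homogeneousComponent_eq_zero
      simp only [Finset.mem_range, not_lt] at hn
      omega
    rw [h0, mul_zero]
    refine Finset.sum_eq_zero fun m hm => ?_
    have := hl.mul (homogeneousComponent_isHomogeneous m g)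
    rw [homogeneousComponent_of_mem ((mem_homogeneousSubmodule _ _).2 this), if_neg ?_]
    rintro h1
    have : m = n := by omega
    subst this
    exact hn hm

/-- Existence of a functional of degree `n+1` killing `J` and `ℓ`. -/
lemma exists_functional (J : Ideal (MvPolynomial (Fin N) K))
    (hJ : ∀ f ∈ J, ∀ n : ℕ, homogeneousComponent n f ∈ J)
    {l : MvPolynomial (Fin N) K} (hl : l.IsHomogeneous 1) (n : ℕ)
    (h : ¬ homogeneousSubmodule (Fin N) K (n + 1) ≤ A' J l n) :
    ∃ φ : MvPolynomial (Fin N) K →ₗ[K] K, φ ∈ DD K N (n + 1) ∧ φ ≠ 0 ∧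
      (∀ f ∈ J, φ f = 0) ∧ (∀ f, φ (l * f) = 0) := by
  obtain ⟨f0, hf0, hf0'⟩ := Set.not_subset.1 h
  obtain ⟨θ, hθ0, hθ⟩ := Submodule.exists_le_ker_of_notMem hf0'
  refine ⟨θ ∘ₗ homogeneousComponent (n + 1), ?_, ?_, ?_, ?_⟩
  · intro f m hf hm
    rw [LinearMap.comp_apply, homogeneousComponent_of_mem ((mem_homogeneousSubmodule _ _).2 hf),
      if_neg (by omega), map_zero]
  · intro h0
    apply hθ0
    have := LinearMap.congr_fun h0 f0
    rwa [LinearMap.comp_apply, homogeneousComponent_eq_self hf0] at this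
  · intro f hf
    rw [LinearMap.comp_apply]
    have : homogeneousComponent (n + 1) f ∈ A' J l n :=
      Submodule.mem_sup_left ⟨hJ f hf (n + 1), homogeneousComponent_isHomogeneous _ _⟩
    exact LinearMap.mem_ker.1 (hθ this)
  · intro f
    rw [LinearMap.comp_apply, homComp_mul_linear hl]
    have : l * homogeneousComponent n f ∈ A' J l n :=
      Submodule.mem_sup_right ⟨_, homogeneousComponent_isHomogeneous _ _, rfl⟩
    exact LinearMap.mem_ker.1 (hθ this)

/-- A linear form without zeros on `V(J) ⊂ ℙ` is a nonzerodivisor modulo a saturated `J`. -/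
lemma regular_of_no_zero [IsAlgClosed K] (J : Ideal (MvPolynomial (Fin N) K))
    (hsat : ∀ f : MvPolynomial (Fin N) K,
        (∃ n : ℕ, ∀ i : Fin N, MvPolynomial.X i ^ n * f ∈ J) → f ∈ J)
    (l : MvPolynomial (Fin N) K)
    (hz : ∀ x : Fin N → K, (∀ f ∈ J, eval x f = 0) → eval x l = 0 → x = 0) :
    ∀ f, l * f ∈ J → f ∈ J := by
  intro f hf
  have h1 : ∀ i : Fin N, (X i : MvPolynomial (Fin N) K) ∈ (J ⊔ Ideal.span {l}).radical := by
    intro i
    rw [← MvPolynomial.vanishingIdeal_zeroLocus_eq_radical (K := K)]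
    intro x hx
    have hx' : ∀ g ∈ (J ⊔ Ideal.span {l} : Ideal _), aeval x g = 0 := hx
    have hx0 : x = 0 := by
      apply hz
      · intro g hg
        have := hx' g (Ideal.mem_sup_left hg)
        rwa [aeval_eval_eq] at this
      · have := hx' l (Ideal.mem_sup_right (Ideal.mem_span_singleton_self l))
        rwa [aeval_eval_eq] at this
    simp [hx0]
  choose n hn using h1
  apply hsat
  refine ⟨Finset.univ.sup n, fun i => ?_⟩
  have h2 : (X i : MvPolynomial (Fin N) K) ^ n i * f ∈ J := by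
    obtain ⟨a, ha, b, hb, hab⟩ := Submodule.mem_sup.1 (hn i)
    obtain ⟨c, rfl⟩ := Ideal.mem_span_singleton'.1 hb
    rw [← hab, add_mul]
    refine J.add_mem (J.mul_mem_right _ ha) ?_
    rw [mul_assoc]
    exact J.mul_mem_left _ hf
  have h3 : n i ≤ Finset.univ.sup n := Finset.le_sup (Finset.mem_univ i)
  rw [← Nat.sub_add_cancel h3, pow_add, mul_assoc]
  exact J.mul_mem_left _ h2

/-- Counting: lower bound of the degree by the Hilbert function of a Gorenstein quotient. -/
lemma sum_le_h (J : Ideal (MvPolynomial (Fin N) K)) {l : MvPolynomial (Fin N) K}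
    (hl : l.IsHomogeneous 1) (hl0 : l ≠ 0) (hreg : ∀ f, l * f ∈ J → f ∈ J)
    {φ : MvPolynomial (Fin N) K →ₗ[K] K} {t : ℕ} (hφ : φ ∈ DD K N t)
    (hφJ : ∀ f ∈ J, φ f = 0) (hφl : ∀ f, φ (l * f) = 0) (n : ℕ) (hn : n ≤ t) :
    ∑ s ∈ Finset.range (n + 1), finrank K (P φ s) + finrank K (Jn J n) ≤
      finrank K (homogeneousSubmodule (Fin N) K n) := by
  induction n with
  | zero =>
    have := finrank_add_le (s := 0) (s' := t) hφ (by omega) (Jn J 0) (Jn_le J 0)
      (fun a ha f => hφJ _ (J.mul_mem_right f ha.1))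
    simp
    omega
  | succ n ih =>
    have h1 := ih (by omega)
    have h2 := finrank_add_le (s := n + 1) (s' := t - (n + 1)) hφ (by omega) (A' J l n)
      (A'_le J hl n) (by
        intro a ha f
        obtain ⟨b, hb, c, ⟨g, hg, rfl⟩, rfl⟩ := Submodule.mem_sup.1 ha
        rw [add_mul, map_add, hφJ _ (J.mul_mem_right f hb.1), zero_add, LinearMap.mulLeft_apply,
          mul_assoc]
        exact hφl _)
    have h3 := finrank_A' J hl hl0 hreg n
    rw [Finset.sum_range_succ]
    omega

end Pool.Agent.CB
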