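import Mathlib
import Pool.Agent.CB.Geo

/-!
# Homogeneous ideals, colon ideals and Hilbert functions
-/

set_option autoImplicit false
set_option linter.all false

noncomputable section

namespace Pool.Agent.CB

open Module MvPolynomial

variable {K : Type*} [Field K] {N : ℕ}

/-! ### homogeneous components of products -/

lemma homComp_mul {f : MvPolynomial (Fin N) K} {d : ℕ} (hf : f.IsHomogeneous d) (n : ℕ)
    (g : MvPolynomial (Fin N) K) :
    homogeneousComponent (n + d) (f * g) = f * homogeneousComponent n g := by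
  conv_lhs => rw [← sum_homogeneousComponent g, Finset.mul_sum, map_sum]
  by_cases hn : n ∈ Finset.range (g.totalDegree + 1)
  · rw [Finset.sum_eq_single_of_mem n hn]
    · have := hf.mul (homogeneousComponent_isHomogeneous n g)
      rw [add_comm] at this
      exact homogeneousComponent_eq_self this
    · intro m _ hm
      have := hf.mul (homogeneousComponent_isHomogeneous m g)
      rw [homogeneousComponent_of_mem ((mem_homogeneousSubmodule _ _).2 this), if_neg (by omega)]
  · have h0 : homogeneousComponent n g = 0 := by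
      apply homogeneousComponent_eq_zero
      simp only [Finset.mem_range, not_lt] at hn
      omega
    rw [h0, mul_zero]
    refine Finset.sum_eq_zero fun m hm => ?_
    have := hf.mul (homogeneousComponent_isHomogeneous m g)
    rw [homogeneousComponent_of_mem ((mem_homogeneousSubmodule _ _).2 this), if_neg ?_]
    rintro h1
    have : m = n := by omega
    subst this
    exact hn hm

lemma homComp_mul_lt {f : MvPolynomial (Fin N) K} {d : ℕ} (hf : f.IsHomogeneous d) {n : ℕ}
    (hn : n < d) (g : MvPolynomial (Fin N) K) : homogeneousComponent n (f * g) = 0 := by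
  conv_lhs => rw [← sum_homogeneousComponent g, Finset.mul_sum, map_sum]
  refine Finset.sum_eq_zero fun m hm => ?_
  have := hf.mul (homogeneousComponent_isHomogeneous m g)
  rw [homogeneousComponent_of_mem ((mem_homogeneousSubmodule _ _).2 this), if_neg (by omega)]

/-! ### homogeneous ideals -/

/-- homogeneous ideal -/
def HI (I : Ideal (MvPolynomial (Fin N) K)) : Prop := ∀ f ∈ I, ∀ n, homogeneousComponent n f ∈ I

lemma HI_bot : HI (⊥ : Ideal (MvPolynomial (Fin N) K)) := by
  intro f hf n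
  rw [Ideal.mem_bot] at hf
  rw [hf, map_zero]
  exact Ideal.zero_mem _

lemma HI_sup {I I' : Ideal (MvPolynomial (Fin N) K)} (h : HI I) (h' : HI I') : HI (I ⊔ I') := by
  intro f hf n
  obtain ⟨a, ha, b, hb, rfl⟩ := Submodule.mem_sup.1 hf
  rw [map_add]
  exact Submodule.add_mem_sup (h a ha n) (h' b hb n)

lemma HI_span {f : MvPolynomial (Fin N) K} {d : ℕ} (hf : f.IsHomogeneous d) :
    HI (Ideal.span {f}) := by
  intro g hg n
  obtain ⟨u, rfl⟩ := Ideal.mem_span_singleton'.1 hg
  rw [mul_comm]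
  by_cases h : d ≤ n
  · obtain ⟨m, rfl⟩ := Nat.exists_eq_add_of_le' h
    rw [homComp_mul hf]
    exact Ideal.mul_mem_right _ _ (Ideal.mem_span_singleton_self f)
  · rw [homComp_mul_lt hf (by omega)]
    exact Ideal.zero_mem _

/-- colon ideal -/
def col (I : Ideal (MvPolynomial (Fin N) K)) (f : MvPolynomial (Fin N) K) :
    Ideal (MvPolynomial (Fin N) K) where
  carrier := {u | f * u ∈ I}
  add_mem' := by
    intro a b ha hb
    simp only [Set.mem_setOf_eq, mul_add] at *
    exact I.add_mem ha hb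
  zero_mem' := by simp
  smul_mem' := by
    intro c x hx
    simp only [Set.mem_setOf_eq, smul_eq_mul] at *
    rw [mul_left_comm]
    exact I.mul_mem_left _ hx

lemma mem_col {I : Ideal (MvPolynomial (Fin N) K)} {f u : MvPolynomial (Fin N) K} :
    u ∈ col I f ↔ f * u ∈ I := Iff.rfl

lemma le_col (I : Ideal (MvPolynomial (Fin N) K)) (f : MvPolynomial (Fin N) K) : I ≤ col I f :=
  fun _ hu => I.mul_mem_left _ hu

lemma HI_col {I : Ideal (MvPolynomial (Fin N) K)} (h : HI I) {f : MvPolynomial (Fin N) K} {d : ℕ}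
    (hf : f.IsHomogeneous d) : HI (col I f) := by
  intro u hu n
  rw [mem_col, ← homComp_mul hf]
  exact h _ hu _

/-- an element of `I + (f)` in terms of homogeneous elements -/
lemma mem_sup_span {I : Ideal (MvPolynomial (Fin N) K)} (h : HI I) {f : MvPolynomial (Fin N) K}
    {d : ℕ} (hf : f.IsHomogeneous d) {x : MvPolynomial (Fin N) K} {j : ℕ}
    (hx : x.IsHomogeneous (j + d)) (hxI : x ∈ I ⊔ Ideal.span {f}) :
    ∃ a ∈ I, ∃ u : MvPolynomial (Fin N) K, u.IsHomogeneous j ∧ x = a + f * u := by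
  obtain ⟨a, ha, b, hb, rfl⟩ := Submodule.mem_sup.1 hxI
  obtain ⟨u, rfl⟩ := Ideal.mem_span_singleton'.1 hb
  refine ⟨homogeneousComponent (j + d) a, h a ha _, homogeneousComponent j u,
    homogeneousComponent_isHomogeneous _ _, ?_⟩
  rw [← homogeneousComponent_eq_self hx, map_add, mul_comm u f, homComp_mul hf]

lemma mem_of_mem_sup_lt {I : Ideal (MvPolynomial (Fin N) K)} (h : HI I)
    {f : MvPolynomial (Fin N) K} {d : ℕ} (hf : f.IsHomogeneous d) {x : MvPolynomial (Fin N) K}
    {j : ℕ} (hj : j < d) (hx : x.IsHomogeneous j) (hxI : x ∈ I ⊔ Ideal.span {f}) : x ∈ I := by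
  obtain ⟨a, ha, b, hb, rfl⟩ := Submodule.mem_sup.1 hxI
  obtain ⟨u, rfl⟩ := Ideal.mem_span_singleton'.1 hb
  rw [← homogeneousComponent_eq_self hx, map_add, mul_comm u f, homComp_mul_lt hf hj, add_zero]
  exact h a ha _

lemma mem_of_comps {I : Ideal (MvPolynomial (Fin N) K)} {x : MvPolynomial (Fin N) K}
    (h : ∀ n, homogeneousComponent n x ∈ I) : x ∈ I := by
  rw [← sum_homogeneousComponent x]
  exact I.sum_mem fun m _ => h m

/-! ### Hilbert functions -/

lemma mem_Jn {I : Ideal (MvPolynomial (Fin N) K)} {n : ℕ} {x : MvPolynomial (Fin N) K} :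
    x ∈ Jn I n ↔ x ∈ I ∧ x.IsHomogeneous n := Iff.rfl

/-- the Hilbert function of `S / I` -/
def hd (I : Ideal (MvPolynomial (Fin N) K)) (j : ℕ) : ℕ :=
  finrank K (homogeneousSubmodule (Fin N) K j) - finrank K (Jn I j)

lemma hd_add (I : Ideal (MvPolynomial (Fin N) K)) (j : ℕ) :
    hd I j + finrank K (Jn I j) = finrank K (homogeneousSubmodule (Fin N) K j) :=
  Nat.sub_add_cancel (finrank_Jn_le I j)

lemma Jn_mono {I I' : Ideal (MvPolynomial (Fin N) K)} (h : I ≤ I') (j : ℕ) : Jn I j ≤ Jn I' j :=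
  fun _ hx => ⟨h hx.1, hx.2⟩

lemma hd_mono {I I' : Ideal (MvPolynomial (Fin N) K)} (h : I ≤ I') (j : ℕ) : hd I' j ≤ hd I j := by
  have := Submodule.finrank_mono (Jn_mono h j)
  unfold hd
  omega

lemma hd_eq_zero_iff {I : Ideal (MvPolynomial (Fin N) K)} {j : ℕ} :
    hd I j = 0 ↔ ∀ x : MvPolynomial (Fin N) K, x.IsHomogeneous j → x ∈ I := by
  constructor
  · intro h x hx
    have h1 := hd_add I j
    rw [h, zero_add] at h1
    have h2 := Submodule.eq_of_le_of_finrank_eq (Jn_le I j) h1
    have h3 : x ∈ Jn I j := by rw [h2]; exact hx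
    exact h3.1
  · intro h
    have : Jn I j = homogeneousSubmodule (Fin N) K j :=
      le_antisymm (Jn_le I j) fun x hx => ⟨h x hx, hx⟩
    unfold hd
    rw [this, Nat.sub_self]

/-- rank-nullity for a submodule -/
lemma finrank_map_add_inf_ker {V W : Type*} [AddCommGroup V] [Module K V] [AddCommGroup W]
    [Module K W] (q : V →ₗ[K] W) (B : Submodule K V) [FiniteDimensional K B] :
    finrank K (B.map q) + finrank K (B ⊓ LinearMap.ker q : Submodule K V) = finrank K B := by
  have h1 := LinearMap.finrank_range_add_finrank_ker (q.domRestrict B)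
  rw [LinearMap.range_domRestrict, LinearMap.ker_domRestrict] at h1
  have h2 : finrank K ((LinearMap.ker q).comap B.subtype) =
      finrank K (B ⊓ LinearMap.ker q : Submodule K V) := by
    have h3 : (B ⊓ LinearMap.ker q : Submodule K V) =
        ((LinearMap.ker q).comap B.subtype).map B.subtype := by
      rw [Submodule.map_comap_subtype]
    rw [h3]
    exact (LinearEquiv.finrank_eq (Submodule.equivMapOfInjective _ B.injective_subtype _))
  rw [← h2]
  exact h1

lemma finrank_colon {I : Ideal (MvPolynomial (Fin N) K)} (h : HI I) {f : MvPolynomial (Fin N) K}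
    {d : ℕ} (hf : f.IsHomogeneous d) (j : ℕ) :
    finrank K (Jn (I ⊔ Ideal.span {f}) (j + d)) + finrank K (Jn (col I f) j) =
      finrank K (Jn I (j + d)) + finrank K (homogeneousSubmodule (Fin N) K j) := by
  set I' : Submodule K (MvPolynomial (Fin N) K) := Submodule.restrictScalars K I with hI'
  have e1 := finrank_map_add_inf_ker (I'.mkQ) (Jn (I ⊔ Ideal.span {f}) (j + d))
  have e2 := finrank_map_add_inf_ker (I'.mkQ ∘ₗ LinearMap.mulLeft K f)
    (homogeneousSubmodule (Fin N) K j)
  have h1 : (Jn (I ⊔ Ideal.span {f}) (j + d) ⊓ LinearMap.ker I'.mkQ : Submodule K _) =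
      Jn I (j + d) := by
    ext x
    rw [Submodule.mem_inf, Submodule.ker_mkQ, mem_Jn, mem_Jn]
    constructor
    · rintro ⟨⟨-, hx⟩, hxI⟩
      exact ⟨hxI, hx⟩
    · rintro ⟨hxI, hx⟩
      exact ⟨⟨Ideal.mem_sup_left hxI, hx⟩, hxI⟩
  have h2 : (homogeneousSubmodule (Fin N) K j ⊓
      LinearMap.ker (I'.mkQ ∘ₗ LinearMap.mulLeft K f) : Submodule K _) = Jn (col I f) j := by
    ext x
    rw [Submodule.mem_inf, LinearMap.mem_ker, mem_Jn, LinearMap.comp_apply,
      Submodule.mkQ_apply, Submodule.Quotient.mk_eq_zero, LinearMap.mulLeft_apply]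
    exact and_comm
  have h3 : (Jn (I ⊔ Ideal.span {f}) (j + d)).map I'.mkQ =
      (homogeneousSubmodule (Fin N) K j).map (I'.mkQ ∘ₗ LinearMap.mulLeft K f) := by
    apply le_antisymm
    · rintro _ ⟨x, hx, rfl⟩
      obtain ⟨a, ha, u, hu, rfl⟩ := mem_sup_span h hf hx.2 hx.1
      refine ⟨u, hu, ?_⟩
      rw [LinearMap.comp_apply, LinearMap.mulLeft_apply, map_add]
      have : I'.mkQ a = 0 := (Submodule.Quotient.mk_eq_zero _).2 ha
      rw [this, zero_add]
    · rintro _ ⟨u, hu, rfl⟩
      refine ⟨f * u, ⟨Ideal.mem_sup_right (Ideal.mul_mem_right _ _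
        (Ideal.mem_span_singleton_self f)), ?_⟩, rfl⟩
      have := hf.mul (show u.IsHomogeneous j from hu)
      rw [add_comm] at this
      exact this
  rw [h1, h3] at e1
  rw [h2] at e2
  omega

lemma hd_col {I : Ideal (MvPolynomial (Fin N) K)} (h : HI I) {f : MvPolynomial (Fin N) K}
    {d : ℕ} (hf : f.IsHomogeneous d) (j : ℕ) :
    hd (col I f) j + hd (I ⊔ Ideal.span {f}) (j + d) = hd I (j + d) := by
  have h1 := finrank_colon h hf j
  have h2 := hd_add I (j + d)
  have h3 := hd_add (I ⊔ Ideal.span {f}) (j + d)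
  have h4 := hd_add (col I f) j
  omega

lemma hd_low {I : Ideal (MvPolynomial (Fin N) K)} (h : HI I) {f : MvPolynomial (Fin N) K}
    {d : ℕ} (hf : f.IsHomogeneous d) {j : ℕ} (hj : j < d) :
    hd (I ⊔ Ideal.span {f}) j = hd I j := by
  have : Jn (I ⊔ Ideal.span {f}) j = Jn I j := by
    apply le_antisymm
    · intro x hx
      exact ⟨mem_of_mem_sup_lt h hf hj hx.2 hx.1, hx.2⟩
    · exact Jn_mono le_sup_left j
  unfold hd
  rw [this]

/-! ### nonzerodivisors -/

/-- `f` is a nonzerodivisor modulo `I` -/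
def NZD (I : Ideal (MvPolynomial (Fin N) K)) (f : MvPolynomial (Fin N) K) : Prop :=
  ∀ u, f * u ∈ I → u ∈ I

lemma NZD.col_eq {I : Ideal (MvPolynomial (Fin N) K)} {f : MvPolynomial (Fin N) K}
    (h : NZD I f) : col I f = I := le_antisymm (fun u hu => h u hu) (le_col I f)

lemma NZD.pow {I : Ideal (MvPolynomial (Fin N) K)} {f : MvPolynomial (Fin N) K}
    (h : NZD I f) (m : ℕ) : NZD I (f ^ m) := by
  induction m with
  | zero => intro u hu; simpa using hu
  | succ m ih =>
    intro u hu
    apply h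
    apply ih
    rw [← mul_assoc, ← pow_succ]
    exact hu

/-- transfer of the nonzerodivisor property -/
lemma NZD.transfer {I : Ideal (MvPolynomial (Fin N) K)} {l f : MvPolynomial (Fin N) K}
    (h : NZD I l) {m : ℕ} (hm : l ^ m ∈ I ⊔ Ideal.span {f}) : NZD I f := by
  intro u hu
  apply h.pow m
  obtain ⟨a, ha, b, hb, hab⟩ := Submodule.mem_sup.1 hm
  obtain ⟨c, rfl⟩ := Ideal.mem_span_singleton'.1 hb
  rw [← hab, add_mul, mul_assoc]
  exact I.add_mem (I.mul_mem_right _ ha) (I.mul_mem_left _ hu)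

/-- if `y` is a nonzerodivisor modulo `I + (x)` and `x` modulo `I`, then `y` modulo `I` -/
lemma NZD.swap1 {I : Ideal (MvPolynomial (Fin N) K)} (hI : HI I) {x y : MvPolynomial (Fin N) K}
    {dx dy : ℕ} (hdx : 1 ≤ dx) (hx : x.IsHomogeneous dx) (hy : y.IsHomogeneous dy)
    (h1 : NZD I x) (h2 : NZD (I ⊔ Ideal.span {x}) y) : NZD I y := by
  have key : ∀ k : ℕ, ∀ u : MvPolynomial (Fin N) K, u.IsHomogeneous k → y * u ∈ I → u ∈ I := by
    intro k
    induction k using Nat.strong_induction_on with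
    | _ k ih =>
      intro u hu hyu
      have h3 := h2 u (Ideal.mem_sup_left hyu)
      by_cases hk : k < dx
      · exact mem_of_mem_sup_lt hI hx hk hu h3
      · obtain ⟨j, rfl⟩ := Nat.exists_eq_add_of_le' (not_lt.1 hk)
        obtain ⟨a, ha, w, hw, rfl⟩ := mem_sup_span hI hx hu h3
        have h4 : y * w ∈ I := by
          apply h1
          have : x * (y * w) = y * (a + x * w) - y * a := by ring
          rw [this]
          exact I.sub_mem hyu (I.mul_mem_left _ ha)
        exact I.add_mem ha (I.mul_mem_left _ (ih j (by omega) w hw h4))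
  intro u hu
  apply mem_of_comps
  intro n
  apply key n _ (homogeneousComponent_isHomogeneous _ _)
  rw [← homComp_mul hy]
  exact hI _ hu _

lemma NZD.swap2 {I : Ideal (MvPolynomial (Fin N) K)} {x y : MvPolynomial (Fin N) K}
    (h1 : NZD I x) (h2 : NZD (I ⊔ Ideal.span {x}) y) : NZD (I ⊔ Ideal.span {y}) x := by
  intro u hu
  obtain ⟨a, ha, b, hb, hab⟩ := Submodule.mem_sup.1 hu
  obtain ⟨v, rfl⟩ := Ideal.mem_span_singleton'.1 hb
  have h3 : y * v ∈ I ⊔ Ideal.span {x} := by
    have : y * v = x * u - a := by rw [← hab]; ring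
    rw [this]
    exact Ideal.sub_mem _ (Ideal.mem_sup_right (Ideal.mul_mem_right _ _
      (Ideal.mem_span_singleton_self x))) (Ideal.mem_sup_left ha)
  obtain ⟨a', ha', c, hc, hac⟩ := Submodule.mem_sup.1 (h2 v h3)
  obtain ⟨w, rfl⟩ := Ideal.mem_span_singleton'.1 hc
  have h4 : u - y * w ∈ I := by
    apply h1
    have : x * (u - y * w) = a + y * a' := by
      rw [mul_sub, ← hab, ← hac]
      ring
    rw [this]
    exact I.add_mem ha (I.mul_mem_left _ ha')
  have : u = (u - y * w) + w * y := by ring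
  rw [this]
  exact Submodule.add_mem_sup h4 (Ideal.mul_mem_left _ _ (Ideal.mem_span_singleton_self y))

end Pool.Agent.CB
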