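import Mathlib
import Pool.Agent.CB.CIBasic

/-!
# Lists of forms, regular sequences and common zeros
-/

set_option autoImplicit false
set_option linter.all false

noncomputable section

namespace Pool.Agent.CB

open Module MvPolynomial

variable {K : Type*} [Field K] {N : ℕ}

/-- a form together with its (positive) degree -/
def okf (a : ℕ × MvPolynomial (Fin N) K) : Prop := 1 ≤ a.1 ∧ a.2.IsHomogeneous a.1

/-- ideal generated by a list of forms -/
def IL (l : List (ℕ × MvPolynomial (Fin N) K)) : Ideal (MvPolynomial (Fin N) K) :=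
  Ideal.span {f | ∃ a ∈ l, a.2 = f}

lemma IL_nil : IL ([] : List (ℕ × MvPolynomial (Fin N) K)) = ⊥ := by
  unfold IL
  rw [Ideal.span_eq_bot]
  rintro x ⟨a, ha, -⟩
  simp at ha

lemma IL_cons (a : ℕ × MvPolynomial (Fin N) K) (l : List (ℕ × MvPolynomial (Fin N) K)) :
    IL (a :: l) = IL l ⊔ Ideal.span {a.2} := by
  unfold IL
  rw [← Ideal.span_union]
  congr 1
  ext f
  constructor
  · rintro ⟨b, hb, rfl⟩
    rcases List.mem_cons.1 hb with rfl | hb
    · exact Or.inr rfl
    · exact Or.inl ⟨b, hb, rfl⟩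
  · rintro (⟨b, hb, rfl⟩ | h)
    · exact ⟨b, List.mem_cons_of_mem _ hb, rfl⟩
    · exact ⟨a, List.mem_cons_self, h.symm⟩

lemma IL_congr {l l' : List (ℕ × MvPolynomial (Fin N) K)} (h : ∀ a, a ∈ l ↔ a ∈ l') :
    IL l = IL l' := by
  unfold IL
  congr 1
  ext f
  constructor
  · rintro ⟨a, ha, rfl⟩
    exact ⟨a, (h a).1 ha, rfl⟩
  · rintro ⟨a, ha, rfl⟩
    exact ⟨a, (h a).2 ha, rfl⟩

lemma IL_perm {l l' : List (ℕ × MvPolynomial (Fin N) K)} (h : l.Perm l') : IL l = IL l' :=
  IL_congr fun _ => h.mem_iff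

lemma mem_IL {l : List (ℕ × MvPolynomial (Fin N) K)} {a : ℕ × MvPolynomial (Fin N) K}
    (ha : a ∈ l) : a.2 ∈ IL l := Ideal.subset_span ⟨a, ha, rfl⟩

lemma IL_le {l : List (ℕ × MvPolynomial (Fin N) K)} {I : Ideal (MvPolynomial (Fin N) K)}
    (h : ∀ a ∈ l, a.2 ∈ I) : IL l ≤ I := by
  unfold IL
  rw [Ideal.span_le]
  rintro _ ⟨a, ha, rfl⟩
  exact h a ha

lemma HI_IL {l : List (ℕ × MvPolynomial (Fin N) K)} (h : ∀ a ∈ l, okf a) : HI (IL l) := by
  induction l with
  | nil => rw [IL_nil]; exact HI_bot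
  | cons a l ih =>
    rw [IL_cons]
    exact HI_sup (ih fun b hb => h b (List.mem_cons_of_mem _ hb))
      (HI_span (h a List.mem_cons_self).2)

/-- the list is a regular sequence, the head being the last element -/
def WR : List (ℕ × MvPolynomial (Fin N) K) → Prop
  | [] => True
  | a :: l => WR l ∧ NZD (IL l) a.2

lemma WR_perm {l l' : List (ℕ × MvPolynomial (Fin N) K)} (h : l.Perm l') :
    (∀ a ∈ l, okf a) → WR l → WR l' := by
  induction h with
  | nil => exact fun _ h => h
  | cons x h ih =>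
    rintro hok ⟨h1, h2⟩
    refine ⟨ih (fun a ha => hok a (List.mem_cons_of_mem _ ha)) h1, ?_⟩
    rw [← IL_perm h]
    exact h2
  | swap x y l =>
    rintro hok ⟨⟨h1, h2⟩, h3⟩
    have hx := hok x (by simp)
    have hy := hok y (by simp)
    have hl : ∀ a ∈ l, okf a := fun a ha => hok a (by simp [ha])
    rw [IL_cons] at h3
    refine ⟨⟨h1, NZD.swap1 (HI_IL hl) hx.1 hx.2 hy.2 h2 h3⟩, ?_⟩
    rw [IL_cons]
    exact NZD.swap2 h2 h3
  | trans h1 h2 ih1 ih2 =>
    intro hok h
    exact ih2 (fun a ha => hok a (h1.mem_iff.2 ha)) (ih1 hok h)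

/-- the only common zero is the origin -/
def NZ (l : List (ℕ × MvPolynomial (Fin N) K)) : Prop :=
  ∀ x : Fin N → K, (∀ a ∈ l, eval x a.2 = 0) → x = 0

lemma NZ_congr {l l' : List (ℕ × MvPolynomial (Fin N) K)} (h : ∀ a, a ∈ l → a ∈ l') (hl : NZ l) :
    NZ l' := fun x hx => hl x fun a ha => hx a (h a ha)

lemma eval_eq_zero_of_mem_IL {l : List (ℕ × MvPolynomial (Fin N) K)} {x : Fin N → K}
    (hx : ∀ a ∈ l, eval x a.2 = 0) {f : MvPolynomial (Fin N) K} (hf : f ∈ IL l) :
    eval x f = 0 := by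
  have : IL l ≤ RingHom.ker (eval x : MvPolynomial (Fin N) K →+* K) :=
    IL_le fun a ha => hx a ha
  exact this hf

/-- Nullstellensatz: some power of every variable is in the ideal -/
lemma exists_pow_mem [IsAlgClosed K] {I : Ideal (MvPolynomial (Fin N) K)}
    (h : ∀ x : Fin N → K, (∀ f ∈ I, eval x f = 0) → x = 0) (i : Fin N) :
    ∃ m, (X i : MvPolynomial (Fin N) K) ^ m ∈ I := by
  have h1 : (X i : MvPolynomial (Fin N) K) ∈ I.radical := by
    rw [← MvPolynomial.vanishingIdeal_zeroLocus_eq_radical (K := K)]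
    intro x hx
    have hx' : ∀ g ∈ I, aeval x g = 0 := hx
    have hx0 : x = 0 := h x fun g hg => by rw [← aeval_eval_eq]; exact hx' g hg
    simp [hx0]
  exact h1

/-- all forms of large degree are in the ideal -/
lemma exists_deg {I : Ideal (MvPolynomial (Fin N) K)}
    (h : ∀ i : Fin N, ∃ m, (X i : MvPolynomial (Fin N) K) ^ m ∈ I) :
    ∃ M : ℕ, ∀ j, M ≤ j → ∀ f : MvPolynomial (Fin N) K, f.IsHomogeneous j → f ∈ I := by
  have h1 : idealOfVars (Fin N) K ≤ I.radical := by
    rw [idealOfVars, Ideal.span_le]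
    rintro _ ⟨i, rfl⟩
    exact h i
  obtain ⟨M, hM⟩ := Ideal.exists_pow_le_of_le_radical_of_fg h1 (idealOfVars_fg (Fin N) K)
  refine ⟨M, fun j hj f hf => hM ?_⟩
  rw [mem_pow_idealOfVars_iff]
  intro x hx
  have h3 : Finsupp.degree x = j := by
    have h4 := hf (mem_support_iff.1 hx)
    rw [Finsupp.degree_eq_weight_one]
    exact h4
  rw [h3]
  exact hj

lemma NZ.exists_deg [IsAlgClosed K] {l : List (ℕ × MvPolynomial (Fin N) K)} (h : NZ l) :
    ∃ M : ℕ, ∀ j, M ≤ j → ∀ f : MvPolynomial (Fin N) K, f.IsHomogeneous j → f ∈ IL l :=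
  Pool.Agent.CB.exists_deg fun i => exists_pow_mem (I := IL l)
    (fun x hx => h x fun a ha => hx _ (mem_IL ha)) i

lemma eval_zero_of_hom {f : MvPolynomial (Fin N) K} {d : ℕ} (hd : 1 ≤ d) (hf : f.IsHomogeneous d) :
    eval (0 : Fin N → K) f = 0 := by
  have := eval_smul_hom hf 0 (0 : Fin N → K)
  simp only [zero_mul] at this
  rw [show (fun j : Fin N => (0 : K)) = 0 from rfl] at this
  rw [this, zero_pow (by omega), zero_mul]

/-- Finiteness of the points of `V(l')` with `f = 1`. -/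
lemma finite_slice [IsAlgClosed K] {l : List (ℕ × MvPolynomial (Fin N) K)} {d : ℕ}
    {f : MvPolynomial (Fin N) K} (hok : ∀ a ∈ l, okf a) (hd : 1 ≤ d) (hf : f.IsHomogeneous d)
    (h : NZ ((d, f) :: l)) :
    Set.Finite {x : Fin N → K | (∀ a ∈ l, eval x a.2 = 0) ∧ eval x f = 1} := by
  obtain ⟨M, hM⟩ := h.exists_deg
  set b : Ideal (MvPolynomial (Fin N) K) := IL l ⊔ Ideal.span {f - 1} with hb
  -- the quotient is finite dimensional
  set B : Submodule K (MvPolynomial (Fin N) K) := restrictTotalDegree (Fin N) K M with hB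
  have hspan : ∀ j : ℕ, ∀ u : MvPolynomial (Fin N) K, u.IsHomogeneous j →
      ∃ v ∈ B, u - v ∈ b := by
    intro j
    induction j using Nat.strong_induction_on with
    | _ j ih =>
      intro u hu
      by_cases hj : j < M
      · refine ⟨u, ?_, by simp⟩
        rw [hB, mem_restrictTotalDegree]
        exact hu.totalDegree_le.trans hj.le
      · have h1 := hM j (not_lt.1 hj) u hu
        rw [IL_cons] at h1
        by_cases hjd : j < d
        · refine ⟨0, B.zero_mem, ?_⟩
          rw [sub_zero]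
          exact Ideal.mem_sup_left (mem_of_mem_sup_lt (HI_IL hok) hf hjd hu h1)
        · obtain ⟨i, rfl⟩ := Nat.exists_eq_add_of_le' (not_lt.1 hjd)
          obtain ⟨a, ha, w, hw, rfl⟩ := mem_sup_span (HI_IL hok) hf hu h1
          obtain ⟨v, hv, hwv⟩ := ih i (by omega) w hw
          refine ⟨v, hv, ?_⟩
          have : a + f * w - v = a + w * (f - 1) + (w - v) := by ring
          rw [this]
          refine Ideal.add_mem _ (Submodule.add_mem_sup ha (Ideal.mul_mem_left _ _
            (Ideal.mem_span_singleton_self _))) hwv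
  have hspan' : ∀ u : MvPolynomial (Fin N) K, ∃ v ∈ B, u - v ∈ b := by
    intro u
    choose! v hv hv' using fun j => hspan j (homogeneousComponent j u)
      (homogeneousComponent_isHomogeneous _ _)
    refine ⟨∑ i ∈ Finset.range (u.totalDegree + 1), v i, B.sum_mem fun i _ => hv i, ?_⟩
    have hu : u - ∑ i ∈ Finset.range (u.totalDegree + 1), v i =
        ∑ i ∈ Finset.range (u.totalDegree + 1), (homogeneousComponent i u - v i) := by
      rw [Finset.sum_sub_distrib, sum_homogeneousComponent u]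
    rw [hu]
    exact b.sum_mem fun i _ => hv' i
  have hfin : Module.Finite K (MvPolynomial (Fin N) K ⧸ b) := by
    have hfB : Module.Finite K B := by
      rw [hB]
      infer_instance
    refine Module.Finite.of_surjective
      (((Ideal.Quotient.mkₐ K b).toLinearMap).domRestrict B) ?_
    intro y
    obtain ⟨u, rfl⟩ := Ideal.Quotient.mk_surjective y
    obtain ⟨v, hv, huv⟩ := hspan' u
    refine ⟨⟨v, hv⟩, ?_⟩
    exact ((Ideal.Quotient.eq).2 huv).symm
  have hint : ∀ i : Fin N, IsIntegral K (Ideal.Quotient.mk b (X i)) := fun i =>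
    Algebra.IsIntegral.isIntegral _
  choose p hp hp0 using hint
  refine Set.Finite.subset (Set.Finite.pi' fun i : Fin N => (p i).rootSet_finite K) ?_
  rintro x ⟨hx1, hx2⟩ i
  have hker : b ≤ RingHom.ker (eval x : MvPolynomial (Fin N) K →+* K) := by
    rw [hb]
    refine sup_le (IL_le fun a ha => hx1 a ha) ?_
    rw [Ideal.span_le]
    rintro _ rfl
    rw [SetLike.mem_coe, RingHom.mem_ker, map_sub, hx2, map_one, sub_self]
  let e : (MvPolynomial (Fin N) K ⧸ b) →+* K := Ideal.Quotient.lift b (eval x) hker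
  have he : e.comp (algebraMap K (MvPolynomial (Fin N) K ⧸ b)) = RingHom.id K := by
    ext c
    change Ideal.Quotient.lift b (eval x) hker (Ideal.Quotient.mk b (C c)) = c
    rw [Ideal.Quotient.lift_mk, eval_C]
  rw [Polynomial.mem_rootSet]
  refine ⟨(hp i).ne_zero, ?_⟩
  have h1 := congrArg e (hp0 i)
  rw [map_zero, Polynomial.hom_eval₂, he] at h1
  have h2 : e (Ideal.Quotient.mk b (X i)) = x i := by
    change Ideal.Quotient.lift b (eval x) hker (Ideal.Quotient.mk b (X i)) = _
    rw [Ideal.Quotient.lift_mk, eval_X]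
  rw [h2] at h1
  rw [Polynomial.aeval_def]
  exact h1

/-- A linear form completing `l` to a system without nontrivial common zeros. -/
lemma exists_lin [IsAlgClosed K] {l : List (ℕ × MvPolynomial (Fin N) K)} {d : ℕ}
    {f : MvPolynomial (Fin N) K} (hok : ∀ a ∈ l, okf a) (hd : 1 ≤ d) (hf : f.IsHomogeneous d)
    (h : NZ ((d, f) :: l)) : ∃ c : Fin N → K, NZ ((1, lf c) :: l) := by
  have hinf : Infinite K := IsAlgClosed.instInfinite
  obtain ⟨c, hc⟩ := exists_lf _ (finite_slice hok hd hf h) (by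
    rintro x ⟨-, hx⟩ rfl
    rw [eval_zero_of_hom hd hf] at hx
    exact zero_ne_one hx)
  refine ⟨c, fun x hx => ?_⟩
  by_contra hx0
  have hl : ∀ a ∈ l, eval x a.2 = 0 := fun a ha => hx a (List.mem_cons_of_mem _ ha)
  have hlx : eval x (lf c) = 0 := hx _ List.mem_cons_self
  have hfx : eval x f ≠ 0 := by
    intro h0
    exact hx0 (h x fun a ha => by
      rcases List.mem_cons.1 ha with rfl | ha
      · exact h0
      · exact hl a ha)
  obtain ⟨z, hz⟩ := IsAlgClosed.exists_pow_nat_eq ((eval x f)⁻¹) (by omega : 0 < d)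
  refine hc (fun j => z * x j) ⟨fun a ha => ?_, ?_⟩ ?_
  · rw [eval_smul_hom (hok a ha).2, hl a ha, mul_zero]
  · rw [eval_smul_hom hf, hz, inv_mul_cancel₀ hfx]
  · rw [eval_smul_hom (lf_hom c), hlx, mul_zero]

end Pool.Agent.CB
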