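import Mathlib
import Pool.Agent.CB.CIList

/-!
# Complete intersections of `N` forms in `N` variables

`CI_of_NZ`: `N` forms of positive degrees in `N` variables over an algebraically closed field
without a nontrivial common zero form a regular sequence (in every order), the quotient has
dimension the product of the degrees, and its socle is concentrated in degree `∑ (d_i - 1)`, where
the quotient has dimension one.
-/

set_option autoImplicit false
set_option linter.all false

noncomputable section

namespace Pool.Agent.CB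

open Module MvPolynomial

variable {K : Type*} [Field K] {N : ℕ}

/-- `∑ (d_i - 1)` -/
def sd (l : List (ℕ × MvPolynomial (Fin N) K)) : ℕ := (l.map fun a => a.1 - 1).sum
/-- `∏ d_i` -/
def pd (l : List (ℕ × MvPolynomial (Fin N) K)) : ℕ := (l.map Prod.fst).prod

structure CI (l : List (ℕ × MvPolynomial (Fin N) K)) : Prop where
  wr : WR l
  top : hd (IL l) (sd l) = 1
  zero : ∀ j, sd l < j → hd (IL l) j = 0
  len : ∀ M, sd l < M → ∑ j ∈ Finset.range M, hd (IL l) j = pd l
  soc : ∀ (j : ℕ) (u : MvPolynomial (Fin N) K), u.IsHomogeneous j → u ∉ IL l →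
    (∀ i : Fin N, X i * u ∈ IL l) → j = sd l

lemma CI.perm {l l' : List (ℕ × MvPolynomial (Fin N) K)} (h : l.Perm l')
    (hok : ∀ a ∈ l, okf a) (hl : CI l) : CI l' := by
  have h1 : IL l = IL l' := IL_perm h
  have h2 : sd l = sd l' := (h.map _).sum_eq
  have h3 : pd l = pd l' := (h.map _).prod_eq
  obtain ⟨a, b, c, d, e⟩ := hl
  rw [h1, h2] at b
  rw [h1, h2] at c
  rw [h1, h2, h3] at d
  rw [h1, h2] at e
  exact ⟨WR_perm h hok a, b, c, d, e⟩

/-- numerical part of the exchange -/
lemma exchange_numeric (g h r : ℕ → ℕ) (d s L : ℕ) (hd : 1 ≤ d) (h0 : h 0 = g 0)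
    (hh : ∀ j, h j + g (j + 1) = h (j + 1)) (hlow : ∀ j, j < d → r j = h j)
    (hr : ∀ j, h j + r (j + d) = h (j + d)) (gs : g s = 1) (gz : ∀ j, s < j → g j = 0)
    (gL : ∀ M, s < M → ∑ j ∈ Finset.range M, g j = L) :
    r ((d - 1) + s) = 1 ∧ (∀ j, (d - 1) + s < j → r j = 0) ∧
      ∀ M, (d - 1) + s < M → ∑ j ∈ Finset.range M, r j = d * L := by
  have hsum : ∀ j, h j = ∑ i ∈ Finset.range (j + 1), g i := by
    intro j
    induction j with
    | zero => simp [h0]
    | succ j ih => rw [Finset.sum_range_succ, ← ih, hh]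
  have hL : ∀ j, s ≤ j → h j = L := by
    intro j hj
    rw [hsum, gL (j + 1) (by omega)]
  refine ⟨?_, ?_, ?_⟩
  · cases s with
    | zero =>
      rw [add_zero, hlow _ (by omega), hL _ (Nat.zero_le _), ← hL 0 le_rfl, h0, gs]
    | succ s =>
      have h1 := hr s
      have h2 := hL (s + d) (by omega)
      have h3 := hh s
      have h4 := hL (s + 1) le_rfl
      have h5 : d - 1 + (s + 1) = s + d := by omega
      rw [h5]
      omega
  · intro j hj
    obtain ⟨i, rfl⟩ := Nat.exists_eq_add_of_le' (show d ≤ j by omega)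
    have h1 := hr i
    have h2 := hL (i + d) (by omega)
    have h3 := hL i (by omega)
    omega
  · intro M hM
    have key : ∀ M, ∑ j ∈ Finset.range (M + d), r j + ∑ j ∈ Finset.range M, h j =
        ∑ j ∈ Finset.range (M + d), h j := by
      intro M
      induction M with
      | zero =>
        simp only [zero_add, Finset.range_zero, Finset.sum_empty, add_zero]
        exact Finset.sum_congr rfl fun j hj => hlow j (Finset.mem_range.1 hj)
      | succ M ih =>
        have e : M + 1 + d = (M + d) + 1 := by omega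
        rw [e, Finset.sum_range_succ, Finset.sum_range_succ, Finset.sum_range_succ, ← hr M, ← ih]
        ring
    obtain ⟨i, rfl⟩ := Nat.exists_eq_add_of_le' (show d ≤ M by omega)
    have h1 := key i
    have h2 : ∑ j ∈ Finset.range (i + d), h j = ∑ j ∈ Finset.range i, h j + d * L := by
      rw [Finset.sum_range_add]
      congr 1
      rw [Finset.sum_congr rfl (g := fun _ => L)]
      · simp
      · intro j _
        exact hL _ (by omega)
    omega

/-- exchange of a linear form for a form of arbitrary degree -/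
lemma CI.exchange [IsAlgClosed K] {l : List (ℕ × MvPolynomial (Fin N) K)}
    {a : ℕ × MvPolynomial (Fin N) K} {c : Fin N → K} (hok : ∀ b ∈ l, okf b) (ha : okf a)
    (hnz : NZ (a :: l)) (h : CI ((1, lf c) :: l)) : CI (a :: l) := by
  obtain ⟨d, f⟩ := a
  obtain ⟨hd1, hf⟩ := ha
  simp only at hd1 hf
  have hI := HI_IL hok
  have hl : NZD (IL l) (lf c) := h.wr.2
  have hwr : WR l := h.wr.1
  -- `f` is a nonzerodivisor
  obtain ⟨m, hm⟩ := hnz.exists_deg
  have hfz : NZD (IL l) f := by
    refine hl.transfer (m := m) ?_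
    have h1 := hm m le_rfl (lf c ^ m) (by simpa using (lf_hom c).pow m)
    rw [IL_cons] at h1
    exact h1
  have htop := h.top
  have hzero := h.zero
  have hlen := h.len
  have hsoc := h.soc
  rw [IL_cons] at htop hzero hlen hsoc
  have es : sd ((1, lf c) :: l) = sd l := by simp [sd]
  have es' : sd ((d, f) :: l) = (d - 1) + sd l := by simp [sd]
  have ep : pd ((1, lf c) :: l) = pd l := by simp [pd]
  have ep' : pd ((d, f) :: l) = d * pd l := by simp [pd]
  rw [es] at htop hzero hlen hsoc
  rw [ep] at hlen
  have hnum := exchange_numeric (hd (IL l ⊔ Ideal.span {lf c})) (hd (IL l))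
    (hd (IL l ⊔ Ideal.span {f})) d (sd l) (pd l) hd1 (hd_low hI (lf_hom c) (by norm_num)).symm
    (fun j => by
      have := hd_col hI (lf_hom c) j
      rw [hl.col_eq] at this
      exact this)
    (fun j hj => hd_low hI hf hj)
    (fun j => by
      have := hd_col hI hf j
      rw [hfz.col_eq] at this
      exact this) htop hzero hlen
  refine ⟨⟨hwr, hfz⟩, ?_, ?_, ?_, ?_⟩
  · rw [IL_cons, es']
    exact hnum.1
  · rw [IL_cons, es']
    exact hnum.2.1
  · rw [IL_cons, es', ep']
    exact hnum.2.2
  · rw [IL_cons, es']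
    intro j u hu hu0 hXu
    -- `ℓ u = a + f w`
    have h1 : lf c * u ∈ IL l ⊔ Ideal.span {f} := by
      unfold lf
      rw [Finset.sum_mul]
      refine Ideal.sum_mem _ fun i _ => ?_
      rw [smul_mul_assoc, smul_eq_C_mul]
      exact Ideal.mul_mem_left _ _ (hXu i)
    have h1' : (lf c * u).IsHomogeneous (1 + j) := (lf_hom c).mul hu
    have hdj : d ≤ 1 + j := by
      by_contra hcon
      have h2 := mem_of_mem_sup_lt hI hf (not_le.1 hcon) h1' h1
      exact hu0 (Ideal.mem_sup_left (hl u h2))
    obtain ⟨i, hi⟩ := Nat.exists_eq_add_of_le' hdj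
    rw [hi] at h1'
    obtain ⟨α, hα, w, hw, hlu⟩ := mem_sup_span hI hf h1' h1
    have hw0 : w ∉ IL l ⊔ Ideal.span {lf c} := by
      intro hw0
      obtain ⟨α', hα', β, hβ, rfl⟩ := Submodule.mem_sup.1 hw0
      obtain ⟨w', rfl⟩ := Ideal.mem_span_singleton'.1 hβ
      have h3 : u - f * w' ∈ IL l := by
        apply hl
        have : lf c * (u - f * w') = α + f * α' := by
          rw [mul_sub, hlu]
          ring
        rw [this]
        exact Ideal.add_mem _ hα (Ideal.mul_mem_left _ _ hα')
      apply hu0
      have : u = (u - f * w') + w' * f := by ring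
      rw [this]
      exact Submodule.add_mem_sup h3 (Ideal.mul_mem_left _ _ (Ideal.mem_span_singleton_self f))
    have hXw : ∀ k : Fin N, X k * w ∈ IL l ⊔ Ideal.span {lf c} := by
      intro k
      obtain ⟨γ, hγ, β, hβ, hk⟩ := Submodule.mem_sup.1 (hXu k)
      obtain ⟨z, rfl⟩ := Ideal.mem_span_singleton'.1 hβ
      have h4 : X k * w - lf c * z ∈ IL l := by
        apply hfz
        have : f * (X k * w - lf c * z) = lf c * γ - X k * α := by
          have e1 : f * w = lf c * u - α := by rw [hlu]; ring
          have e2 : z * f = X k * u - γ := by rw [← hk]; ring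
          calc f * (X k * w - lf c * z) = X k * (f * w) - lf c * (z * f) := by ring
            _ = X k * (lf c * u - α) - lf c * (X k * u - γ) := by rw [e1, e2]
            _ = lf c * γ - X k * α := by ring
        rw [this]
        exact Ideal.sub_mem _ (Ideal.mul_mem_left _ _ hγ) (Ideal.mul_mem_left _ _ hα)
      have : X k * w = (X k * w - lf c * z) + z * lf c := by ring
      rw [this]
      exact Submodule.add_mem_sup h4 (Ideal.mul_mem_left _ _ (Ideal.mem_span_singleton_self _))
    have h5 := hsoc i w hw hw0 hXw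
    omega

/-! ### linear forms -/

lemma exists_lf_eq {f : MvPolynomial (Fin N) K} (hf : f.IsHomogeneous 1) :
    ∃ c : Fin N → K, f = lf c := by
  refine ⟨fun j => coeff (Finsupp.single j 1) f, ?_⟩
  ext m
  unfold lf
  rw [coeff_sum]
  simp only [coeff_smul, coeff_X', smul_eq_mul, mul_ite, mul_one, mul_zero]
  by_cases hm : ∃ j, Finsupp.single j 1 = m
  · obtain ⟨j, rfl⟩ := hm
    rw [Finset.sum_eq_single_of_mem j (Finset.mem_univ _)]
    · simp
    · intro b _ hb
      rw [if_neg]
      intro h
      exact hb (Finsupp.single_left_injective one_ne_zero h)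
  · rw [Finset.sum_eq_zero]
    · by_contra hc
      apply hm
      have h1 : Finsupp.degree m = 1 := by
        rw [Finsupp.degree_eq_weight_one]
        exact hf hc
      rw [Finsupp.degree_apply] at h1
      obtain ⟨j, hj⟩ := (Finsupp.sum_eq_one_iff _).1 h1
      exact ⟨j, hj.symm⟩
    · intro j _
      rw [if_neg]
      intro h
      exact hm ⟨j, h⟩

lemma finrank_S0 : finrank K (homogeneousSubmodule (Fin N) K 0) = 1 := by
  rw [finrank_eq_one_iff']
  refine ⟨⟨1, isHomogeneous_one _ _⟩, ?_, ?_⟩
  · intro h
    have := congrArg Subtype.val h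
    exact one_ne_zero this
  · rintro ⟨f, hf⟩
    refine ⟨coeff 0 f, ?_⟩
    apply Subtype.ext
    have h1 : f.totalDegree = 0 := Nat.le_zero.1 (IsHomogeneous.totalDegree_le hf)
    rw [totalDegree_eq_zero_iff_eq_C] at h1
    change coeff 0 f • (1 : MvPolynomial (Fin N) K) = f
    rw [smul_eq_C_mul, mul_one]
    exact h1.symm

lemma WR_linear (f g : Fin N → MvPolynomial (Fin N) K)
    (h1 : ∀ i, aeval g (f i) = X i) (h2 : ∀ i, aeval f (g i) = X i)
    (T : List (Fin N)) (hT : T.Nodup) : WR (T.map fun i => (1, f i)) := by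
  have hfg : ∀ u, aeval f (aeval g u) = u := by
    intro u
    have : (aeval f).comp (aeval g) = AlgHom.id K (MvPolynomial (Fin N) K) := by
      apply algHom_ext
      intro i
      rw [AlgHom.comp_apply, aeval_X, h2]
      rfl
    exact congrArg (fun k : MvPolynomial (Fin N) K →ₐ[K] MvPolynomial (Fin N) K => k u) this
  induction T with
  | nil => exact trivial
  | cons i T ih =>
    rw [List.nodup_cons] at hT
    refine ⟨ih hT.2, ?_⟩
    intro u hu
    have h3 : IL (T.map fun i => ((1 : ℕ), f i)) ≤
        (Ideal.span (X '' {t | t ∈ T})).comap (aeval g : MvPolynomial (Fin N) K →ₐ[K] _) := by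
      apply IL_le
      intro a ha
      obtain ⟨t, ht, rfl⟩ := List.mem_map.1 ha
      rw [Ideal.mem_comap, h1]
      exact Ideal.subset_span ⟨t, ht, rfl⟩
    have h4 : Ideal.span (X '' {t | t ∈ T}) ≤
        (IL (T.map fun i => ((1 : ℕ), f i))).comap
          (aeval f : MvPolynomial (Fin N) K →ₐ[K] MvPolynomial (Fin N) K) := by
      rw [Ideal.span_le]
      rintro _ ⟨t, ht, rfl⟩
      rw [SetLike.mem_coe, Ideal.mem_comap, aeval_X]
      exact mem_IL (a := (1, f t)) (List.mem_map.2 ⟨t, ht, rfl⟩)
    have h5 := h3 hu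
    rw [Ideal.mem_comap, map_mul, h1, mem_ideal_span_X_image] at h5
    have h6 : aeval g u ∈ Ideal.span (X '' {t | t ∈ T}) := by
      rw [mem_ideal_span_X_image]
      intro m hm
      obtain ⟨t, ht, htm⟩ := h5 (Finsupp.single i 1 + m) (by
        rw [MvPolynomial.mem_support_iff, coeff_X_mul]
        exact MvPolynomial.mem_support_iff.1 hm)
      refine ⟨t, ht, ?_⟩
      have hne : i ≠ t := by
        rintro rfl
        exact hT.1 ht
      rw [Finsupp.add_apply, Finsupp.single_apply, if_neg hne, zero_add] at htm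
      exact htm
    have h7 := h4 h6
    rw [Ideal.mem_comap, hfg] at h7
    exact h7

lemma CI_linear (f : Fin N → MvPolynomial (Fin N) K) (hf : ∀ i, (f i).IsHomogeneous 1)
    (hnz : NZ ((List.finRange N).map fun i => ((1 : ℕ), f i))) :
    CI ((List.finRange N).map fun i => ((1 : ℕ), f i)) := by
  choose c hc using fun i => exists_lf_eq (hf i)
  let C' : Matrix (Fin N) (Fin N) K := Matrix.of c
  have hinj : Function.Injective C'.mulVec := by
    have h0 : ∀ x, C'.mulVec x = 0 → x = 0 := by
      intro x hx
      apply hnz x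
      intro a ha
      obtain ⟨i, -, rfl⟩ := List.mem_map.1 ha
      have := congrFun hx i
      simp only
      rw [hc, eval_lf]
      exact this
    intro x y hxy
    have h1 : C'.mulVec (x - y) = 0 := by rw [Matrix.mulVec_sub, hxy, sub_self]
    exact sub_eq_zero.1 (h0 _ h1)
  have hunit : IsUnit C' := Matrix.mulVec_injective_iff_isUnit.1 hinj
  obtain ⟨B, hB1, hB2⟩ : ∃ B : Matrix (Fin N) (Fin N) K, C' * B = 1 ∧ B * C' = 1 := by
    obtain ⟨u, hu⟩ := hunit
    refine ⟨((u⁻¹ : (Matrix (Fin N) (Fin N) K)ˣ) : Matrix (Fin N) (Fin N) K), ?_, ?_⟩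
    · rw [← hu]; exact u.mul_inv
    · rw [← hu]; exact u.inv_mul
  let g : Fin N → MvPolynomial (Fin N) K := fun j => lf (B j)
  have hlf : ∀ (h : Fin N → MvPolynomial (Fin N) K) (e : Fin N → K),
      aeval h (lf e) = ∑ j, e j • h j := by
    intro h e
    simp [lf, map_sum]
  have key : ∀ (P Q : Matrix (Fin N) (Fin N) K), P * Q = 1 → ∀ i,
      ∑ j, P i j • lf (Q j) = X i := by
    intro P Q hPQ i
    unfold lf
    simp only [Finset.smul_sum, smul_smul]
    rw [Finset.sum_comm]
    simp only [← Finset.sum_smul]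
    have : ∀ k, ∑ j, P i j * Q j k = (1 : Matrix (Fin N) (Fin N) K) i k := by
      intro k
      rw [← hPQ, Matrix.mul_apply]
    simp only [this, Matrix.one_apply]
    simp
  have h1 : ∀ i, aeval g (f i) = X i := by
    intro i
    rw [hc, hlf]
    exact key _ _ hB1 i
  have h2 : ∀ i, aeval f (g i) = X i := by
    intro i
    rw [hlf]
    have : ∀ j, f j = lf (c j) := hc
    simp only [this]
    exact key _ _ hB2 i
  set l := (List.finRange N).map fun i => ((1 : ℕ), f i) with hl
  have hsd : sd l = 0 := by
    rw [hl, sd, List.map_map]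
    apply List.sum_eq_zero
    intro x hx
    obtain ⟨i, -, rfl⟩ := List.mem_map.1 hx
    rfl
  have hpd : pd l = 1 := by
    rw [hl, pd, List.map_map]
    apply List.prod_eq_one
    intro x hx
    obtain ⟨i, -, rfl⟩ := List.mem_map.1 hx
    rfl
  have hX : ∀ i, (X i : MvPolynomial (Fin N) K) ∈ IL l := by
    intro i
    rw [← h2 i, hlf]
    refine Ideal.sum_mem _ fun j _ => ?_
    rw [smul_eq_C_mul]
    exact Ideal.mul_mem_left _ _ (mem_IL (a := (1, f j))
      (List.mem_map.2 ⟨j, List.mem_finRange j, rfl⟩))
  have hmem : ∀ (j : ℕ) (u : MvPolynomial (Fin N) K), u.IsHomogeneous j → 0 < j → u ∈ IL l := by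
    intro j u hu hj
    have h3 : idealOfVars (Fin N) K ≤ IL l := by
      rw [idealOfVars, Ideal.span_le]
      rintro _ ⟨i, rfl⟩
      exact hX i
    apply h3
    have h4 : u ∈ idealOfVars (Fin N) K ^ 1 := by
      rw [mem_pow_idealOfVars_iff]
      intro x hx
      have h5 : Finsupp.degree x = j := by
        rw [Finsupp.degree_eq_weight_one]
        exact hu (MvPolynomial.mem_support_iff.1 hx)
      omega
    rwa [pow_one] at h4
  have hok : ∀ a ∈ l, okf a := by
    intro a ha
    obtain ⟨i, -, rfl⟩ := List.mem_map.1 ha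
    exact ⟨le_rfl, hf i⟩
  have htop : hd (IL l) 0 = 1 := by
    have h3 : Jn (IL l) 0 = ⊥ := by
      rw [eq_bot_iff]
      rintro x ⟨hx1, hx2⟩
      have h4 : x.totalDegree = 0 := Nat.le_zero.1 (IsHomogeneous.totalDegree_le hx2)
      rw [totalDegree_eq_zero_iff_eq_C] at h4
      have h5 : eval (0 : Fin N → K) x = 0 :=
        eval_eq_zero_of_mem_IL (fun a ha => eval_zero_of_hom (hok a ha).1 (hok a ha).2) hx1
      rw [h4, eval_C] at h5
      rw [Submodule.mem_bot, h4, h5, C_0]
    have h6 := hd_add (IL l) 0
    rw [h3, finrank_S0] at h6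
    simpa using h6
  have hzero : ∀ j, 0 < j → hd (IL l) j = 0 := fun j hj =>
    hd_eq_zero_iff.2 fun x hx => hmem j x hx hj
  refine ⟨WR_linear f g h1 h2 _ (List.nodup_finRange N), ?_, ?_, ?_, ?_⟩
  · rw [hsd]; exact htop
  · rw [hsd]; exact hzero
  · rw [hsd, hpd]
    intro M hM
    rw [Finset.sum_eq_single_of_mem 0 (Finset.mem_range.2 hM)]
    · exact htop
    · intro j _ hj
      exact hzero j (Nat.pos_of_ne_zero hj)
  · rw [hsd]
    intro j u hu hu0 _
    by_contra hj
    exact hu0 (hmem j u hu (Nat.pos_of_ne_zero hj))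

/-- **Complete intersections.** -/
theorem CI_of_NZ [IsAlgClosed K] (l : List (ℕ × MvPolynomial (Fin N) K)) (hlen : l.length = N)
    (hok : ∀ a ∈ l, okf a) (hnz : NZ l) : CI l := by
  classical
  suffices H : ∀ k : ℕ, ∀ l : List (ℕ × MvPolynomial (Fin N) K), l.length = N →
      (∀ a ∈ l, okf a) → NZ l → (l.countP fun a => decide (a.1 ≠ 1)) = k → CI l from
    H _ l hlen hok hnz rfl
  intro k
  induction k with
  | zero =>
    intro l hlen hok hnz hk
    rw [List.countP_eq_zero] at hk
    have h1 : ∀ a ∈ l, a.1 = 1 := by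
      intro a ha
      have := hk a ha
      simpa using this
    obtain ⟨F, hF⟩ : ∃ F : Fin N → MvPolynomial (Fin N) K,
        F = fun i => (l.get (i.cast hlen.symm)).2 := ⟨_, rfl⟩
    have hF1 : ∀ i, (F i).IsHomogeneous 1 := by
      intro i
      have h3 := hok _ (List.get_mem l (i.cast hlen.symm))
      have h4 := h1 _ (List.get_mem l (i.cast hlen.symm))
      have h5 := h3.2
      rw [h4] at h5
      rw [hF]
      exact h5
    have h2 : l = (List.finRange N).map fun i => ((1 : ℕ), F i) := by
      rw [hF]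
      apply List.ext_get
      · simp [hlen]
      · intro n hn1 hn2
        simp only [List.get_eq_getElem, List.getElem_map, List.getElem_finRange, Fin.val_cast]
        apply Prod.ext
        · exact h1 _ (List.getElem_mem _)
        · rfl
    clear hF
    subst h2
    exact CI_linear F hF1 hnz
  | succ k ih =>
    intro l hlen hok hnz hk
    have h1 : ∃ a ∈ l, a.1 ≠ 1 := by
      by_contra hcon
      push Not at hcon
      have : (l.countP fun a => decide (a.1 ≠ 1)) = 0 := by
        rw [List.countP_eq_zero]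
        intro a ha
        simp [hcon a ha]
      omega
    obtain ⟨a, ha, ha1⟩ := h1
    have hp : l.Perm (a :: l.erase a) := List.perm_cons_erase ha
    set l' := l.erase a with hl'
    have hok' : ∀ b ∈ l', okf b := fun b hb => hok b (List.mem_of_mem_erase hb)
    have hnz' : NZ (a :: l') := NZ_congr (fun b hb => hp.mem_iff.1 hb) hnz
    obtain ⟨c, hc⟩ := exists_lin hok' (hok a ha).1 (hok a ha).2 hnz'
    have hcount : (l'.countP fun a => decide (a.1 ≠ 1)) = k := by
      have h2 := hp.countP_eq (fun a => decide (a.1 ≠ 1))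
      rw [hk, List.countP_cons] at h2
      simp only [ne_eq, ha1, not_false_eq_true, decide_true, if_true] at h2
      simp only [ne_eq]
      omega
    have hlen' : l'.length + 1 = N := by
      have h9 := hp.length_eq
      rw [List.length_cons] at h9
      omega
    have h3 : CI ((1, lf c) :: l') := by
      refine ih _ (by rw [List.length_cons]; exact hlen') ?_ hc ?_
      · intro b hb
        rcases List.mem_cons.1 hb with rfl | hb
        · exact ⟨le_rfl, lf_hom c⟩
        · exact hok' b hb
      · rw [List.countP_cons, hcount]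
        simp
    have h4 : CI (a :: l') := CI.exchange hok' (hok a ha) hnz' h3
    refine h4.perm hp.symm ?_
    intro b hb
    rcases List.mem_cons.1 hb with rfl | hb
    · exact hok _ ha
    · exact hok' b hb

end Pool.Agent.CB
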