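import Mathlib
import Pool.Agent.CB.CIThm

/-!
# Extending partial systems of parameters by forms of prescribed degrees in an ideal
-/

set_option autoImplicit false
set_option linter.all false

noncomputable section

namespace Pool.Agent.CB

open Module MvPolynomial

variable {K : Type*} [Field K] {N : ℕ}

/-- the list `(D n, E n), …, (D 1, E 1)` -/
def EL (D : ℕ → ℕ) (E : ℕ → MvPolynomial (Fin N) K) : ℕ → List (ℕ × MvPolynomial (Fin N) K)
  | 0 => []
  | n + 1 => (D (n + 1), E (n + 1)) :: EL D E n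

lemma EL_length (D : ℕ → ℕ) (E : ℕ → MvPolynomial (Fin N) K) (n : ℕ) :
    (EL D E n).length = n := by
  induction n with
  | zero => rfl
  | succ n ih => rw [EL, List.length_cons, ih]

lemma mem_EL {D : ℕ → ℕ} {E : ℕ → MvPolynomial (Fin N) K} {n : ℕ}
    {a : ℕ × MvPolynomial (Fin N) K} :
    a ∈ EL D E n ↔ ∃ i, 1 ≤ i ∧ i ≤ n ∧ a = (D i, E i) := by
  induction n with
  | zero =>
    simp only [EL, List.not_mem_nil, false_iff]
    rintro ⟨i, h1, h2, -⟩
    omega
  | succ n ih =>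
    rw [EL, List.mem_cons, ih]
    constructor
    · rintro (h | ⟨i, h1, h2, h3⟩)
      · exact ⟨n + 1, by omega, le_rfl, h⟩
      · exact ⟨i, h1, by omega, h3⟩
    · rintro ⟨i, h1, h2, h3⟩
      rcases Nat.lt_or_ge n i with h | h
      · have : i = n + 1 := by omega
        subst this
        exact Or.inl h3
      · exact Or.inr ⟨i, h1, h, h3⟩

lemma EL_congr {D D' : ℕ → ℕ} {E E' : ℕ → MvPolynomial (Fin N) K} {n : ℕ}
    (h : ∀ i, 1 ≤ i → i ≤ n → D i = D' i ∧ E i = E' i) : EL D E n = EL D' E' n := by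
  induction n with
  | zero => rfl
  | succ n ih =>
    rw [EL, EL, ih fun i h1 h2 => h i h1 (by omega), (h (n + 1) (by omega) le_rfl).1,
      (h (n + 1) (by omega) le_rfl).2]

lemma pd_EL (D : ℕ → ℕ) (E : ℕ → MvPolynomial (Fin N) K) (n : ℕ) :
    pd (EL D E n) = ∏ i ∈ Finset.Icc 1 n, D i := by
  induction n with
  | zero => simp [EL, pd]
  | succ n ih =>
    rw [EL, pd, List.map_cons, List.prod_cons, Finset.prod_Icc_succ_top (by omega), mul_comm]
    unfold pd at ih
    rw [ih]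

lemma sd_EL (D : ℕ → ℕ) (E : ℕ → MvPolynomial (Fin N) K) (n : ℕ) :
    sd (EL D E n) = ∑ i ∈ Finset.Icc 1 n, (D i - 1) := by
  induction n with
  | zero => simp [EL, sd]
  | succ n ih =>
    rw [EL, sd, List.map_cons, List.sum_cons, Finset.sum_Icc_succ_top (by omega), add_comm]
    unfold sd at ih
    rw [ih]

lemma WR_EL_le {D : ℕ → ℕ} {E : ℕ → MvPolynomial (Fin N) K} {n k : ℕ} (hk : k ≤ n)
    (h : WR (EL D E n)) : WR (EL D E k) := by
  induction n with
  | zero =>
    have : k = 0 := by omega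
    subst this
    exact h
  | succ n ih =>
    rcases Nat.lt_or_ge n k with h1 | h1
    · have : k = n + 1 := by omega
      subst this
      exact h
    · exact ih h1 h.1

/-- height condition -/
def Ht (l : List (ℕ × MvPolynomial (Fin N) K)) : Prop :=
  ∀ 𝔭 : Ideal (MvPolynomial (Fin N) K), 𝔭.IsPrime → IL l ≤ 𝔭 → (l.length : ℕ∞) ≤ 𝔭.height

lemma Ht_cons {l : List (ℕ × MvPolynomial (Fin N) K)} {a : ℕ × MvPolynomial (Fin N) K}
    (hl : Ht l) (ha : ∀ 𝔮 ∈ (IL l).minimalPrimes, a.2 ∉ 𝔮) : Ht (a :: l) := by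
  intro 𝔭 h𝔭 hle
  rw [IL_cons] at hle
  obtain ⟨𝔮, h𝔮, h𝔮𝔭⟩ := Ideal.exists_minimalPrimes_le (le_sup_left.trans hle)
  have h𝔮p : 𝔮.IsPrime := h𝔮.1.1
  have hlt : 𝔮 < 𝔭 := by
    refine lt_of_le_of_ne h𝔮𝔭 ?_
    rintro rfl
    exact ha 𝔮 h𝔮 (hle (Ideal.mem_sup_right (Ideal.mem_span_singleton_self _)))
  have h1 := hl 𝔮 h𝔮p h𝔮.1.2
  have h2 := Ideal.height_add_one_le_of_lt_of_isPrime hlt
  rw [List.length_cons]
  push_cast
  exact (add_le_add_left h1 1).trans h2

lemma WR.ht {l : List (ℕ × MvPolynomial (Fin N) K)} (h : WR l) : Ht l := by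
  induction l with
  | nil =>
    intro 𝔭 _ _
    simp
  | cons a l ih =>
    refine Ht_cons (ih h.1) ?_
    intro 𝔮 h𝔮 ha
    obtain ⟨y, hy, hay⟩ := Ideal.exists_mul_mem_of_mem_minimalPrimes h𝔮 ha
    exact hy (h.2 y hay)

lemma height_le_length {l : List (ℕ × MvPolynomial (Fin N) K)}
    {𝔮 : Ideal (MvPolynomial (Fin N) K)} (h : 𝔮 ∈ (IL l).minimalPrimes) :
    𝔮.height ≤ (l.length : ℕ∞) := by
  classical
  have h1 : IL l = Ideal.span ((l.map Prod.snd).toFinset : Set (MvPolynomial (Fin N) K)) := by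
    unfold IL
    congr 1
    ext x
    simp
  rw [h1] at h
  refine (Ideal.height_le_card_of_mem_minimalPrimes_span_finset h).trans ?_
  have h2 := List.toFinset_card_le (l.map Prod.snd)
  rw [List.length_map] at h2
  exact_mod_cast h2

/-- avoiding finitely many ideals in one degree -/
lemma exists_avoid [Infinite K] {J : Ideal (MvPolynomial (Fin N) K)} {d : ℕ}
    {T : Set (Ideal (MvPolynomial (Fin N) K))} (hT : T.Finite)
    (h : ∀ 𝔮 ∈ T, ∃ f ∈ J, f.IsHomogeneous d ∧ f ∉ 𝔮) :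
    ∃ f ∈ J, f.IsHomogeneous d ∧ ∀ 𝔮 ∈ T, f ∉ 𝔮 := by
  classical
  let U : Ideal (MvPolynomial (Fin N) K) → Submodule K (Jn J d) := fun 𝔮 =>
    (Submodule.restrictScalars K 𝔮).comap (Jn J d).subtype
  have hU : ∀ 𝔮 (x : Jn J d), x ∈ U 𝔮 ↔ (x : MvPolynomial (Fin N) K) ∈ 𝔮 := fun 𝔮 x => Iff.rfl
  have h1 : (⊤ : Submodule K (Jn J d)) ∉ hT.toFinset.image U := by
    intro hh
    obtain ⟨𝔮, h𝔮, hx⟩ := Finset.mem_image.1 hh
    obtain ⟨f, hfJ, hf, hf𝔮⟩ := h 𝔮 (hT.mem_toFinset.1 h𝔮)
    apply hf𝔮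
    have : (⟨f, ⟨hfJ, hf⟩⟩ : Jn J d) ∈ U 𝔮 := by rw [hx]; trivial
    exact this
  have h2 := Subspace.biUnion_ne_univ_of_top_notMem h1
  obtain ⟨a, ha⟩ := (Set.ne_univ_iff_exists_notMem _).1 h2
  refine ⟨a, a.2.1, a.2.2, fun 𝔮 h𝔮 hx => ha ?_⟩
  exact Set.mem_biUnion
    (Finset.mem_coe.2 (Finset.mem_image_of_mem U (hT.mem_toFinset.2 h𝔮))) hx

/-- one step of the extension -/
lemma ext_step [Infinite K] {n r : ℕ} {D : ℕ → ℕ} {E : ℕ → MvPolynomial (Fin N) K}
    (hrn : r < n) (hD1 : ∀ i, 1 ≤ i → i ≤ n → 1 ≤ D i)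
    (hmono : ∀ i j, 1 ≤ i → i ≤ j → j ≤ n → D i ≤ D j)
    (hE : ∀ i, 1 ≤ i → i ≤ n → (E i).IsHomogeneous (D i)) (hwr : WR (EL D E n))
    {J : Ideal (MvPolynomial (Fin N) K)} (hJ : ∀ i, 1 ≤ i → i ≤ n → E i ∈ J)
    {q : List (ℕ × MvPolynomial (Fin N) K)} (hq : q.length = r) (hHt : Ht q) :
    ∃ f ∈ J, f.IsHomogeneous (D (r + 1)) ∧ Ht ((D (r + 1), f) :: q) := by
  obtain ⟨f, hfJ, hf, hf2⟩ := exists_avoid (J := J) (d := D (r + 1))
    (Ideal.finite_minimalPrimes_of_isNoetherianRing _ (IL q)) (by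
      intro 𝔮 h𝔮
      by_contra hcon
      push Not at hcon
      have h𝔮p : 𝔮.IsPrime := h𝔮.1.1
      have hlow : 𝔮.height ≤ (r : ℕ∞) := by
        rw [← hq]
        exact height_le_length h𝔮
      by_cases hX : ∃ l : Fin N, (X l : MvPolynomial (Fin N) K) ∉ 𝔮
      · obtain ⟨l, hl⟩ := hX
        have h1 : IL (EL D E (r + 1)) ≤ 𝔮 := by
          refine IL_le ?_
          intro a ha
          obtain ⟨i, h1, h2, rfl⟩ := mem_EL.1 ha
          have h3 : D i ≤ D (r + 1) := hmono i (r + 1) h1 h2 (by omega)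
          have h4 : (X l : MvPolynomial (Fin N) K) ^ (D (r + 1) - D i) * E i ∈ 𝔮 := by
            refine hcon _ (J.mul_mem_left _ (hJ i h1 (by omega))) ?_
            have h5 := ((isHomogeneous_X K l).pow (D (r + 1) - D i)).mul (hE i h1 (by omega))
            rw [one_mul, Nat.sub_add_cancel h3] at h5
            exact h5
          rcases h𝔮p.mem_or_mem h4 with h5 | h5
          · exact absurd (h𝔮p.mem_of_pow_mem _ h5) hl
          · exact h5
        have h2 := (WR_EL_le (by omega : r + 1 ≤ n) hwr).ht 𝔮 h𝔮p h1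
        rw [EL_length] at h2
        have h3 := h2.trans hlow
        have h4 : r + 1 ≤ r := by exact_mod_cast h3
        omega
      · push Not at hX
        have h3 : idealOfVars (Fin N) K ≤ 𝔮 := by
          rw [idealOfVars, Ideal.span_le]
          rintro _ ⟨i, rfl⟩
          exact hX i
        have h1 : IL (EL D E n) ≤ 𝔮 := by
          refine IL_le ?_
          intro a ha
          obtain ⟨i, h1, h2, rfl⟩ := mem_EL.1 ha
          apply h3
          have h4 : E i ∈ idealOfVars (Fin N) K ^ 1 := by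
            rw [mem_pow_idealOfVars_iff]
            intro x hx
            have h5 : Finsupp.degree x = D i := by
              rw [Finsupp.degree_eq_weight_one]
              exact hE i h1 h2 (MvPolynomial.mem_support_iff.1 hx)
            rw [h5]
            exact hD1 i h1 h2
          rwa [pow_one] at h4
        have h2 := hwr.ht 𝔮 h𝔮p h1
        rw [EL_length] at h2
        have h3 := h2.trans hlow
        have h4 : n ≤ r := by exact_mod_cast h3
        omega)
  exact ⟨f, hfJ, hf, Ht_cons hHt hf2⟩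

/-- extension of a partial system of parameters -/
lemma ext_all [Infinite K] {n r : ℕ} {D : ℕ → ℕ} {E : ℕ → MvPolynomial (Fin N) K}
    (hrn : r ≤ n) (hD1 : ∀ i, 1 ≤ i → i ≤ n → 1 ≤ D i)
    (hmono : ∀ i j, 1 ≤ i → i ≤ j → j ≤ n → D i ≤ D j)
    (hE : ∀ i, 1 ≤ i → i ≤ n → (E i).IsHomogeneous (D i)) (hwr : WR (EL D E n))
    {J : Ideal (MvPolynomial (Fin N) K)} (hJ : ∀ i, 1 ≤ i → i ≤ n → E i ∈ J)
    {D' : ℕ → ℕ} {E' : ℕ → MvPolynomial (Fin N) K} (hHt : Ht (EL D' E' r))
    (hD' : ∀ i, r < i → i ≤ n → D' i = D i) :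
    ∃ E'' : ℕ → MvPolynomial (Fin N) K, (∀ i, i ≤ r → E'' i = E' i) ∧
      (∀ i, r < i → i ≤ n → E'' i ∈ J ∧ (E'' i).IsHomogeneous (D' i)) ∧
      Ht (EL D' E'' n) := by
  classical
  suffices H : ∀ k, r + k ≤ n → ∃ E'' : ℕ → MvPolynomial (Fin N) K, (∀ i, i ≤ r → E'' i = E' i) ∧
      (∀ i, r < i → i ≤ r + k → E'' i ∈ J ∧ (E'' i).IsHomogeneous (D' i)) ∧
      Ht (EL D' E'' (r + k)) by
    obtain ⟨k, rfl⟩ := Nat.exists_eq_add_of_le hrn
    exact H k le_rfl
  intro k
  induction k with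
  | zero =>
    intro _
    exact ⟨E', fun _ _ => rfl, fun i h1 h2 => by omega, hHt⟩
  | succ k ih =>
    intro hk
    obtain ⟨E₀, h1, h2, h3⟩ := ih (by omega)
    obtain ⟨f, hfJ, hf, hf2⟩ := ext_step (r := r + k) (n := n) (by omega) hD1 hmono hE hwr hJ
      (EL_length D' E₀ (r + k)) h3
    refine ⟨Function.update E₀ (r + k + 1) f, ?_, ?_, ?_⟩
    · intro i hi
      rw [Function.update_of_ne (by omega)]
      exact h1 i hi
    · intro i hi1 hi2
      by_cases hi : i = r + k + 1
      · subst hi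
        rw [Function.update_self, hD' _ hi1 (by omega)]
        exact ⟨hfJ, hf⟩
      · rw [Function.update_of_ne hi]
        exact h2 i hi1 (by omega)
    · have e1 : r + (k + 1) = (r + k) + 1 := by omega
      rw [e1, EL, Function.update_self, hD' (r + k + 1) (by omega) (by omega)]
      have e2 : EL D' (Function.update E₀ (r + k + 1) f) (r + k) = EL D' E₀ (r + k) := by
        apply EL_congr
        intro i _ hi
        refine ⟨rfl, ?_⟩
        rw [Function.update_of_ne (by omega)]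
      rw [e2]
      exact hf2

/-- the height condition for `N` forms in `N` variables implies that there is no common zero -/
lemma NZ_of_Ht {l : List (ℕ × MvPolynomial (Fin N) K)} (hlen : l.length = N)
    (hok : ∀ a ∈ l, okf a) (h : Ht l) : NZ l := by
  classical
  intro x hx
  by_contra hx0
  obtain ⟨j, hj⟩ : ∃ j, x j ≠ 0 := by
    by_contra hcon
    push Not at hcon
    exact hx0 (funext hcon)
  -- the prime ideal of the line through `x`
  let θ : MvPolynomial (Fin N) K →ₐ[K] Polynomial K :=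
    aeval fun i => algebraMap K (Polynomial K) (x i) * Polynomial.X
  let 𝔭 : Ideal (MvPolynomial (Fin N) K) := RingHom.ker θ
  let 𝔪 : Ideal (MvPolynomial (Fin N) K) :=
    RingHom.ker (eval (0 : Fin N → K) : MvPolynomial (Fin N) K →+* K)
  have h𝔭 : 𝔭.IsPrime := RingHom.ker_isPrime _
  have h𝔪 : 𝔪.IsPrime := RingHom.ker_isPrime _
  have h1 : IL l ≤ 𝔭 := by
    refine IL_le fun a ha => ?_
    change θ a.2 = 0
    have h2 := aeval_smul_const (R := Polynomial K) x Polynomial.X (hok a ha).2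
    change aeval (fun i => algebraMap K (Polynomial K) (x i) * Polynomial.X) a.2 = 0
    rw [h2, hx a ha, map_zero, zero_mul]
  have hvars : idealOfVars (Fin N) K ≤ 𝔪 := by
    rw [idealOfVars, Ideal.span_le]
    rintro _ ⟨i, rfl⟩
    change eval (0 : Fin N → K) (X i) = 0
    rw [eval_X]
    rfl
  have hcompare : 𝔭 ≤ 𝔪 := by
    intro f hf
    change eval (0 : Fin N → K) f = 0
    have h2 : θ f = 0 := hf
    have h3 : Polynomial.eval 0 (θ f) = eval (0 : Fin N → K) f := by
      have h4 : ((Polynomial.evalRingHom (0 : K)).comp (θ : MvPolynomial (Fin N) K →+* Polynomial K)) =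
          (eval (0 : Fin N → K) : MvPolynomial (Fin N) K →+* K) := by
        apply MvPolynomial.ringHom_ext
        · intro c
          simp [θ]
        · intro i
          simp [θ]
      exact congrArg (fun k : MvPolynomial (Fin N) K →+* K => k f) h4
    rw [← h3, h2, Polynomial.eval_zero]
  have hlt : 𝔭 < 𝔪 := by
    refine lt_of_le_of_ne hcompare ?_
    intro heq
    have h2 : (X j : MvPolynomial (Fin N) K) ∈ 𝔪 := hvars (Ideal.subset_span ⟨j, rfl⟩)
    rw [← heq] at h2
    have h3 : θ (X j) = 0 := h2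
    have h4 : algebraMap K (Polynomial K) (x j) * Polynomial.X = 0 := by
      rw [← h3]
      simp [θ]
    rcases mul_eq_zero.1 h4 with h5 | h5
    · apply hj
      exact (map_eq_zero (algebraMap K (Polynomial K))).1 h5
    · exact Polynomial.X_ne_zero h5
  have h2 := h 𝔭 h𝔭 h1
  have h3 := Ideal.height_add_one_le_of_lt_of_isPrime hlt
  -- height of `𝔪` is at most `N`
  have h4 : 𝔪.height ≤ (N : ℕ∞) := by
    have h5 : 𝔪 ∈ (Ideal.span ((Finset.univ.image fun i : Fin N =>
        (X i : MvPolynomial (Fin N) K)) : Set (MvPolynomial (Fin N) K))).minimalPrimes := by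
      refine ⟨⟨h𝔪, ?_⟩, ?_⟩
      · rw [Ideal.span_le]
        rintro _ hy
        obtain ⟨i, -, rfl⟩ := Finset.mem_image.1 (Finset.mem_coe.1 hy)
        exact hvars (Ideal.subset_span ⟨i, rfl⟩)
      · rintro 𝔮 ⟨h𝔮, hle⟩ _ f hf
        have hf0 : eval (0 : Fin N → K) f = 0 := hf
        have hcoef : constantCoeff f = 0 := by
          rw [← hf0, MvPolynomial.eval_zero]
        have h6 : f ∈ idealOfVars (Fin N) K ^ 1 := by
          rw [mem_pow_idealOfVars_iff]
          intro m hm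
          by_contra hm1
          have hm0 : m = 0 := by
            have : Finsupp.degree m = 0 := by omega
            exact (Finsupp.degree_eq_zero_iff m).1 this
          subst hm0
          exact (MvPolynomial.mem_support_iff.1 hm) hcoef
        rw [pow_one, idealOfVars] at h6
        refine (Ideal.span_le.2 ?_) h6
        rintro _ ⟨i, rfl⟩
        apply hle
        exact Ideal.subset_span (Finset.mem_coe.2 (Finset.mem_image_of_mem _ (Finset.mem_univ i)))
    refine (Ideal.height_le_card_of_mem_minimalPrimes_span_finset h5).trans ?_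
    have h6 : (Finset.univ.image fun i : Fin N => (X i : MvPolynomial (Fin N) K)).card ≤ N := by
      refine Finset.card_image_le.trans ?_
      simp
    exact_mod_cast h6
  rw [hlen] at h2
  have h5 : ((N : ℕ∞) + 1) ≤ N := ((add_le_add_left h2 1).trans h3).trans h4
  have h6 : N + 1 ≤ N := by exact_mod_cast h5
  omega

end Pool.Agent.CB
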