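import Mathlib
import Pool.Agent.CB.CIHeight

/-!
# Macaulay duality for complete intersections
-/

set_option autoImplicit false
set_option linter.all false

noncomputable section

namespace Pool.Agent.CB

open Module MvPolynomial

variable {K : Type*} [Field K] {N : ℕ}

/-- annihilator ideal -/
def Ann (φ : MvPolynomial (Fin N) K →ₗ[K] K) : Ideal (MvPolynomial (Fin N) K) where
  carrier := {g | act g φ = 0}
  add_mem' := by
    intro a b ha hb
    simp only [Set.mem_setOf_eq] at *
    rw [act_add, ha, hb, add_zero]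
  zero_mem' := by
    change act 0 φ = 0
    apply LinearMap.ext
    intro x
    simp
  smul_mem' := by
    intro c x hx
    simp only [Set.mem_setOf_eq, smul_eq_mul] at *
    rw [mul_comm, act_mul, hx, map_zero]

lemma mem_Ann {φ : MvPolynomial (Fin N) K →ₗ[K] K} {g : MvPolynomial (Fin N) K} :
    g ∈ Ann φ ↔ act g φ = 0 := Iff.rfl

lemma mem_Ann' {φ : MvPolynomial (Fin N) K →ₗ[K] K} {g : MvPolynomial (Fin N) K} :
    g ∈ Ann φ ↔ ∀ f, φ (g * f) = 0 := by
  rw [mem_Ann]
  constructor
  · intro h f
    rw [← act_apply, h, LinearMap.zero_apply]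
  · intro h
    apply LinearMap.ext
    intro f
    rw [act_apply, h, LinearMap.zero_apply]

lemma HI_Ann {φ : MvPolynomial (Fin N) K →ₗ[K] K} {t : ℕ} (hφ : φ ∈ DD K N t) : HI (Ann φ) := by
  intro g hg n
  rw [mem_Ann']
  intro f
  have key : ∀ k (u : MvPolynomial (Fin N) K), u.IsHomogeneous k →
      φ (homogeneousComponent n g * u) = 0 := by
    intro k u hu
    by_cases hk : n + k = t
    · have h1 : φ (g * u) = 0 := mem_Ann'.1 hg u
      rw [← sum_homogeneousComponent g, Finset.sum_mul, map_sum] at h1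
      by_cases hn : n ∈ Finset.range (g.totalDegree + 1)
      · rw [Finset.sum_eq_single_of_mem n hn] at h1
        · exact h1
        · intro m _ hm
          exact hφ _ _ ((homogeneousComponent_isHomogeneous m g).mul hu) (by omega)
      · have h0 : homogeneousComponent n g = 0 := by
          apply homogeneousComponent_eq_zero
          simp only [Finset.mem_range, not_lt] at hn
          omega
        rw [h0, zero_mul, map_zero]
    · exact hφ _ _ ((homogeneousComponent_isHomogeneous n g).mul hu) hk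
  rw [← sum_homogeneousComponent f, Finset.mul_sum, map_sum]
  exact Finset.sum_eq_zero fun k _ => key k _ (homogeneousComponent_isHomogeneous k f)

lemma mem_Ann_of_lt {φ : MvPolynomial (Fin N) K →ₗ[K] K} {t s : ℕ} (hφ : φ ∈ DD K N t)
    (hs : t < s) {f : MvPolynomial (Fin N) K} (hf : f.IsHomogeneous s) : f ∈ Ann φ := by
  rw [mem_Ann']
  intro u
  rw [← sum_homogeneousComponent u, Finset.mul_sum, map_sum]
  exact Finset.sum_eq_zero fun k _ =>
    hφ _ _ (hf.mul (homogeneousComponent_isHomogeneous k u)) (by omega)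

lemma finrank_P_eq (φ : MvPolynomial (Fin N) K →ₗ[K] K) (s : ℕ) :
    finrank K (P φ s) = hd (Ann φ) s := by
  have h1 := finrank_map_add_inf_ker (actφ φ) (homogeneousSubmodule (Fin N) K s)
  have h2 : (homogeneousSubmodule (Fin N) K s ⊓ LinearMap.ker (actφ φ) : Submodule K _) =
      Jn (Ann φ) s := by
    ext x
    rw [Submodule.mem_inf, LinearMap.mem_ker, mem_Jn, mem_Ann, actφ_apply]
    exact and_comm
  rw [h2] at h1
  have h3 := hd_add (Ann φ) s
  unfold P
  omega

lemma Ann_act (g : MvPolynomial (Fin N) K) (Ψ : MvPolynomial (Fin N) K →ₗ[K] K) :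
    Ann (act g Ψ) = col (Ann Ψ) g := by
  ext x
  rw [mem_Ann, mem_col, mem_Ann, act_mul]

/-- the dual generator of a complete intersection -/
lemma CI.exists_dual {l : List (ℕ × MvPolynomial (Fin N) K)} (hok : ∀ a ∈ l, okf a)
    (h : CI l) : ∃ Ψ ∈ DD K N (sd l), Ann Ψ = IL l := by
  have hI := HI_IL hok
  obtain ⟨f0, hf0, hf0I⟩ : ∃ f0 : MvPolynomial (Fin N) K, f0.IsHomogeneous (sd l) ∧
      f0 ∉ IL l := by
    by_contra hcon
    push Not at hcon
    have h1 := hd_eq_zero_iff.2 hcon
    rw [h.top] at h1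
    omega
  have hf0' : f0 ∉ Jn (IL l) (sd l) := fun hx => hf0I hx.1
  obtain ⟨θ, hθ0, hθ⟩ := Submodule.exists_le_ker_of_notMem hf0'
  -- the kernel of `θ` on `S_sd`
  have hker : ∀ x : MvPolynomial (Fin N) K, x.IsHomogeneous (sd l) → θ x = 0 → x ∈ IL l := by
    have h1 := finrank_map_add_inf_ker θ (homogeneousSubmodule (Fin N) K (sd l))
    have h2 : 1 ≤ finrank K ((homogeneousSubmodule (Fin N) K (sd l)).map θ) := by
      rw [Nat.one_le_iff_ne_zero]
      intro h0
      rw [Submodule.finrank_eq_zero] at h0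
      have : θ f0 ∈ (homogeneousSubmodule (Fin N) K (sd l)).map θ := ⟨f0, hf0, rfl⟩
      rw [h0, Submodule.mem_bot] at this
      exact hθ0 this
    have h3 := hd_add (IL l) (sd l)
    rw [h.top] at h3
    have hfd : FiniteDimensional K
        (homogeneousSubmodule (Fin N) K (sd l) ⊓ LinearMap.ker θ : Submodule K _) :=
      Submodule.finiteDimensional_of_le inf_le_left
    have h4 : Jn (IL l) (sd l) = homogeneousSubmodule (Fin N) K (sd l) ⊓ LinearMap.ker θ := by
      apply Submodule.eq_of_le_of_finrank_le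
      · exact le_inf (Jn_le _ _) hθ
      · omega
    intro x hx hx0
    have h5 : x ∈ Jn (IL l) (sd l) := by
      rw [h4]
      exact ⟨hx, hx0⟩
    exact h5.1
  refine ⟨θ ∘ₗ homogeneousComponent (sd l), ?_, ?_⟩
  · intro f m hf hm
    rw [LinearMap.comp_apply, homogeneousComponent_of_mem ((mem_homogeneousSubmodule _ _).2 hf),
      if_neg (by omega), map_zero]
  · have hmem : ∀ (k j : ℕ) (u : MvPolynomial (Fin N) K), j + k = sd l → u.IsHomogeneous j →
        u ∉ IL l → ∃ f, (θ ∘ₗ homogeneousComponent (sd l)) (u * f) ≠ 0 := by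
      intro k
      induction k with
      | zero =>
        intro j u hj hu hu0
        refine ⟨1, ?_⟩
        rw [add_zero] at hj
        subst hj
        rw [mul_one, LinearMap.comp_apply, homogeneousComponent_eq_self hu]
        intro h0
        exact hu0 (hker u hu h0)
      | succ k ih =>
        intro j u hj hu hu0
        by_cases hX : ∀ i : Fin N, X i * u ∈ IL l
        · have := h.soc j u hu hu0 hX
          omega
        · push Not at hX
          obtain ⟨i, hi⟩ := hX
          have h1 := (isHomogeneous_X K i).mul hu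
          obtain ⟨f, hf⟩ := ih (1 + j) (X i * u) (by omega) h1 hi
          refine ⟨X i * f, ?_⟩
          have e1 : u * (X i * f) = X i * u * f := by ring
          rw [e1]
          exact hf
    have hDD : (θ ∘ₗ homogeneousComponent (sd l)) ∈ DD K N (sd l) := by
      intro f m hf hm
      rw [LinearMap.comp_apply, homogeneousComponent_of_mem ((mem_homogeneousSubmodule _ _).2 hf),
        if_neg (by omega), map_zero]
    apply le_antisymm
    · intro u hu
      apply mem_of_comps
      intro n
      by_contra hn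
      have h1 := HI_Ann hDD u hu n
      have h2 := homogeneousComponent_isHomogeneous n u
      by_cases hns : n ≤ sd l
      · obtain ⟨k, hk⟩ := Nat.exists_eq_add_of_le hns
        obtain ⟨f, hf⟩ := hmem k n _ hk.symm h2 hn
        exact hf (mem_Ann'.1 h1 f)
      · exact hn (hd_eq_zero_iff.1 (h.zero n (by omega)) _ h2)
    · intro u hu
      rw [mem_Ann']
      intro f
      rw [LinearMap.comp_apply]
      have h1 : homogeneousComponent (sd l) (u * f) ∈ Jn (IL l) (sd l) :=
        ⟨hI _ (Ideal.mul_mem_right _ _ hu) _, homogeneousComponent_isHomogeneous _ _⟩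
      exact LinearMap.mem_ker.1 (hθ h1)

/-- every functional annihilated by `Ann Ψ` is of the form `g · Ψ` -/
lemma exists_repr {Ψ φ : MvPolynomial (Fin N) K →ₗ[K] K} {s t γ : ℕ} (hΨ : Ψ ∈ DD K N s)
    (hφ : φ ∈ DD K N t) (hst : t + γ = s) (hle : Ann Ψ ≤ Ann φ) :
    ∃ g : MvPolynomial (Fin N) K, g.IsHomogeneous γ ∧ act g Ψ = φ := by
  let B := BB Ψ t γ
  have h1 : (LinearMap.ker B).dualAnnihilator = LinearMap.range B.flip :=
    LinearMap.dualAnnihilator_ker_eq_range_flip
  have h2 : (φ ∘ₗ (homogeneousSubmodule (Fin N) K t).subtype) ∈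
      (LinearMap.ker B).dualAnnihilator := by
    rw [Submodule.mem_dualAnnihilator]
    intro x hx
    rw [LinearMap.mem_ker] at hx
    have h3 : act x.1 Ψ = 0 := by
      refine eq_zero_of_DD (i := γ) (act_mem_DD x.2 (by rw [add_comm, hst]; exact hΨ)) ?_
      intro f hf
      have h4 := LinearMap.congr_fun hx ⟨f, hf⟩
      exact h4
    have h5 : x.1 ∈ Ann φ := hle h3
    have h6 := mem_Ann'.1 h5 1
    rw [mul_one] at h6
    exact h6
  rw [h1] at h2
  obtain ⟨g, hg⟩ := h2
  refine ⟨g.1, g.2, ?_⟩
  have h7 : act g.1 Ψ ∈ DD K N t := act_mem_DD g.2 (by rw [hst]; exact hΨ)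
  have h8 : act g.1 Ψ - φ = 0 := by
    refine eq_zero_of_DD (Submodule.sub_mem _ h7 hφ) ?_
    intro f hf
    have h9 := LinearMap.congr_fun hg ⟨f, hf⟩
    rw [LinearMap.flip_apply] at h9
    have h10 : Ψ (f * g.1) = φ f := h9
    rw [LinearMap.sub_apply, act_apply, mul_comm, h10, sub_self]
  exact sub_eq_zero.1 h8

end Pool.Agent.CB
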