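import Mathlib
import Pool.Agent.CB.CIDual

/-!
# The length of a Gorenstein quotient containing a form of small degree
-/

set_option autoImplicit false
set_option linter.all false

noncomputable section

namespace Pool.Agent.CB

open Module MvPolynomial

variable {K : Type*} [Field K] {N : ℕ}

lemma Icc_split {n : ℕ} (hn : 2 ≤ n) :
    Finset.Icc 1 n = insert 1 (insert 2 (Finset.Icc 3 n)) := by
  ext i
  simp only [Finset.mem_Icc, Finset.mem_insert]
  omega

lemma prod_split {n : ℕ} (hn : 2 ≤ n) (f : ℕ → ℕ) :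
    ∏ i ∈ Finset.Icc 1 n, f i = f 1 * (f 2 * ∏ i ∈ Finset.Icc 3 n, f i) := by
  rw [Icc_split hn, Finset.prod_insert, Finset.prod_insert]
  · simp
  · simp

lemma sum_split {n : ℕ} (hn : 2 ≤ n) (f : ℕ → ℕ) :
    ∑ i ∈ Finset.Icc 1 n, f i = f 1 + (f 2 + ∑ i ∈ Finset.Icc 3 n, f i) := by
  rw [Icc_split hn, Finset.sum_insert, Finset.sum_insert]
  · simp
  · simp

/-- sum of the Hilbert functions in the colon sequence -/
lemma sum_col {I : Ideal (MvPolynomial (Fin N) K)} (hI : HI I) {g : MvPolynomial (Fin N) K}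
    {γ : ℕ} (hg : g.IsHomogeneous γ) (M : ℕ) :
    ∑ j ∈ Finset.range M, hd (col I g) j +
      ∑ j ∈ Finset.range (γ + M), hd (I ⊔ Ideal.span {g}) j =
        ∑ j ∈ Finset.range (γ + M), hd I j := by
  rw [Finset.sum_range_add, Finset.sum_range_add]
  have h1 : ∑ j ∈ Finset.range γ, hd (I ⊔ Ideal.span {g}) j = ∑ j ∈ Finset.range γ, hd I j :=
    Finset.sum_congr rfl fun j hj => hd_low hI hg (Finset.mem_range.1 hj)
  have h2 : ∑ j ∈ Finset.range M, hd I (γ + j) = ∑ j ∈ Finset.range M, hd (col I g) j +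
      ∑ j ∈ Finset.range M, hd (I ⊔ Ideal.span {g}) (γ + j) := by
    rw [← Finset.sum_add_distrib]
    refine Finset.sum_congr rfl fun j _ => ?_
    have := hd_col hI hg j
    rw [add_comm γ j]
    exact this.symm
  rw [h1, h2]
  ring

lemma hd_top (j : ℕ) : hd (⊤ : Ideal (MvPolynomial (Fin N) K)) j = 0 :=
  hd_eq_zero_iff.2 fun _ _ => trivial

lemma okf_EL {D : ℕ → ℕ} {E : ℕ → MvPolynomial (Fin N) K} {n : ℕ}
    (hD : ∀ i, 1 ≤ i → i ≤ n → 1 ≤ D i)
    (hE : ∀ i, 1 ≤ i → i ≤ n → (E i).IsHomogeneous (D i)) : ∀ a ∈ EL D E n, okf a := by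
  intro a ha
  obtain ⟨i, h1, h2, rfl⟩ := mem_EL.1 ha
  exact ⟨hD i h1 h2, hE i h1 h2⟩

/-- the arithmetic at the end -/
lemma final_arith {a e d2 γ A : ℕ} (ha1 : 1 ≤ a) (hae : a ≤ e + 1)
    (hγ : γ + e = (a - 1) + (d2 - 1)) (hd2 : 1 ≤ d2) :
    (e + 1) * A + a * (γ * A) ≤ a * (d2 * A) := by
  obtain ⟨x, rfl⟩ := Nat.exists_eq_add_of_le ha1
  obtain ⟨y, hy⟩ := Nat.exists_eq_add_of_le hae
  obtain ⟨z, rfl⟩ := Nat.exists_eq_add_of_le hd2
  have h1 : γ + y = z := by omega
  have h2 : e = x + y := by omega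
  subst h1 h2
  have h3 : (1 + x) * ((1 + (γ + y)) * A) =
      (x + y + 1) * A + (1 + x) * (γ * A) + x * y * A := by ring
  rw [h3]
  exact Nat.le_add_right _ _

theorem k1_core [IsAlgClosed K] {n : ℕ} (hn : 2 ≤ n) {d : ℕ → ℕ}
    {F : ℕ → MvPolynomial (Fin n) K}
    (hd1 : ∀ i, 1 ≤ i → i ≤ n → 1 ≤ d i)
    (hmono : ∀ i j, 1 ≤ i → i ≤ j → j ≤ n → d i ≤ d j)
    (hF : ∀ i, 1 ≤ i → i ≤ n → (F i).IsHomogeneous (d i))
    {φ : MvPolynomial (Fin n) K →ₗ[K] K} {t e : ℕ} (hφ : φ ∈ DD K n t) (hφ0 : φ ≠ 0)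
    (hFφ : ∀ i, 1 ≤ i → i ≤ n → F i ∈ Ann φ) (hnz : NZ (EL d F n))
    (ht : t = e + ∑ i ∈ Finset.Icc 3 n, (d i - 1))
    (hu : ∃ u ∈ Ann φ, u ≠ 0 ∧ u.totalDegree ≤ e + 1) :
    (e + 1) * ∏ i ∈ Finset.Icc 3 n, d i ≤ ∑ s ∈ Finset.range (t + 1), finrank K (P φ s) := by
  classical
  have hinf : Infinite K := IsAlgClosed.instInfinite
  have hAnn := HI_Ann hφ
  -- nonzero homogeneous components
  have hcomp : ∀ u ∈ Ann φ, u ≠ 0 → ∃ k ≤ u.totalDegree, ∃ p ∈ Ann φ, p ≠ 0 ∧
      p.IsHomogeneous k := by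
    intro u hu hu0
    by_contra hcon
    push Not at hcon
    apply hu0
    rw [← sum_homogeneousComponent u]
    refine Finset.sum_eq_zero fun k hk => ?_
    by_contra h0
    exact hcon k (by rw [Finset.mem_range] at hk; omega) _ (hAnn u hu k) h0
      (homogeneousComponent_isHomogeneous k u)
  -- minimal degree
  have hex : ∃ k, ∃ p ∈ Ann φ, p ≠ 0 ∧ p.IsHomogeneous k := by
    obtain ⟨u, hu, hu0, -⟩ := hu
    obtain ⟨k, -, h⟩ := hcomp u hu hu0
    exact ⟨k, h⟩
  obtain ⟨a, ha⟩ : ∃ a, a = Nat.find hex := ⟨_, rfl⟩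
  obtain ⟨p, hpA, hp0, hp⟩ : ∃ p ∈ Ann φ, p ≠ 0 ∧ p.IsHomogeneous a := by
    rw [ha]; exact Nat.find_spec hex
  have hmin : ∀ u ∈ Ann φ, u ≠ 0 → a ≤ u.totalDegree := by
    intro u hu hu0
    obtain ⟨k, hk, h⟩ := hcomp u hu hu0
    rw [ha]
    exact (Nat.find_min' hex h).trans hk
  have hae : a ≤ e + 1 := by
    obtain ⟨u, hu, hu0, hue⟩ := hu
    exact (hmin u hu hu0).trans hue
  have ha1 : 1 ≤ a := by
    rw [Nat.one_le_iff_ne_zero]
    rintro h0
    rw [h0] at hp
    have h1 : p.totalDegree = 0 := Nat.le_zero.1 (IsHomogeneous.totalDegree_le hp)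
    rw [totalDegree_eq_zero_iff_eq_C] at h1
    have h2 : coeff 0 p ≠ 0 := by
      intro h3
      rw [h3, C_0] at h1
      exact hp0 h1
    apply hφ0
    apply LinearMap.ext
    intro f
    have h3 := mem_Ann'.1 hpA f
    rw [h1, ← smul_eq_C_mul, map_smul, smul_eq_mul] at h3
    exact (mul_eq_zero.1 h3).resolve_left h2
  -- the given complete intersection
  have hokF := okf_EL hd1 hF
  have hciF : CI (EL d F n) := CI_of_NZ _ (EL_length _ _ _) hokF hnz
  have hF1 : F 1 ≠ 0 := by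
    intro h0
    have h1 : WR (EL d F 1) := WR_EL_le (by omega) hciF.wr
    have h2 := h1.2 1
    rw [show EL d F 0 = [] from rfl, IL_nil] at h2
    have h3 : (1 : MvPolynomial (Fin n) K) ∈ (⊥ : Ideal (MvPolynomial (Fin n) K)) := by
      apply h2
      change F 1 * 1 ∈ _
      rw [h0, zero_mul]
      exact Ideal.zero_mem _
    rw [Ideal.mem_bot] at h3
    exact one_ne_zero h3
  have had : ∀ i, 1 ≤ i → i ≤ n → a ≤ d i := by
    intro i h1 h2
    have h3 := hmin (F 1) (hFφ 1 le_rfl (by omega)) hF1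
    rw [(hF 1 le_rfl (by omega)).totalDegree hF1] at h3
    exact h3.trans (hmono 1 i le_rfl h1 h2)
  -- first extension
  let D' : ℕ → ℕ := fun i => if i ≤ 1 then a else d i
  have hD'1 : D' 1 = a := by simp [D']
  have hD'2 : ∀ i, 1 < i → D' i = d i := by
    intro i hi
    simp only [D']
    rw [if_neg (by omega)]
  have hHt1 : Ht (EL D' (fun _ => p) 1) := by
    apply WR.ht
    refine ⟨trivial, ?_⟩
    intro u hu
    rw [show EL D' (fun _ => p) 0 = [] from rfl, IL_nil, Ideal.mem_bot] at hu ⊢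
    exact (mul_eq_zero.1 hu).resolve_left hp0
  obtain ⟨E, hE1, hE2, hE3⟩ := ext_all (by omega) hd1 hmono hF hciF.wr hFφ hHt1
    (fun i hi _ => hD'2 i hi)
  have hE1' : E 1 = p := hE1 1 le_rfl
  have hD'pos : ∀ i, 1 ≤ i → i ≤ n → 1 ≤ D' i := by
    intro i h1 h2
    rcases Nat.lt_or_ge 1 i with h | h
    · rw [hD'2 i h]; exact hd1 i h1 h2
    · have : i = 1 := by omega
      subst this
      rw [hD'1]; exact ha1
  have hEhom : ∀ i, 1 ≤ i → i ≤ n → (E i).IsHomogeneous (D' i) := by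
    intro i h1 h2
    rcases Nat.lt_or_ge 1 i with h | h
    · exact (hE2 i h h2).2
    · have : i = 1 := by omega
      subst this
      rw [hD'1, hE1']; exact hp
  have hEmem : ∀ i, 1 ≤ i → i ≤ n → E i ∈ Ann φ := by
    intro i h1 h2
    rcases Nat.lt_or_ge 1 i with h | h
    · exact (hE2 i h h2).1
    · have : i = 1 := by omega
      subst this
      rw [hE1']; exact hpA
  have hD'mono : ∀ i j, 1 ≤ i → i ≤ j → j ≤ n → D' i ≤ D' j := by
    intro i j h1 h2 h3
    rcases Nat.lt_or_ge 1 i with h | h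
    · rw [hD'2 i h, hD'2 j (by omega)]
      exact hmono i j h1 h2 h3
    · have : i = 1 := by omega
      subst this
      rcases Nat.lt_or_ge 1 j with h' | h'
      · rw [hD'1, hD'2 j h']
        exact had j (by omega) h3
      · have : j = 1 := by omega
        subst this
        exact le_rfl
  have hokE := okf_EL hD'pos hEhom
  have hciE : CI (EL D' E n) := CI_of_NZ _ (EL_length _ _ _) hokE
    (NZ_of_Ht (EL_length _ _ _) hokE hE3)
  obtain ⟨I, hIdef⟩ : ∃ I, I = IL (EL D' E n) := ⟨_, rfl⟩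
  have hIA : I ≤ Ann φ := by
    rw [hIdef]
    refine IL_le fun b hb => ?_
    obtain ⟨i, h1, h2, rfl⟩ := mem_EL.1 hb
    exact hEmem i h1 h2
  have hIE : ∀ i, 1 ≤ i → i ≤ n → E i ∈ I := by
    intro i h1 h2
    rw [hIdef]
    exact mem_IL (a := (D' i, E i)) (mem_EL.2 ⟨i, h1, h2, rfl⟩)
  have hHI : HI I := by rw [hIdef]; exact HI_IL hokE
  have hsd : sd (EL D' E n) = (a - 1) + ((d 2 - 1) + ∑ i ∈ Finset.Icc 3 n, (d i - 1)) := by
    rw [sd_EL, sum_split hn, hD'1, hD'2 2 (by omega)]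
    congr 2
    refine Finset.sum_congr rfl fun i hi => ?_
    rw [Finset.mem_Icc] at hi
    rw [hD'2 i (by omega)]
  have hpd : pd (EL D' E n) = a * (d 2 * ∏ i ∈ Finset.Icc 3 n, d i) := by
    rw [pd_EL, prod_split hn, hD'1, hD'2 2 (by omega)]
    congr 2
    refine Finset.prod_congr rfl fun i hi => ?_
    rw [Finset.mem_Icc] at hi
    rw [hD'2 i (by omega)]
  -- `t ≤ sd`
  have hts : t ≤ sd (EL D' E n) := by
    by_contra hcon
    apply hφ0
    refine eq_zero_of_DD hφ ?_
    intro f hf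
    have h1 := hd_eq_zero_iff.1 (hciE.zero t (by omega)) f hf
    rw [← hIdef] at h1
    have h2 := mem_Ann'.1 (hIA h1) 1
    rw [mul_one] at h2
    exact h2
  obtain ⟨γ, hγ⟩ := Nat.exists_eq_add_of_le hts
  obtain ⟨Ψ, hΨ, hAΨ⟩ := CI.exists_dual hokE hciE
  obtain ⟨g, hg, hgφ⟩ := exists_repr hΨ hφ hγ.symm (by rw [hAΨ, ← hIdef]; exact hIA)
  have hAcol : Ann φ = col I g := by
    rw [← hgφ, Ann_act, hAΨ, ← hIdef]
  have hγe : γ + e = (a - 1) + (d 2 - 1) := by omega
  -- the length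
  have hlen : ∀ M, t < M → ∑ s ∈ Finset.range (t + 1), finrank K (P φ s) =
      ∑ s ∈ Finset.range M, hd (col I g) s := by
    intro M hM
    rw [← hAcol]
    have h1 : ∀ s, finrank K (P φ s) = hd (Ann φ) s := finrank_P_eq φ
    simp only [h1]
    apply Finset.sum_subset
    · intro s hs
      rw [Finset.mem_range] at *
      omega
    · intro s _ hs
      rw [Finset.mem_range] at hs
      exact hd_eq_zero_iff.2 fun x hx => mem_Ann_of_lt hφ (by omega) hx
  have hd2 : 1 ≤ d 2 := hd1 2 (by omega) hn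
  -- it suffices to bound the length of `S / (I + g)`
  suffices H : ∃ M₀, ∀ M, M₀ ≤ M → ∑ j ∈ Finset.range (γ + M), hd (I ⊔ Ideal.span {g}) j ≤
      a * (γ * ∏ i ∈ Finset.Icc 3 n, d i) by
    obtain ⟨M₀, hM₀⟩ := H
    obtain ⟨M, hM⟩ : ∃ M, M = M₀ + t + sd (EL D' E n) + 1 := ⟨_, rfl⟩
    rw [hlen M (by omega)]
    have h1 := sum_col hHI hg M
    have h2 := hM₀ M (by omega)
    have h3 : ∑ j ∈ Finset.range (γ + M), hd I j = pd (EL D' E n) := by
      rw [hIdef]
      exact hciE.len _ (by omega)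
    rw [hpd] at h3
    have h4 := final_arith (A := ∏ i ∈ Finset.Icc 3 n, d i) ha1 hae hγe hd2
    omega
  by_cases hγ0 : γ = 0
  · -- `g` is a nonzero constant
    refine ⟨0, fun M _ => ?_⟩
    rw [hγ0] at hg
    have h1 : g.totalDegree = 0 := Nat.le_zero.1 (IsHomogeneous.totalDegree_le hg)
    rw [totalDegree_eq_zero_iff_eq_C] at h1
    have h2 : coeff 0 g ≠ 0 := by
      intro h3
      rw [h3, C_0] at h1
      apply hφ0
      rw [← hgφ, h1]
      apply LinearMap.ext
      intro f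
      simp
    have h3 : I ⊔ Ideal.span {g} = ⊤ := by
      rw [eq_top_iff]
      refine le_trans ?_ le_sup_right
      rw [top_le_iff, Ideal.span_singleton_eq_top]
      rw [h1]
      exact (isUnit_iff_ne_zero.2 h2).map C
    rw [h3]
    simp [hd_top]
  · have hγ1 : 1 ≤ γ := Nat.one_le_iff_ne_zero.2 hγ0
    -- `p` and `g` are coprime
    have hrel : IsRelPrime p g := by
      rintro δ ⟨p', hp'⟩ ⟨g', hg'⟩
      have hp'0 : p' ≠ 0 := by
        rintro rfl
        rw [mul_zero] at hp'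
        exact hp0 hp'
      have hδ0 : δ ≠ 0 := by
        rintro rfl
        rw [zero_mul] at hp'
        exact hp0 hp'
      have h1 : p' ∈ Ann φ := by
        rw [hAcol, mem_col]
        have : g * p' = g' * p := by rw [hg', hp']; ring
        rw [this]
        apply Ideal.mul_mem_left
        rw [← hE1']
        exact hIE 1 le_rfl (by omega)
      have h2 := hmin p' h1 hp'0
      have h3 : p.totalDegree = a := hp.totalDegree hp0
      rw [hp', totalDegree_mul_of_isDomain hδ0 hp'0] at h3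
      have h4 : δ.totalDegree = 0 := by omega
      rw [totalDegree_eq_zero_iff_eq_C] at h4
      have h5 : coeff 0 δ ≠ 0 := by
        intro h6
        rw [h6, C_0] at h4
        exact hδ0 h4
      rw [h4]
      exact (isUnit_iff_ne_zero.2 h5).map C
    -- second extension
    let D₂ : ℕ → ℕ := fun i => if i ≤ 1 then a else if i ≤ 2 then γ else d i
    let E₂ : ℕ → MvPolynomial (Fin n) K := fun i => if i ≤ 1 then p else g
    have hD21 : D₂ 1 = a := by simp [D₂]
    have hD22 : D₂ 2 = γ := by simp [D₂]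
    have hD23 : ∀ i, 2 < i → D₂ i = d i := by
      intro i hi
      simp only [D₂]
      rw [if_neg (by omega), if_neg (by omega)]
    have hHt2 : Ht (EL D₂ E₂ 2) := by
      apply WR.ht
      refine ⟨⟨trivial, ?_⟩, ?_⟩
      · intro u hu
        rw [show EL D₂ E₂ 0 = [] from rfl, IL_nil, Ideal.mem_bot] at hu ⊢
        have h1 : E₂ (0 + 1) = p := by simp [E₂]
        change E₂ (0 + 1) * u = 0 at hu
        rw [h1] at hu
        exact (mul_eq_zero.1 hu).resolve_left hp0
      · have h1 : IL (EL D₂ E₂ 1) = Ideal.span {p} := by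
          rw [show EL D₂ E₂ 1 = (D₂ 1, E₂ 1) :: [] from rfl, IL_cons, IL_nil, bot_sup_eq]
          simp [E₂]
        have h2 : E₂ (1 + 1) = g := by simp [E₂]
        intro u hu
        change E₂ (1 + 1) * u ∈ IL (EL D₂ E₂ 1) at hu
        change u ∈ IL (EL D₂ E₂ 1)
        rw [h1, Ideal.mem_span_singleton] at hu ⊢
        rw [h2] at hu
        exact hrel.dvd_of_dvd_mul_left hu
    obtain ⟨G, hG1, hG2, hG3⟩ := ext_all (D := D') (E := E) (J := I) hn hD'pos hD'mono hEhom
      hciE.wr hIE hHt2 (fun i hi _ => by rw [hD23 i hi, hD'2 i (by omega)])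
    have hG1' : G 1 = p := by rw [hG1 1 (by omega)]; simp [E₂]
    have hG2' : G 2 = g := by rw [hG1 2 le_rfl]; simp [E₂]
    have hD2pos : ∀ i, 1 ≤ i → i ≤ n → 1 ≤ D₂ i := by
      intro i h1 h2
      rcases Nat.lt_or_ge 2 i with h | h
      · rw [hD23 i h]; exact hd1 i h1 h2
      · rcases Nat.lt_or_ge 1 i with h' | h'
        · have : i = 2 := by omega
          subst this
          rw [hD22]; exact hγ1
        · have : i = 1 := by omega
          subst this
          rw [hD21]; exact ha1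
    have hGhom : ∀ i, 1 ≤ i → i ≤ n → (G i).IsHomogeneous (D₂ i) := by
      intro i h1 h2
      rcases Nat.lt_or_ge 2 i with h | h
      · exact (hG2 i h h2).2
      · rcases Nat.lt_or_ge 1 i with h' | h'
        · have : i = 2 := by omega
          subst this
          rw [hD22, hG2']; exact hg
        · have : i = 1 := by omega
          subst this
          rw [hD21, hG1']; exact hp
    have hGmem : ∀ i, 1 ≤ i → i ≤ n → G i ∈ I ⊔ Ideal.span {g} := by
      intro i h1 h2
      rcases Nat.lt_or_ge 2 i with h | h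
      · exact Ideal.mem_sup_left (hG2 i h h2).1
      · rcases Nat.lt_or_ge 1 i with h' | h'
        · have : i = 2 := by omega
          subst this
          rw [hG2']
          exact Ideal.mem_sup_right (Ideal.mem_span_singleton_self g)
        · have : i = 1 := by omega
          subst this
          rw [hG1', ← hE1']
          exact Ideal.mem_sup_left (hIE 1 le_rfl h2)
    have hokG := okf_EL hD2pos hGhom
    have hciG : CI (EL D₂ G n) := CI_of_NZ _ (EL_length _ _ _) hokG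
      (NZ_of_Ht (EL_length _ _ _) hokG hG3)
    have hpd2 : pd (EL D₂ G n) = a * (γ * ∏ i ∈ Finset.Icc 3 n, d i) := by
      rw [pd_EL, prod_split hn, hD21, hD22]
      congr 2
      refine Finset.prod_congr rfl fun i hi => ?_
      rw [Finset.mem_Icc] at hi
      rw [hD23 i (by omega)]
    have hle : IL (EL D₂ G n) ≤ I ⊔ Ideal.span {g} := by
      refine IL_le fun b hb => ?_
      obtain ⟨i, h1, h2, rfl⟩ := mem_EL.1 hb
      exact hGmem i h1 h2
    refine ⟨sd (EL D₂ G n) + 1, fun M hM => ?_⟩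
    rw [← hpd2, ← hciG.len (γ + M) (by omega)]
    exact Finset.sum_le_sum fun j _ => hd_mono hle j

end Pool.Agent.CB
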