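import Mathlib
import Pool.Agent.CB.CIK1

/-!
# Restriction to the hyperplane `ℓ = 0`
-/

set_option autoImplicit false
set_option linter.all false

noncomputable section

namespace Pool.Agent.CB

open Module MvPolynomial

variable {K : Type*} [Field K] {c : ℕ}

/-- the restriction to the hyperplane `∑ a_i x_i = 0`, where `a j ≠ 0` -/
def rho (a : Fin (c + 1) → K) (j : Fin (c + 1)) :
    MvPolynomial (Fin (c + 1)) K →ₐ[K] MvPolynomial (Fin c) K :=
  aeval (j.insertNth (lf fun i => -((a j)⁻¹ * a (j.succAbove i))) fun i => X i)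

/-- a section of the restriction -/
def iot (j : Fin (c + 1)) : MvPolynomial (Fin c) K →ₐ[K] MvPolynomial (Fin (c + 1)) K :=
  aeval fun i => X (j.succAbove i)

lemma rho_X_succ (a : Fin (c + 1) → K) (j : Fin (c + 1)) (i : Fin c) :
    rho a j (X (j.succAbove i)) = X i := by
  rw [rho, aeval_X, Fin.insertNth_apply_succAbove]

lemma rho_X_self (a : Fin (c + 1) → K) (j : Fin (c + 1)) :
    rho a j (X j) = lf fun i => -((a j)⁻¹ * a (j.succAbove i)) := by
  rw [rho, aeval_X, Fin.insertNth_apply_same]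

lemma rho_iot (a : Fin (c + 1) → K) (j : Fin (c + 1)) (u : MvPolynomial (Fin c) K) :
    rho a j (iot j u) = u := by
  have : (rho a j).comp (iot j) = AlgHom.id K (MvPolynomial (Fin c) K) := by
    apply algHom_ext
    intro i
    rw [AlgHom.comp_apply, iot, aeval_X, rho_X_succ]
    rfl
  exact congrArg (fun k : MvPolynomial (Fin c) K →ₐ[K] MvPolynomial (Fin c) K => k u) this

lemma iot_lf (j : Fin (c + 1)) (b : Fin c → K) :
    iot j (lf b) = ∑ i, b i • (X (j.succAbove i) : MvPolynomial (Fin (c + 1)) K) := by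
  simp only [lf, map_sum, map_smul, iot, aeval_X]

lemma sub_iot_rho (a : Fin (c + 1) → K) (j : Fin (c + 1)) (ha : a j ≠ 0)
    (f : MvPolynomial (Fin (c + 1)) K) : f - iot j (rho a j f) ∈ Ideal.span {lf a} := by
  have : (Ideal.Quotient.mkₐ K (Ideal.span {lf a})).comp ((iot j).comp (rho a j)) =
      Ideal.Quotient.mkₐ K (Ideal.span {lf a}) := by
    apply algHom_ext
    intro i
    rw [AlgHom.comp_apply, AlgHom.comp_apply]
    rcases Fin.eq_self_or_eq_succAbove j i with rfl | ⟨k, rfl⟩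
    · rw [rho_X_self, iot_lf]
      change Ideal.Quotient.mk _ _ = Ideal.Quotient.mk _ _
      rw [Ideal.Quotient.eq, Ideal.mem_span_singleton]
      refine ⟨C (-(a i)⁻¹), ?_⟩
      unfold lf
      rw [Fin.sum_univ_succAbove _ i, add_mul, Finset.sum_mul]
      have h1 : a i • (X i : MvPolynomial (Fin (c + 1)) K) * C (-(a i)⁻¹) = - X i := by
        rw [smul_eq_C_mul, mul_comm, ← mul_assoc, ← C_mul]
        rw [neg_mul, inv_mul_cancel₀ ha, C_neg, C_1]
        ring
      have h2 : ∀ k : Fin c, (a (i.succAbove k) • X (i.succAbove k) :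
          MvPolynomial (Fin (c + 1)) K) * C (-(a i)⁻¹) =
          (-((a i)⁻¹ * a (i.succAbove k))) • X (i.succAbove k) := by
        intro k
        rw [smul_eq_C_mul, smul_eq_C_mul, mul_comm _ (C (-(a i)⁻¹)), ← mul_assoc, ← C_mul,
          neg_mul]
      rw [h1, Finset.sum_congr rfl fun k _ => h2 k]
      abel
    · rw [rho_X_succ, iot, aeval_X]
  have h2 := congrArg (fun k : MvPolynomial (Fin (c + 1)) K →ₐ[K] _ => k f) this
  simp only [AlgHom.comp_apply] at h2
  have h3 : Ideal.Quotient.mk (Ideal.span {lf a}) (iot j (rho a j f)) =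
    Ideal.Quotient.mk (Ideal.span {lf a}) f := h2
  exact (Ideal.Quotient.eq).1 h3.symm

lemma rho_lf (a : Fin (c + 1) → K) (j : Fin (c + 1)) (ha : a j ≠ 0) : rho a j (lf a) = 0 := by
  unfold lf
  rw [Fin.sum_univ_succAbove _ j, map_add, map_smul, rho_X_self, map_sum]
  unfold lf
  rw [Finset.smul_sum, ← Finset.sum_add_distrib]
  refine Finset.sum_eq_zero fun i _ => ?_
  rw [map_smul, rho_X_succ, smul_smul, ← add_smul]
  rw [mul_neg, ← mul_assoc, mul_inv_cancel₀ ha, one_mul, neg_add_cancel, zero_smul]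

lemma rho_hom (a : Fin (c + 1) → K) (j : Fin (c + 1)) {f : MvPolynomial (Fin (c + 1)) K} {k : ℕ}
    (hf : f.IsHomogeneous k) : (rho a j f).IsHomogeneous k := by
  have h1 := hf.aeval (j.insertNth (lf fun i => -((a j)⁻¹ * a (j.succAbove i)))
    fun i => (X i : MvPolynomial (Fin c) K)) (n := 1) (by
    intro i
    rcases Fin.eq_self_or_eq_succAbove j i with rfl | ⟨l, rfl⟩
    · rw [Fin.insertNth_apply_same]
      exact lf_hom _
    · rw [Fin.insertNth_apply_succAbove]
      exact isHomogeneous_X K l)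
  rw [one_mul] at h1
  exact h1

lemma iot_hom (j : Fin (c + 1)) {f : MvPolynomial (Fin c) K} {k : ℕ}
    (hf : f.IsHomogeneous k) : (iot (K := K) j f).IsHomogeneous k := by
  have h1 := hf.aeval (fun i => (X (j.succAbove i) : MvPolynomial (Fin (c + 1)) K)) (n := 1)
    (fun i => isHomogeneous_X K _)
  rw [one_mul] at h1
  exact h1

section

variable {a : Fin (c + 1) → K} {j : Fin (c + 1)} (ha : a j ≠ 0)
  {φ : MvPolynomial (Fin (c + 1)) K →ₗ[K] K} (hφl : ∀ f, φ (lf a * f) = 0)

include ha hφl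

lemma phi_congr (f : MvPolynomial (Fin (c + 1)) K) : φ (iot j (rho a j f)) = φ f := by
  obtain ⟨u, hu⟩ := Ideal.mem_span_singleton'.1 (sub_iot_rho a j ha f)
  have h1 : φ (f - iot j (rho a j f)) = 0 := by
    rw [← hu, mul_comm]
    exact hφl u
  rw [map_sub, sub_eq_zero] at h1
  exact h1.symm

lemma phi_mul_congr (f : MvPolynomial (Fin (c + 1)) K) (u : MvPolynomial (Fin c) K) :
    φ (iot j (rho a j f * u)) = φ (f * iot j u) := by
  rw [← phi_congr ha hφl (f * iot j u), map_mul (rho a j), rho_iot]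

/-- the restricted functional -/
lemma res_DD {t : ℕ} (hφ : φ ∈ DD K (c + 1) t) :
    φ ∘ₗ (iot (K := K) j).toLinearMap ∈ DD K c t := by
  intro f m hf hm
  exact hφ _ m (iot_hom j hf) hm

lemma res_ne (hφ0 : φ ≠ 0) : φ ∘ₗ (iot (K := K) j).toLinearMap ≠ 0 := by
  intro h0
  apply hφ0
  apply LinearMap.ext
  intro f
  rw [← phi_congr ha hφl f]
  exact LinearMap.congr_fun h0 (rho a j f)

lemma res_Ann {f : MvPolynomial (Fin (c + 1)) K} (hf : f ∈ Ann φ) :
    rho a j f ∈ Ann (φ ∘ₗ (iot (K := K) j).toLinearMap) := by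
  rw [mem_Ann']
  intro u
  change φ (iot j (rho a j f * u)) = 0
  rw [phi_mul_congr ha hφl]
  exact mem_Ann'.1 hf _

lemma res_finrank (s : ℕ) :
    finrank K (P (φ ∘ₗ (iot (K := K) j).toLinearMap) s) ≤ finrank K (P φ s) := by
  let r : (MvPolynomial (Fin (c + 1)) K →ₗ[K] K) →ₗ[K] (MvPolynomial (Fin c) K →ₗ[K] K) :=
    (iot (K := K) j).toLinearMap.dualMap
  have h1 : P (φ ∘ₗ (iot (K := K) j).toLinearMap) s ≤ (P φ s).map r := by
    rintro _ ⟨u, hu, rfl⟩
    refine ⟨act (iot j u) φ, ⟨iot j u, iot_hom j hu, rfl⟩, ?_⟩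
    apply LinearMap.ext
    intro v
    change φ (iot j u * iot j v) = φ (iot j (u * v))
    rw [map_mul (iot j)]
  exact (Submodule.finrank_mono h1).trans (Submodule.finrank_map_le r _)

end

end Pool.Agent.CB
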