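import Mathlib
import Pool.Agent.CB.Geo

set_option autoImplicit false

noncomputable section

namespace Pool.Agent.CB

open Module MvPolynomial

/-- Numerical lemma: a symmetric sequence with `g j ≥ min (j+1) (e+1)` in the first half. -/
lemma sum_symm_bound (g : ℕ → ℕ) (t e : ℕ) (he : 2 * e ≤ t)
    (hsym : ∀ s s', s + s' = t → g s = g s')
    (hg : ∀ j, 2 * j ≤ t → min (j + 1) (e + 1) ≤ g j) :
    (e + 1) * (t + 1 - e) ≤ ∑ s ∈ Finset.range (t + 1), g s := by
  -- pointwise bound `min (min (j+1) (e+1)) (t-j+1)`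
  have hpt : ∀ j, j ≤ t → min (min (j + 1) (e + 1)) (t - j + 1) ≤ g j := by
    intro j hj
    by_cases h : 2 * j ≤ t
    · exact (min_le_left _ _).trans (hg j h)
    · have h1 := hg (t - j) (by omega)
      rw [hsym j (t - j) (by omega)]
      omega
  have h1 : ∑ j ∈ Finset.range (t + 1), min (min (j + 1) (e + 1)) (t - j + 1) ≤
      ∑ s ∈ Finset.range (t + 1), g s :=
    Finset.sum_le_sum fun j hj => hpt j (by simpa [Nat.lt_succ_iff] using hj)
  refine le_trans ?_ h1
  -- split `range (t+1)` as `[0,e) ∪ [e, t-e] ∪ (t-e, t]`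
  obtain ⟨r, rfl⟩ : ∃ r, t = e + r + e := ⟨t - 2 * e, by omega⟩
  have h2 : e + r + e + 1 = e + (r + 1) + e := by ring
  rw [h2, Finset.sum_range_add, Finset.sum_range_add]
  have hA : ∑ x ∈ Finset.range e, min (min (x + 1) (e + 1)) (e + r + e - x + 1) =
      ∑ x ∈ Finset.range e, (x + 1) :=
    Finset.sum_congr rfl fun x hx => by
      rw [Finset.mem_range] at hx
      omega
  have hB : ∑ x ∈ Finset.range (r + 1), min (min (e + x + 1) (e + 1)) (e + r + e - (e + x) + 1) =
      ∑ x ∈ Finset.range (r + 1), (e + 1) :=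
    Finset.sum_congr rfl fun x hx => by
      rw [Finset.mem_range] at hx
      omega
  have hC : ∑ x ∈ Finset.range e, min (min (e + (r + 1) + x + 1) (e + 1))
        (e + r + e - (e + (r + 1) + x) + 1) = ∑ x ∈ Finset.range e, (e - x) :=
    Finset.sum_congr rfl fun x hx => by
      rw [Finset.mem_range] at hx
      omega
  rw [hA, hB, hC]
  have hAC : ∑ x ∈ Finset.range e, (x + 1) + ∑ x ∈ Finset.range e, (e - x) = e * (e + 1) := by
    rw [← Finset.sum_add_distrib]
    rw [Finset.sum_congr rfl (g := fun _ => e + 1)]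
    · simp
    · intro x hx
      rw [Finset.mem_range] at hx
      omega
  have hB' : ∑ x ∈ Finset.range (r + 1), (e + 1) = (r + 1) * (e + 1) := by simp
  rw [hB']
  have h3 : e + (r + 1) + e - e = e + (r + 1) := by omega
  rw [h3]
  nlinarith [hAC]

theorem main (K : Type) [Field K] [IsAlgClosed K] (c : ℕ) (d : ℕ → ℕ)
    (F : ℕ → MvPolynomial (Fin (c+1)) K)
    (_hc : 1 ≤ c)
    (hmono : ∀ i j : ℕ, 1 ≤ i → i ≤ j → j ≤ c → d i ≤ d j)
    (hF : ∀ i ∈ Finset.Icc 1 c, (F i).IsHomogeneous (d i))
    (hfin : ∀ j : Fin (c+1), Set.Finite {x : Fin (c+1) → K |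
        x j = 1 ∧ ∀ i ∈ Finset.Icc 1 c, MvPolynomial.eval x (F i) = 0})
    (J : Ideal (MvPolynomial (Fin (c+1)) K))
    (hJh : ∀ f ∈ J, ∀ n : ℕ, MvPolynomial.homogeneousComponent n f ∈ J)
    (hsat : ∀ f : MvPolynomial (Fin (c+1)) K,
        (∃ N : ℕ, ∀ i : Fin (c+1), MvPolynomial.X i ^ N * f ∈ J) → f ∈ J)
    (hFJ : ∀ i ∈ Finset.Icc 1 c, F i ∈ J)
    (h : ℕ → ℕ)
    (hh : ∀ n : ℕ, h n =
        Module.finrank K (MvPolynomial.homogeneousSubmodule (Fin (c+1)) K n) -
        Module.finrank K
          ↥(Submodule.restrictScalars K J ⊓ MvPolynomial.homogeneousSubmodule (Fin (c+1)) K n))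
    (D : ℕ) (hD : ∃ N : ℕ, ∀ n ≥ N, h n = D) (m : ℕ)
    (hm1 : d c - 1 ≤ m + 1) (hm2 : m + 1 ≤ 2 * (d c - 1)) (hlt : h m < D) :
    (m + 1 - (d c - 1) + 1) * d c ≤ D := by
  classical
  have hinf : Infinite K := IsAlgClosed.instInfinite
  -- the finite set of representatives of the points of `X`
  let Z : Set (Fin (c+1) → K) := ⋃ j : Fin (c+1), {x : Fin (c+1) → K |
        x j = 1 ∧ ∀ i ∈ Finset.Icc 1 c, MvPolynomial.eval x (F i) = 0}
  have hZ : Z.Finite := Set.finite_iUnion hfin
  have hZ0 : ∀ x ∈ Z, x ≠ 0 := by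
    intro x hx h0
    obtain ⟨j, hj⟩ := Set.mem_iUnion.1 hx
    have := hj.1
    rw [h0] at this
    simp at this
  obtain ⟨a, ha⟩ := exists_lf Z hZ hZ0
  set l := lf a with hl
  have hlh : l.IsHomogeneous 1 := lf_hom a
  -- no common zero of the `F i` and `l`
  have hnz : ∀ x : Fin (c+1) → K, (∀ i ∈ Finset.Icc 1 c, eval x (F i) = 0) → eval x l = 0 →
      x = 0 := by
    intro x hx hxl
    by_contra hx0
    obtain ⟨j, hj⟩ : ∃ j, x j ≠ 0 := by
      by_contra hcon
      push Not at hcon
      exact hx0 (funext hcon)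
    have hy : (fun i => (x j)⁻¹ * x i) ∈ Z := by
      refine Set.mem_iUnion.2 ⟨j, inv_mul_cancel₀ hj, fun i hi => ?_⟩
      rw [eval_smul_hom (hF i hi), hx i hi, mul_zero]
    apply ha _ hy
    rw [eval_smul_hom hlh, hxl, mul_zero]
  have hl0 : l ≠ 0 := by
    intro h0
    -- otherwise every point of `X` would be a zero of `l`, so `X` is empty and `D = 0`
    have hX : ∀ i : Fin (c+1), (X i : MvPolynomial (Fin (c+1)) K) ∈ J.radical := by
      intro i
      rw [← MvPolynomial.vanishingIdeal_zeroLocus_eq_radical (K := K)]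
      intro x hx
      have hx' : ∀ g ∈ J, aeval x g = 0 := hx
      have hx0 : x = 0 := by
        apply hnz
        · intro i hi
          have := hx' _ (hFJ i hi)
          rwa [aeval_eval_eq] at this
        · rw [h0, map_zero]
      simp [hx0]
    have h1 : (1 : MvPolynomial (Fin (c+1)) K) ∈ J := by
      apply hsat
      choose n hn using hX
      refine ⟨Finset.univ.sup n, fun i => ?_⟩
      have h3 : n i ≤ Finset.univ.sup n := Finset.le_sup (Finset.mem_univ i)
      rw [mul_one, ← Nat.sub_add_cancel h3, pow_add]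
      exact J.mul_mem_left _ (hn i)
    have hJtop : J = ⊤ := (Ideal.eq_top_iff_one J).2 h1
    obtain ⟨n, hn⟩ := hD
    have h2 := hn n le_rfl
    rw [hh] at h2
    have h3 : (Submodule.restrictScalars K J ⊓
        MvPolynomial.homogeneousSubmodule (Fin (c+1)) K n) =
        MvPolynomial.homogeneousSubmodule (Fin (c+1)) K n := by
      apply inf_eq_right.2
      intro x _
      rw [hJtop]
      trivial
    rw [h3, Nat.sub_self] at h2
    omega
  have hreg : ∀ f, l * f ∈ J → f ∈ J := by
    refine regular_of_no_zero J hsat l fun x hx hxl => ?_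
    exact hnz x (fun i hi => hx _ (hFJ i hi)) hxl
  have hh' : ∀ n, h n + finrank K (Jn J n) = finrank K (homogeneousSubmodule (Fin (c+1)) K n) := by
    intro n
    rw [hh n]
    have := finrank_Jn_le J n
    unfold Jn at this ⊢
    omega
  -- step in degree `m + 1`
  have hstep : ∀ n, h n ≤ h (n + 1) := by
    intro n
    have h1 := finrank_A' J hlh hl0 hreg n
    have h2 : finrank K (A' J l n) ≤ finrank K (homogeneousSubmodule (Fin (c+1)) K (n + 1)) :=
      Submodule.finrank_mono (A'_le J hlh n)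
    have h3 := hh' n
    have h4 := hh' (n + 1)
    omega
  have hnot : ¬ homogeneousSubmodule (Fin (c+1)) K (m + 1) ≤ A' J l m := by
    intro hle
    have hall : ∀ n, m ≤ n → homogeneousSubmodule (Fin (c+1)) K (n + 1) ≤ A' J l n := by
      intro n hn
      induction n, hn using Nat.le_induction with
      | base => exact hle
      | succ n _ ih => exact A'_succ J n ih
    have hconst : ∀ n, m ≤ n → h n = h m := by
      intro n hn
      induction n, hn using Nat.le_induction with
      | base => rfl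
      | succ n hn ih =>
        have h0 : A' J l n = homogeneousSubmodule (Fin (c+1)) K (n + 1) :=
          le_antisymm (A'_le J hlh n) (hall n hn)
        have h1 := finrank_A' J hlh hl0 hreg n
        rw [h0] at h1
        have h3 := hh' n
        have h4 := hh' (n + 1)
        omega
    obtain ⟨n, hn⟩ := hD
    have h1 := hn (max n m) (le_max_left _ _)
    rw [hconst _ (le_max_right _ _)] at h1
    omega
  obtain ⟨φ, hφ, hφ0, hφJ, hφl⟩ := exists_functional J hJh hlh m hnot
  -- base point freeness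
  have hbase : BaseFree φ (d c) := by
    intro p hp
    by_contra hcon
    push Not at hcon
    apply hp
    apply hnz
    · intro i hi
      rw [Finset.mem_Icc] at hi
      refine hcon (F i) (d i) (hF i (Finset.mem_Icc.2 hi)) (hmono i c hi.1 hi.2 le_rfl) ?_
      apply LinearMap.ext
      intro f
      exact hφJ _ (J.mul_mem_right f (hFJ i (Finset.mem_Icc.2 hi)))
    · refine hcon l 1 hlh ?_ ?_
      · omega
      · apply LinearMap.ext
        intro f
        exact hφl f
  have hsum := sum_le_h J hlh hl0 hreg hφ hφJ hφl (m + 1) le_rfl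
  have hdpos : 1 ≤ d c := by omega
  have hbound := sum_symm_bound (fun s => finrank K (P φ s)) (m + 1) (m + 1 - (d c - 1))
    (by omega) (fun s s' hs => finrank_P_symm hφ hs)
    (fun j hj => gor_bound hφ hφ0 hbase (by omega) j hj)
  have hlast : h (m + 1) ≤ D := by
    have : ∀ n, m + 1 ≤ n → h (m + 1) ≤ h n := by
      intro n hn
      induction n, hn using Nat.le_induction with
      | base => rfl
      | succ n _ ih => exact ih.trans (hstep n)
    obtain ⟨n, hn⟩ := hD
    have h1 := this (max n (m + 1)) (le_max_right _ _)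
    rw [hn _ (le_max_left _ _)] at h1
    exact h1
  have h5 := hh' (m + 1)
  have h6 : m + 1 + 1 - (m + 1 - (d c - 1)) = d c := by omega
  rw [h6] at hbound
  omega

end Pool.Agent.CB
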