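import Mathlib
import Pool.Agent.CB.CIRed

/-!
# The interval `k = 1` for subschemes lying on a hypersurface of small degree
-/

set_option autoImplicit false
set_option linter.all false

noncomputable section

namespace Pool.Agent.CB

open Module MvPolynomial

/-- From a subscheme failing to impose independent conditions to a functional. -/
theorem reduction (K : Type) [Field K] [IsAlgClosed K] (c : ℕ) (d : ℕ → ℕ)
    (F : ℕ → MvPolynomial (Fin (c+1)) K)
    (hF : ∀ i ∈ Finset.Icc 1 c, (F i).IsHomogeneous (d i))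
    (hfin : ∀ j : Fin (c+1), Set.Finite {x : Fin (c+1) → K |
        x j = 1 ∧ ∀ i ∈ Finset.Icc 1 c, MvPolynomial.eval x (F i) = 0})
    (J : Ideal (MvPolynomial (Fin (c+1)) K))
    (hJh : ∀ f ∈ J, ∀ n : ℕ, MvPolynomial.homogeneousComponent n f ∈ J)
    (hsat : ∀ f : MvPolynomial (Fin (c+1)) K,
        (∃ N : ℕ, ∀ i : Fin (c+1), MvPolynomial.X i ^ N * f ∈ J) → f ∈ J)
    (hFJ : ∀ i ∈ Finset.Icc 1 c, F i ∈ J)
    (h : ℕ → ℕ)
    (hh : ∀ n : ℕ, h n =
        Module.finrank K (MvPolynomial.homogeneousSubmodule (Fin (c+1)) K n) -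
        Module.finrank K
          ↥(Submodule.restrictScalars K J ⊓ MvPolynomial.homogeneousSubmodule (Fin (c+1)) K n))
    (D : ℕ) (hD : ∃ N : ℕ, ∀ n ≥ N, h n = D) (m : ℕ) (hlt : h m < D) :
    ∃ (a : Fin (c+1) → K) (φ : MvPolynomial (Fin (c+1)) K →ₗ[K] K), lf a ≠ 0 ∧
      (∀ x : Fin (c+1) → K, (∀ i ∈ Finset.Icc 1 c, eval x (F i) = 0) → eval x (lf a) = 0 →
        x = 0) ∧
      (∀ f, lf a * f ∈ J → f ∈ J) ∧ φ ∈ DD K (c+1) (m+1) ∧ φ ≠ 0 ∧ (∀ f ∈ J, φ f = 0) ∧
      (∀ f, φ (lf a * f) = 0) ∧
      ∑ s ∈ Finset.range (m + 1 + 1), finrank K (P φ s) ≤ D := by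
  classical
  have hinf : Infinite K := IsAlgClosed.instInfinite
  let Z : Set (Fin (c+1) → K) := ⋃ j : Fin (c+1), {x : Fin (c+1) → K |
        x j = 1 ∧ ∀ i ∈ Finset.Icc 1 c, MvPolynomial.eval x (F i) = 0}
  have hZ : Z.Finite := Set.finite_iUnion hfin
  have hZ0 : ∀ x ∈ Z, x ≠ 0 := by
    intro x hx h0
    obtain ⟨j, hj⟩ := Set.mem_iUnion.1 hx
    have := hj.1
    rw [h0] at this
    simp at this
  obtain ⟨a, ha⟩ := exists_lf Z hZ hZ0
  set l := lf a with hl
  have hlh : l.IsHomogeneous 1 := lf_hom a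
  have hnz : ∀ x : Fin (c+1) → K, (∀ i ∈ Finset.Icc 1 c, eval x (F i) = 0) → eval x l = 0 →
      x = 0 := by
    intro x hx hxl
    by_contra hx0
    obtain ⟨j, hj⟩ : ∃ j, x j ≠ 0 := by
      by_contra hcon
      push Not at hcon
      exact hx0 (funext hcon)
    have hy : (fun i => (x j)⁻¹ * x i) ∈ Z := by
      refine Set.mem_iUnion.2 ⟨j, inv_mul_cancel₀ hj, fun i hi => ?_⟩
      rw [eval_smul_hom (hF i hi), hx i hi, mul_zero]
    apply ha _ hy
    rw [eval_smul_hom hlh, hxl, mul_zero]
  have hl0 : l ≠ 0 := by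
    intro h0
    have hX : ∀ i : Fin (c+1), (X i : MvPolynomial (Fin (c+1)) K) ∈ J.radical := by
      intro i
      rw [← MvPolynomial.vanishingIdeal_zeroLocus_eq_radical (K := K)]
      intro x hx
      have hx' : ∀ g ∈ J, aeval x g = 0 := hx
      have hx0 : x = 0 := by
        apply hnz
        · intro i hi
          have := hx' _ (hFJ i hi)
          rwa [aeval_eval_eq] at this
        · rw [h0, map_zero]
      simp [hx0]
    have h1 : (1 : MvPolynomial (Fin (c+1)) K) ∈ J := by
      apply hsat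
      choose n hn using hX
      refine ⟨Finset.univ.sup n, fun i => ?_⟩
      have h3 : n i ≤ Finset.univ.sup n := Finset.le_sup (Finset.mem_univ i)
      rw [mul_one, ← Nat.sub_add_cancel h3, pow_add]
      exact J.mul_mem_left _ (hn i)
    have hJtop : J = ⊤ := (Ideal.eq_top_iff_one J).2 h1
    obtain ⟨n, hn⟩ := hD
    have h2 := hn n le_rfl
    rw [hh] at h2
    have h3 : (Submodule.restrictScalars K J ⊓
        MvPolynomial.homogeneousSubmodule (Fin (c+1)) K n) =
        MvPolynomial.homogeneousSubmodule (Fin (c+1)) K n := by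
      apply inf_eq_right.2
      intro x _
      rw [hJtop]
      trivial
    rw [h3, Nat.sub_self] at h2
    omega
  have hreg : ∀ f, l * f ∈ J → f ∈ J := by
    refine regular_of_no_zero J hsat l fun x hx hxl => ?_
    exact hnz x (fun i hi => hx _ (hFJ i hi)) hxl
  have hh' : ∀ n, h n + finrank K (Jn J n) = finrank K (homogeneousSubmodule (Fin (c+1)) K n) := by
    intro n
    rw [hh n]
    have := finrank_Jn_le J n
    unfold Jn at this ⊢
    omega
  have hstep : ∀ n, h n ≤ h (n + 1) := by
    intro n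
    have h1 := finrank_A' J hlh hl0 hreg n
    have h2 : finrank K (A' J l n) ≤ finrank K (homogeneousSubmodule (Fin (c+1)) K (n + 1)) :=
      Submodule.finrank_mono (A'_le J hlh n)
    have h3 := hh' n
    have h4 := hh' (n + 1)
    omega
  have hnot : ¬ homogeneousSubmodule (Fin (c+1)) K (m + 1) ≤ A' J l m := by
    intro hle
    have hall : ∀ n, m ≤ n → homogeneousSubmodule (Fin (c+1)) K (n + 1) ≤ A' J l n := by
      intro n hn
      induction n, hn using Nat.le_induction with
      | base => exact hle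
      | succ n _ ih => exact A'_succ J n ih
    have hconst : ∀ n, m ≤ n → h n = h m := by
      intro n hn
      induction n, hn using Nat.le_induction with
      | base => rfl
      | succ n hn ih =>
        have h0 : A' J l n = homogeneousSubmodule (Fin (c+1)) K (n + 1) :=
          le_antisymm (A'_le J hlh n) (hall n hn)
        have h1 := finrank_A' J hlh hl0 hreg n
        rw [h0] at h1
        have h3 := hh' n
        have h4 := hh' (n + 1)
        omega
    obtain ⟨n, hn⟩ := hD
    have h1 := hn (max n m) (le_max_left _ _)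
    rw [hconst _ (le_max_right _ _)] at h1
    omega
  obtain ⟨φ, hφ, hφ0, hφJ, hφl⟩ := exists_functional J hJh hlh m hnot
  have hsum := sum_le_h J hlh hl0 hreg hφ hφJ hφl (m + 1) le_rfl
  have hlast : h (m + 1) ≤ D := by
    have : ∀ n, m + 1 ≤ n → h (m + 1) ≤ h n := by
      intro n hn
      induction n, hn using Nat.le_induction with
      | base => rfl
      | succ n _ ih => exact ih.trans (hstep n)
    obtain ⟨n, hn⟩ := hD
    have h1 := this (max n (m + 1)) (le_max_right _ _)
    rw [hn _ (le_max_left _ _)] at h1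
    exact h1
  have h5 := hh' (m + 1)
  refine ⟨a, φ, hl0, hnz, hreg, hφ, hφ0, hφJ, hφl, ?_⟩
  omega

/-- the interval `k = 1` for subschemes on a hypersurface of degree at most `e + 1` -/
theorem mainK1 (K : Type) [Field K] [IsAlgClosed K] (c : ℕ) (d : ℕ → ℕ)
    (F : ℕ → MvPolynomial (Fin (c+1)) K)
    (hc : 2 ≤ c)
    (hd1 : ∀ i ∈ Finset.Icc 1 c, 1 ≤ d i)
    (hmono : ∀ i j : ℕ, 1 ≤ i → i ≤ j → j ≤ c → d i ≤ d j)
    (hF : ∀ i ∈ Finset.Icc 1 c, (F i).IsHomogeneous (d i))
    (hfin : ∀ j : Fin (c+1), Set.Finite {x : Fin (c+1) → K |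
        x j = 1 ∧ ∀ i ∈ Finset.Icc 1 c, MvPolynomial.eval x (F i) = 0})
    (J : Ideal (MvPolynomial (Fin (c+1)) K))
    (hJh : ∀ f ∈ J, ∀ n : ℕ, MvPolynomial.homogeneousComponent n f ∈ J)
    (hsat : ∀ f : MvPolynomial (Fin (c+1)) K,
        (∃ N : ℕ, ∀ i : Fin (c+1), MvPolynomial.X i ^ N * f ∈ J) → f ∈ J)
    (hFJ : ∀ i ∈ Finset.Icc 1 c, F i ∈ J)
    (h : ℕ → ℕ)
    (hh : ∀ n : ℕ, h n =
        Module.finrank K (MvPolynomial.homogeneousSubmodule (Fin (c+1)) K n) -
        Module.finrank K
          ↥(Submodule.restrictScalars K J ⊓ MvPolynomial.homogeneousSubmodule (Fin (c+1)) K n))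
    (D : ℕ) (hD : ∃ N : ℕ, ∀ n ≥ N, h n = D) (m : ℕ)
    (hm : ∑ i ∈ Finset.Icc 3 c, (d i - 1) ≤ m + 1)
    (hp : ∃ p ∈ J, p ≠ 0 ∧ p.totalDegree ≤ m + 1 - ∑ i ∈ Finset.Icc 3 c, (d i - 1) + 1)
    (hlt : h m < D) :
    (m + 1 - ∑ i ∈ Finset.Icc 3 c, (d i - 1) + 1) * ∏ i ∈ Finset.Icc 3 c, d i ≤ D := by
  classical
  obtain ⟨a, φ, hl0, hnz, hreg, hφ, hφ0, hφJ, hφl, hsum⟩ :=
    reduction K c d F hF hfin J hJh hsat hFJ h hh D hD m hlt
  obtain ⟨j, hj⟩ : ∃ j, a j ≠ 0 := by
    by_contra hcon
    push Not at hcon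
    apply hl0
    simp [lf, hcon]
  -- a form of small degree not divisible by the linear form
  have hq : ∃ q ∈ J, rho a j q ≠ 0 ∧
      q.totalDegree ≤ m + 1 - ∑ i ∈ Finset.Icc 3 c, (d i - 1) + 1 := by
    obtain ⟨p, hpJ, hp0, hpd⟩ := hp
    have key : ∀ k (q : MvPolynomial (Fin (c+1)) K), q ∈ J → q ≠ 0 → q.totalDegree = k →
        ∃ q' ∈ J, rho a j q' ≠ 0 ∧ q'.totalDegree ≤ k := by
      intro k
      induction k using Nat.strong_induction_on with
      | _ k ih =>
        intro q hq hq0 hqk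
        by_cases hr : rho a j q = 0
        · have h1 := sub_iot_rho a j hj q
          rw [hr, map_zero, sub_zero, Ideal.mem_span_singleton] at h1
          obtain ⟨q₁, hq₁⟩ := h1
          have hq₁0 : q₁ ≠ 0 := by
            rintro rfl
            rw [mul_zero] at hq₁
            exact hq0 hq₁
          have hq₁J : q₁ ∈ J := by
            apply hreg
            rw [← hq₁]
            exact hq
          have h2 : q.totalDegree = 1 + q₁.totalDegree := by
            rw [hq₁, totalDegree_mul_of_isDomain hl0 hq₁0, (lf_hom a).totalDegree hl0]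
          obtain ⟨q', h3, h4, h5⟩ := ih q₁.totalDegree (by omega) q₁ hq₁J hq₁0 rfl
          exact ⟨q', h3, h4, by omega⟩
        · exact ⟨q, hq, hr, hqk.le⟩
    obtain ⟨q', h1, h2, h3⟩ := key _ p hpJ hp0 rfl
    exact ⟨q', h1, h2, h3.trans hpd⟩
  obtain ⟨q, hqJ, hq0, hqd⟩ := hq
  have hJA : ∀ f ∈ J, f ∈ Ann φ := by
    intro f hf
    rw [mem_Ann']
    intro u
    exact hφJ _ (J.mul_mem_right u hf)
  -- a homogeneous component of `rho q`
  obtain ⟨k, hk⟩ : ∃ k, homogeneousComponent k (rho a j q) ≠ 0 := by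
    by_contra hcon
    push Not at hcon
    apply hq0
    rw [← sum_homogeneousComponent (rho a j q)]
    exact Finset.sum_eq_zero fun k _ => hcon k
  have hrq : rho a j (homogeneousComponent k q) = homogeneousComponent k (rho a j q) := by
    conv_rhs => rw [← sum_homogeneousComponent q, map_sum, map_sum]
    by_cases hkr : k ∈ Finset.range (q.totalDegree + 1)
    · rw [Finset.sum_eq_single_of_mem k hkr]
      · exact (homogeneousComponent_eq_self
          (rho_hom a j (homogeneousComponent_isHomogeneous k q))).symm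
      · intro i _ hi
        rw [homogeneousComponent_of_mem ((mem_homogeneousSubmodule _ _).2
          (rho_hom a j (homogeneousComponent_isHomogeneous i q))), if_neg (Ne.symm hi)]
    · have h0 : homogeneousComponent k q = 0 := by
        apply homogeneousComponent_eq_zero
        simp only [Finset.mem_range, not_lt] at hkr
        omega
      rw [h0, map_zero]
      symm
      refine Finset.sum_eq_zero fun i hi => ?_
      rw [homogeneousComponent_of_mem ((mem_homogeneousSubmodule _ _).2
          (rho_hom a j (homogeneousComponent_isHomogeneous i q))), if_neg ?_]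
      rintro rfl
      exact hkr hi
  have hkd : k ≤ q.totalDegree := by
    by_contra hcon
    apply hk
    rw [← hrq, homogeneousComponent_eq_zero _ _ (not_le.1 hcon), map_zero]
  have hcore := k1_core (K := K) (n := c) hc (d := d) (F := fun i => rho a j (F i))
    (fun i h1 h2 => hd1 i (Finset.mem_Icc.2 ⟨h1, h2⟩)) hmono
    (fun i h1 h2 => rho_hom a j (hF i (Finset.mem_Icc.2 ⟨h1, h2⟩)))
    (res_DD hj hφl hφ) (res_ne hj hφl hφ0)
    (fun i h1 h2 => res_Ann hj hφl (hJA _ (hFJ i (Finset.mem_Icc.2 ⟨h1, h2⟩))))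
    (by
      intro x hx
      let y : Fin (c+1) → K := fun i => eval x (rho a j (X i))
      have hy : ∀ f, eval x (rho a j f) = eval y f := by
        intro f
        have : ((eval x : MvPolynomial (Fin c) K →+* K).comp
            (rho a j : MvPolynomial (Fin (c+1)) K →+* MvPolynomial (Fin c) K)) =
            (eval y : MvPolynomial (Fin (c+1)) K →+* K) := by
          apply MvPolynomial.ringHom_ext
          · intro b
            simp [y, rho]
          · intro i
            simp [y]
        exact congrArg (fun k : MvPolynomial (Fin (c+1)) K →+* K => k f) this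
      have hy0 : y = 0 := by
        apply hnz
        · intro i hi
          rw [← hy]
          rw [Finset.mem_Icc] at hi
          exact hx (d i, rho a j (F i)) (mem_EL.2 ⟨i, hi.1, hi.2, rfl⟩)
        · rw [← hy, rho_lf a j hj, map_zero]
      funext i
      have h1 : y (j.succAbove i) = x i := by
        change eval x (rho a j (X (j.succAbove i))) = x i
        rw [rho_X_succ, eval_X]
      rw [← h1, hy0]
      rfl)
    (t := m + 1) (e := m + 1 - ∑ i ∈ Finset.Icc 3 c, (d i - 1)) (by omega)
    ⟨rho a j (homogeneousComponent k q), res_Ann hj hφl (hJA _ (hJh q hqJ k)), by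
      rw [hrq]; exact hk, by
      refine (IsHomogeneous.totalDegree_le
        (rho_hom a j (homogeneousComponent_isHomogeneous k q))).trans ?_
      omega⟩
  refine hcore.trans (le_trans ?_ hsum)
  exact Finset.sum_le_sum fun s _ => res_finrank hj hφl s

end Pool.Agent.CB
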